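import Mathlib
import Pool.Agent.Lib.H55N.HD
import Pool.Agent.Lib.H35T.L5
import Pool.Agent.Lib.H35T.Stat

/-!
# H19T: the tower for p = 3. Definitions (compare H55N/HD.lean). See PROOF.md.
-/

open NumberField IsDedekindDomain

namespace H19T

open H55B H35T H55N

/-- eta 1 = 1. -/
theorem eta_one : eta 1 = 1 := by
  have h1 : kap 1 = 1 := (kap_one 1).2 (by rw [sub_self]; exact dvd_zero _)
  have h2 : Nm (1 : O) = 1 := Nm_eq_one.2 isUnit_one
  unfold eta
  rw [h1, h2, Nat.cast_one, map_one, Int.cast_one, one_mul]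

/-- The conjugate of the Hecke character of E144 over F, as a function on ideals. -/
noncomputable def psiT : Ideal O →*₀ ℂ where
  toFun J := e (eta (pg J)) * (starRingEnd ℂ) (e (pg J))
  map_zero' := by
    have : ¬ ∃ x : O, (0 : Ideal O) = Ideal.span {x} ∧ Prim x := by
      rintro ⟨x, hx, hp⟩
      exact hp.ne_zero (Ideal.span_singleton_eq_bot.1 hx.symm)
    rw [pg_of_not this, map_zero, map_zero, mul_zero]
  map_one' := by
    have : (1 : Ideal O) = Ideal.span {1} := by simp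
    rw [this, pg_span prim_one, eta_one, map_one, map_one, mul_one]
  map_mul' J J' := by
    rw [pg_mul, eta_mul, map_mul, map_mul, map_mul]
    ring

theorem psiT_apply (J : Ideal O) :
    psiT J = e (eta (pg J)) * (starRingEnd ℂ) (e (pg J)) := rfl

variable (K : Type) [Field K] [NumberField K] [Algebra F K]

/-- The conjugate of the Hecke character of E144 over K, as a function on ideals. -/
noncomputable def PsiT : Ideal (𝓞 K) →*₀ ℂ :=
  psiT.comp (Ideal.relNorm O : Ideal (𝓞 K) →*₀ Ideal O)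

variable {K}

/-- The L-series of h converges for Re s > 3/2, continues to Re s > 1/2 and its value at 1, divided by
the power of the period, is a 3-adic unit. -/
def LVT (h : Ideal (𝓞 K) →*₀ ℂ) : Prop :=
  ∃ Λ : ℂ → ℂ, AnalyticOnNhd ℂ Λ {s | 1 / 2 < s.re} ∧
    (∀ s : ℂ, 3 / 2 < s.re → HasSum (tm h s) (Λ s)) ∧
    Unit3 (Λ 1 / (e sq3 * R0) ^ Module.finrank F K)

/-- Cubic characters with conductor dividing f, on ideals, trivial on principal ideals of
elements congruent to 1 modulo f; f is a product of primes above good primes. -/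
structure CChr (f : Ideal (𝓞 K)) (χ : Ideal (𝓞 K) →*₀ ℂ) : Prop where
  ne : f ≠ ⊥
  good : ∀ (w : HeightOneSpectrum (𝓞 K)) (v : HeightOneSpectrum O), f ≤ w.asIdeal →
    v.asIdeal = w.asIdeal.under O → H35T.Good v
  val : ∀ a : Ideal (𝓞 K), a ≠ ⊥ → IsCoprime a f → χ a ^ 3 = 1
  zero : ∀ a : Ideal (𝓞 K), ¬ IsCoprime a f → χ a = 0
  per : ∀ x y : 𝓞 K, x ≠ 0 → y ≠ 0 → IsCoprime (Ideal.span {x}) f → x - y ∈ f →
    χ (Ideal.span {x}) = χ (Ideal.span {y})

/-- The decomposition law in a cyclic cubic extension K'/K with character chi. -/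
def SplitC (K K' : Type) [Field K] [NumberField K] [Field K'] [NumberField K'] [Algebra K K']
    (χ : Ideal (𝓞 K) →*₀ ℂ) : Prop :=
  ∀ w : HeightOneSpectrum (𝓞 K),
    (χ w.asIdeal = 1 ∧ ∃ W₁ W₂ W₃ : HeightOneSpectrum (𝓞 K'), W₁ ≠ W₂ ∧ W₁ ≠ W₃ ∧ W₂ ≠ W₃ ∧
      {W : HeightOneSpectrum (𝓞 K') | W.asIdeal.under (𝓞 K) = w.asIdeal} = {W₁, W₂, W₃} ∧
      Ideal.relNorm (𝓞 K) W₁.asIdeal = w.asIdeal ∧ Ideal.relNorm (𝓞 K) W₂.asIdeal = w.asIdeal ∧
      Ideal.relNorm (𝓞 K) W₃.asIdeal = w.asIdeal) ∨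
    (χ w.asIdeal ≠ 1 ∧ χ w.asIdeal ^ 3 = 1 ∧ ∃ W : HeightOneSpectrum (𝓞 K'),
      {W : HeightOneSpectrum (𝓞 K') | W.asIdeal.under (𝓞 K) = w.asIdeal} = {W} ∧
      Ideal.relNorm (𝓞 K) W.asIdeal = w.asIdeal ^ 3) ∨
    (χ w.asIdeal = 0 ∧ ∃ W : HeightOneSpectrum (𝓞 K'),
      {W : HeightOneSpectrum (𝓞 K') | W.asIdeal.under (𝓞 K) = w.asIdeal} = {W} ∧
      Ideal.relNorm (𝓞 K) W.asIdeal = w.asIdeal)

/-- Data of the class decomposition modulo 4f: representatives b of the ideal classes, of the classes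
modulo 4fb, and transversals modulo the units congruent to 1 modulo 4f. -/
structure CDT (f : Ideal (𝓞 K)) (ι : Type) (b : ι → Ideal (𝓞 K)) (c₀ : ι → 𝓞 K)
    (T : ι → Set (𝓞 K)) : Prop where
  ne : ∀ i, b i ≠ ⊥
  cop : ∀ i, IsCoprime (b i) (Ideal.span {6} * f)
  mem : ∀ i, c₀ i ∈ b i
  prim : ∀ i, ∀ w : HeightOneSpectrum (𝓞 K), Ideal.span {4} * f ≤ w.asIdeal →
    c₀ i ∉ w.asIdeal * b i
  trans : ∀ i, Transv (Ideal.span {4} * f) (XS (Ideal.span {4} * f * b i) (c₀ i)) (T i)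
  bij : ∀ a : Ideal (𝓞 K), a ≠ ⊥ → IsCoprime a (Ideal.span {4} * f) →
    ∃! q : Σ i, T i, a * b q.1 = Ideal.span {(q.2 : 𝓞 K)}

open Classical in
/-- The quadratic character modulo the prime above 3. -/
noncomputable def kl (y : O) : ℂ := if lam ∣ y - 1 then 1 else if lam ∣ y + 1 then -1 else 0

/-- The summand kl (N x) conj N(x) |N(x)|^(-2s). -/
noncomputable def nfT (s : ℂ) (x : 𝓞 K) : ℂ := kl (Algebra.intNorm O (𝓞 K) x) * nf s x

/-- Integrality above 3. -/
def Int3 (z : ℂ) : Prop := ∀ V : ValuationSubring ℂ, V.valuation 3 < 1 → V.valuation z ≤ 1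

/-- The class of fields: subfields of Galois extensions L/F of 3-power degree, unramified outside the
good primes, as extensions of F. -/
def Sub3 (K : Type) [Field K] [NumberField K] [Algebra F K] : Prop :=
  ∃ (L : Type) (_ : Field L) (_ : NumberField L) (_ : Algebra F L) (_ : Algebra K L)
    (_ : IsScalarTower F K L), ThreeExt L ∧ H35T.UnrOut L

end H19T
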