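import Mathlib
import Pool.Agent.Lib.H19T.Defs
import Pool.Agent.Lib.H55N.H1
import Pool.Agent.Lib.H35T.I1

open NumberField IsDedekindDomain

namespace H19T

open H55B H35T H55N

/-! Chunk A1 (M): the Hecke character of E144 on prime ideals and its absolute value. Adapt H55N/H1.lean (Psi = PsiF of E27: psiF J =
conj(e(pg J))); here psiT J = e(eta(pg J)) * psiF J (psiT_eq is the definition) and PsiT K a = psiT (relNorm O a), so
PsiT K a = e(eta(pg(relNorm a))) * Psi K a (PsiT_eq). psiT_prime: pg v = gen v (gen_spec, pg_span), fe v = conj(e(eta(gen v))) e(gen v).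
PsiT_prime: as H1.Psi_prime (Ideal.relNorm_eq_pow_of_isMaximal). eta_norm: eta x = chi4(Nm x) kap x; x prime to 2 gives Nm x odd, chi4 = 1 or -1, and
kap_cube; a complex number with cube 1 or -1 has absolute value 1; eta_zero' : x not prime to 2 gives kap x = 0 (H35T.eta_zero).
PsiT_ne: Psi K a nonzero iff a prime to 3 (Psi_ne); pg(relNorm a) is then a generator of relNorm a and it is prime to 2 iff a is prime to 2
(work with prime ideals as in H1.Psi_ne: PsiT_prime, f4_eta for v not above 2, eta_zero above 2). PsiT_norm: |e(eta)| = 1 and Psi_norm. -/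

theorem psiT_eq (J : Ideal O) : psiT J = e (eta (pg J)) * psiF J := rfl

theorem psiT_prime (v : HeightOneSpectrum O) (h3 : (3 : O) ∉ v.asIdeal) :
    psiT v.asIdeal = (starRingEnd ℂ) (fe v) := by
  obtain ⟨h1, h2⟩ := gen_spec v h3
  rw [psiT_apply, I1_conj]
  have h4 : pg v.asIdeal = gen v := by
    conv_lhs => rw [h1]
    exact pg_span h2
  rw [h4]


theorem psiT_two (v : HeightOneSpectrum O) (h2 : (2 : O) ∈ v.asIdeal) : psiT v.asIdeal = 0 := by
  have h3 : (3 : O) ∉ v.asIdeal := by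
    intro h3
    have h4 := v.asIdeal.sub_mem h3 h2
    rw [show (3 : O) - 2 = 1 by ring] at h4
    exact v.isPrime.ne_top ((Ideal.eq_top_iff_one _).2 h4)
  obtain ⟨h4, h5⟩ := gen_spec v h3
  have h6 : pg v.asIdeal = gen v := by
    conv_lhs => rw [h4]
    exact pg_span h5
  have h7 : ¬ IsCoprime (gen v) 2 := by
    rintro ⟨a, b, hab⟩
    have h8 : gen v ∈ Ideal.span {gen v} := Ideal.mem_span_singleton_self _
    rw [← h4] at h8
    apply v.isPrime.ne_top
    rw [Ideal.eq_top_iff_one, ← hab]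
    exact v.asIdeal.add_mem (Ideal.mul_mem_left _ _ h8) (Ideal.mul_mem_left _ _ h2)
  rw [psiT_apply, h6, eta_zero _ h7, map_zero, zero_mul]


theorem psiT_three (v : HeightOneSpectrum O) (h3 : (3 : O) ∈ v.asIdeal) : psiT v.asIdeal = 0 := by
  rw [psiT_eq, psiF_three v h3, mul_zero]


theorem eta_norm (x : O) (h : IsCoprime x 2) : ‖e (eta x)‖ = 1 := by
  have h1 := eta_six x h
  have h4 : ‖e (eta x)‖ ^ 6 = 1 := by
    rw [← norm_pow, ← map_pow, h1, map_one, NormOneClass.norm_one]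
  exact (pow_eq_one_iff_of_nonneg (norm_nonneg _) (by norm_num)).1 h4


theorem eta_norm_le (x : O) : ‖e (eta x)‖ ≤ 1 := by
  by_cases h : IsCoprime x 2
  · exact (eta_norm x h).le
  · rw [eta_zero x h, map_zero, norm_zero]
    exact zero_le_one


variable {K : Type} [Field K] [NumberField K] [Algebra F K]

theorem PsiT_eq (a : Ideal (𝓞 K)) :
    PsiT K a = e (eta (pg (Ideal.relNorm O a))) * Psi K a := rfl

theorem PsiT_prime (w : HeightOneSpectrum (𝓞 K)) (v : HeightOneSpectrum O)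
    (hv : v.asIdeal = w.asIdeal.under O) :
    PsiT K w.asIdeal = psiT v.asIdeal ^ w.asIdeal.inertiaDeg O := by
  have : w.asIdeal.LiesOver v.asIdeal := ⟨hv⟩
  have := w.isMaximal
  have := v.isMaximal
  show psiT (Ideal.relNorm O w.asIdeal) = _
  rw [Ideal.relNorm_eq_pow_of_isMaximal w.asIdeal v.asIdeal, map_pow]


omit [Algebra F K] in
theorem ta1_coprime (w : HeightOneSpectrum (𝓞 K)) :
    IsCoprime w.asIdeal (Ideal.span {(6 : 𝓞 K)}) ↔ (6 : 𝓞 K) ∉ w.asIdeal := by
  rw [Ideal.isCoprime_iff_sup_eq]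
  constructor
  · intro h h3
    rw [sup_eq_left.2 ((Ideal.span_singleton_le_iff_mem _).2 h3)] at h
    exact w.isPrime.ne_top h
  · intro h
    have hm := w.isMaximal
    refine hm.out.2 _ (lt_of_le_of_ne le_sup_left ?_)
    intro he
    apply h
    rw [he]
    exact Ideal.mem_sup_right (Ideal.mem_span_singleton_self _)

omit [NumberField K] [Algebra F K] in
theorem ta1_six (w : HeightOneSpectrum (𝓞 K)) :
    (6 : 𝓞 K) ∈ w.asIdeal ↔ (2 : 𝓞 K) ∈ w.asIdeal ∨ (3 : 𝓞 K) ∈ w.asIdeal := by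
  rw [show (6 : 𝓞 K) = 2 * 3 by norm_num]
  exact w.isPrime.mul_mem_iff_mem_or_mem

theorem ta1_prime (w : HeightOneSpectrum (𝓞 K)) :
    PsiT K w.asIdeal ≠ 0 ↔ IsCoprime w.asIdeal (Ideal.span {(6 : 𝓞 K)}) := by
  obtain ⟨v, hv⟩ := H1_below w
  have h3 : (3 : O) ∈ v.asIdeal ↔ (3 : 𝓞 K) ∈ w.asIdeal := by
    rw [hv, Ideal.under_def, Ideal.mem_comap, map_ofNat]
  have h2 : (2 : O) ∈ v.asIdeal ↔ (2 : 𝓞 K) ∈ w.asIdeal := by
    rw [hv, Ideal.under_def, Ideal.mem_comap, map_ofNat]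
  rw [ta1_coprime, PsiT_prime w v hv, ta1_six, ← h3, ← h2]
  by_cases h : (3 : O) ∈ v.asIdeal
  · rw [psiT_three v h]
    simp only [h, or_true, not_true_eq_false, iff_false, not_not]
    exact zero_pow (Ideal.inertiaDeg_pos w.asIdeal O).ne'
  · by_cases h' : (2 : O) ∈ v.asIdeal
    · rw [psiT_two v h']
      simp only [h', true_or, not_true_eq_false, iff_false, not_not]
      exact zero_pow (Ideal.inertiaDeg_pos w.asIdeal O).ne'
    · rw [psiT_prime v h]
      simp only [h, h', or_self, not_false_eq_true, iff_true]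
      apply pow_ne_zero
      intro h0
      have h1 := fe_mul_conj v h h'
      rw [h0, mul_zero] at h1
      have h4 : Ideal.absNorm v.asIdeal = 0 := by exact_mod_cast h1.symm
      rw [Ideal.absNorm_eq_zero_iff] at h4
      exact v.ne_bot h4

theorem PsiT_ne (a : Ideal (𝓞 K)) (ha : a ≠ ⊥) :
    PsiT K a ≠ 0 ↔ IsCoprime a (Ideal.span {(6 : 𝓞 K)}) := by
  induction a using UniqueFactorizationMonoid.induction_on_prime with
  | h₁ => exact absurd rfl ha
  | h₂ x hx =>
    rw [Ideal.isUnit_iff] at hx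
    rw [hx, ← Ideal.one_eq_top, map_one]
    exact ⟨fun _ => isCoprime_one_left, fun _ => one_ne_zero⟩
  | h₃ x p hx hp ih =>
    have h1 := ta1_prime (K := K) ⟨p, Ideal.isPrime_of_prime hp, hp.ne_zero⟩
    simp only at h1
    rw [map_mul, mul_ne_zero_iff, h1, ih hx, IsCoprime.mul_left_iff]


theorem PsiT_norm (a : Ideal (𝓞 K)) (ha : a ≠ ⊥) (h6 : IsCoprime a (Ideal.span {(6 : 𝓞 K)})) :
    ‖PsiT K a‖ ^ 2 = Ideal.absNorm a := by
  have h1 := (PsiT_ne a ha).2 h6
  have h3 : IsCoprime a (Ideal.span {(3 : 𝓞 K)}) := by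
    refine IsCoprime.of_isCoprime_of_dvd_right h6 ?_
    rw [Ideal.dvd_iff_le, Ideal.span_singleton_le_span_singleton]
    exact ⟨2, by norm_num⟩
  rw [PsiT_eq] at h1 ⊢
  have h4 : IsCoprime (pg (Ideal.relNorm O a)) 2 := by
    by_contra h5
    apply h1
    rw [eta_zero _ h5, map_zero, zero_mul]
  rw [norm_mul, eta_norm _ h4, one_mul, Psi_norm a ha h3]


theorem PsiT_norm_le (a : Ideal (𝓞 K)) : ‖PsiT K a‖ ^ 2 ≤ Ideal.absNorm a := by
  rw [PsiT_eq, norm_mul, mul_pow]
  refine le_trans ?_ (Psi_norm_le a)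
  exact mul_le_of_le_one_left (sq_nonneg _) (pow_le_one₀ (norm_nonneg _) (eta_norm_le _))


end H19T
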