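import Mathlib
import Pool.Agent.Lib.H19T.A1
import Pool.Agent.Lib.H35T.A4
import Pool.Agent.Lib.H55N.H7

open NumberField IsDedekindDomain

namespace H19T

open H55B H35T H55N

theorem a3_zero {K : Type} [Field K] [NumberField K] [Algebra F K] (w : HeightOneSpectrum (𝓞 K))
    (h : (2 : 𝓞 K) ∈ w.asIdeal ∨ (3 : 𝓞 K) ∈ w.asIdeal) : PsiT K w.asIdeal = 0 := by
  by_contra h0
  have h1 := (PsiT_ne w.asIdeal w.ne_bot).1 h0
  have h6 : (6 : 𝓞 K) ∈ w.asIdeal := by
    have e1 : (6 : 𝓞 K) = 2 * 3 := by norm_num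
    rw [e1]
    rcases h with h | h
    · exact w.asIdeal.mul_mem_right _ h
    · exact w.asIdeal.mul_mem_left _ h
  have h2 : Ideal.span {(6 : 𝓞 K)} ≤ w.asIdeal := (Ideal.span_singleton_le_iff_mem _).2 h6
  rw [Ideal.isCoprime_iff_sup_eq, sup_eq_left.2 h2] at h1
  exact w.isPrime.ne_top h1

theorem a3_LEF {K : Type} [Field K] [NumberField K] [Algebra F K] (hU : H35T.UnrOut K)
    (w : HeightOneSpectrum (𝓞 K)) :
    LEF K w = ArithmeticFunction.ofPowerSeries (Ideal.absNorm w.asIdeal)
        ((1 - PowerSeries.C (PsiT K w.asIdeal) * PowerSeries.X)⁻¹ : PowerSeries ℂ) *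
      ArithmeticFunction.ofPowerSeries (Ideal.absNorm w.asIdeal)
        ((1 - PowerSeries.C ((starRingEnd ℂ) (PsiT K w.asIdeal)) *
          PowerSeries.X)⁻¹ : PowerSeries ℂ) := by
  by_cases h3 : (3 : 𝓞 K) ∈ w.asIdeal
  · rw [a3_zero w (Or.inr h3), map_zero (starRingEnd ℂ), H7_ps, map_one, mul_one]
    exact euler_bad w (Or.inr (H35T.val_three hU w h3))
  · by_cases h2 : (2 : 𝓞 K) ∈ w.asIdeal
    · rw [a3_zero w (Or.inl h2), map_zero (starRingEnd ℂ), H7_ps, map_one, mul_one]
      exact euler_bad w (Or.inl (H35T.val_two hU w h2))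
    · obtain ⟨v, hv⟩ := H1_below w
      obtain ⟨hv3, _⟩ := I1_under w h3 h2 v hv
      rw [I1_LEF w h3 h2 v hv, PsiT_prime w v hv, psiT_prime v hv3,
        map_pow (starRingEnd ℂ) ((starRingEnd ℂ) (fe v)), Complex.conj_conj, mul_comm]

/-- The complex conjugate of PsiT. -/
noncomputable def a3_conj (K : Type) [Field K] [NumberField K] [Algebra F K] :
    Ideal (𝓞 K) →*₀ ℂ := (starRingEnd ℂ).toMonoidWithZeroHom.comp (PsiT K)

/-- Chunk A3 (M), the L-function of E144 over K. Adapt H55N/H7.lean (LFunction_Psi; H7_ps there is reusable). For w not above 2 or 3: H35T.I1_LEF, with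
PsiT K w = conj(fe v)^f (PsiT_prime, psiT_prime); for w above 2 or 3: LEF K w = 1 (H35T.euler_bad with val_two hU, val_three hU of H35T.A4) and
PsiT K w = 0 (psiT_two, psiT_three, PsiT_prime, the inertia degree is positive). -/
theorem LFunction_PsiT (K : Type) [Field K] [NumberField K] [Algebra F K] (hU : H35T.UnrOut K) (n : ℕ) :
    (((E144.baseChange K).LFunction n : ℤ) : ℂ) =
      (AI (PsiT K) * AI (fun a => (starRingEnd ℂ) (PsiT K a))) n := by
  classical
  set L : HeightOneSpectrum (𝓞 K) → ArithmeticFunction ℤ := fun w =>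
    ((E144.baseChange K).baseChange (w.adicCompletion K)).localEulerFactor
      (w.adicCompletionIntegers K) with hLdef
  have hL : ∀ᶠ T in Filter.atTop, (∏ w ∈ T, L w) n = (E144.baseChange K).LFunction n := by
    have hN : Northcott (fun w : HeightOneSpectrum (𝓞 K) =>
        Nat.card (IsLocalRing.ResidueField (w.adicCompletionIntegers K))) := by
      have h1 : (fun w : HeightOneSpectrum (𝓞 K) =>
        Nat.card (IsLocalRing.ResidueField (w.adicCompletionIntegers K))) =
          fun w => Ideal.absNorm w.asIdeal := funext fun w => (residue_card K w).2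
      rw [h1]
      infer_instance
    exact ArithmeticFunction.tendsTo_eulerProduct_ofPowerSeries
      (fun w : HeightOneSpectrum (𝓞 K) =>
        Nat.card (IsLocalRing.ResidueField (w.adicCompletionIntegers K)))
      (fun w => ((E144.baseChange K).baseChange (w.adicCompletion K)).localPowerSeries
        (w.adicCompletionIntegers K))
      (fun w => by simp [WeierstrassCurve.localPowerSeries]) n
  have hA : ∀ᶠ T : Finset (HeightOneSpectrum (𝓞 K)) in Filter.atTop,
      ∀ m ∈ Finset.range (n + 1),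
      (∏ w ∈ T, ArithmeticFunction.ofPowerSeries (Ideal.absNorm w.asIdeal)
        ((1 - PowerSeries.C (PsiT K w.asIdeal) * PowerSeries.X)⁻¹ : PowerSeries ℂ)) m =
          AI (PsiT K) m ∧
      (∏ w ∈ T, ArithmeticFunction.ofPowerSeries (Ideal.absNorm w.asIdeal)
        ((1 - PowerSeries.C ((starRingEnd ℂ) (PsiT K w.asIdeal)) *
          PowerSeries.X)⁻¹ : PowerSeries ℂ)) m =
          AI (fun a => (starRingEnd ℂ) (PsiT K a)) m := by
    rw [Filter.eventually_all_finset]
    intro m _
    exact (AI_euler (PsiT K) m).and (AI_euler (a3_conj K) m)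
  obtain ⟨T, hT1, hT2⟩ := (hL.and hA).exists
  rw [← hT1, ← ArithmeticFunction.intCoe_apply, I2_cast_prod]
  have h1 : ∀ w ∈ T, ((L w : ArithmeticFunction ℤ) : ArithmeticFunction ℂ) =
      ArithmeticFunction.ofPowerSeries (Ideal.absNorm w.asIdeal)
        ((1 - PowerSeries.C (PsiT K w.asIdeal) * PowerSeries.X)⁻¹ : PowerSeries ℂ) *
      ArithmeticFunction.ofPowerSeries (Ideal.absNorm w.asIdeal)
        ((1 - PowerSeries.C ((starRingEnd ℂ) (PsiT K w.asIdeal)) *
          PowerSeries.X)⁻¹ : PowerSeries ℂ) := fun w _ => a3_LEF hU w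
  rw [Finset.prod_congr rfl h1, Finset.prod_mul_distrib]
  refine I2_mul_congr ?_ ?_ n le_rfl
  · intro m hm
    exact (hT2 m (Finset.mem_range.2 (by omega))).1
  · intro m hm
    exact (hT2 m (Finset.mem_range.2 (by omega))).2

end H19T
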