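import Mathlib
import Pool.Agent.Lib.H19T.A3
import Pool.Agent.Lib.H35T.I5
import Pool.Agent.Lib.H55N.H8

open NumberField IsDedekindDomain

namespace H19T

open H55B H35T H55N

/-- Chunk A4 (M), the L-function of E144 over K from the L-series of PsiT K. Adapt H55N/H8.lean (H8_tm is reusable; tm_summable with PsiT_norm_le,
AI_LSeries, LFunction_PsiT). Value: (L 1/(e sq3 * R0)^n) * conj(same) = L 1 conj(L 1)/(3 R0 conj R0)^n because e sq3 * conj(e sq3) = 3
(H35T.i5_sq3), R0 = R (e om - 1); Unit3.mul, Unit3.conj, Unit3.ne_zero (H35T.I4). -/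
theorem L_valT (K : Type) [Field K] [NumberField K] [Algebra F K] (hU : H35T.UnrOut K)
    (h : LVT (PsiT K)) :
    ∃ Λ : ℂ → ℂ, AnalyticOnNhd ℂ Λ {s | 1 / 2 < s.re} ∧
      (∀ s : ℂ, 3 / 2 < s.re →
        LSeriesSummable (fun n => (((E144.baseChange K).LFunction n : ℤ) : ℂ)) s ∧
        Λ s = (E144.baseChange K).LSeries s) ∧ Λ 1 ≠ 0 ∧
      Unit3 (Λ 1 / (3 * R (e om - 1) * (starRingEnd ℂ) (R (e om - 1))) ^ Module.finrank F K) := by
  obtain ⟨L, hLa, hLs, hL1⟩ := h
  have hval : Unit3 ((L 1 * (starRingEnd ℂ) (L ((starRingEnd ℂ) 1))) /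
      (3 * R (e om - 1) * (starRingEnd ℂ) (R (e om - 1))) ^ Module.finrank F K) := by
    have e1 : (L 1 * (starRingEnd ℂ) (L ((starRingEnd ℂ) 1))) /
        (3 * R (e om - 1) * (starRingEnd ℂ) (R (e om - 1))) ^ Module.finrank F K =
        (L 1 / (e sq3 * R0) ^ Module.finrank F K) *
          (starRingEnd ℂ) (L 1 / (e sq3 * R0) ^ Module.finrank F K) := by
      rw [map_one, map_div₀, map_pow, map_mul, div_mul_div_comm, ← mul_pow]
      congr 2
      have h3 := i5_sq3
      unfold R0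
      linear_combination (-(R (e om - 1)) * (starRingEnd ℂ) (R (e om - 1))) * h3
    rw [e1]
    exact Unit3.mul hL1 (Unit3.conj hL1)
  refine ⟨fun z => L z * (starRingEnd ℂ) (L ((starRingEnd ℂ) z)), hLa.mul (I4_conj hLa), ?_, ?_,
    hval⟩
  · intro z hz
    have hz' : 3 / 2 < ((starRingEnd ℂ) z).re := by simpa using hz
    have h0 : PsiT K ⊥ = 0 := (PsiT K).map_zero
    have h1 := AI_LSeries (fun a => PsiT K a) h0 z (tm_summable _ PsiT_norm_le z hz)
    have h2 := AI_LSeries (fun a => (starRingEnd ℂ) (PsiT K a)) (by rw [h0, map_zero]) z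
      (tm_summable _ (fun a => by rw [RCLike.norm_conj]; exact PsiT_norm_le a) z hz)
    have e1 : ∑' a, tm (fun a => PsiT K a) z a = L z := (hLs z hz).tsum_eq
    have e2 : ∑' a, tm (fun a => (starRingEnd ℂ) (PsiT K a)) z a =
        (starRingEnd ℂ) (L ((starRingEnd ℂ) z)) := by
      have h3 := (Complex.hasSum_conj').2 (hLs _ hz')
      have h4 := h3.tsum_eq
      rw [← h4]
      exact tsum_congr fun a => H8_tm _ z a
    rw [e1] at h1
    rw [e2] at h2
    have h3 := ArithmeticFunction.LSeriesHasSum_mul h1 h2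
    have e3 : (fun n => (((E144.baseChange K).LFunction n : ℤ) : ℂ)) = fun n =>
        (AI (PsiT K) * AI (fun a => (starRingEnd ℂ) (PsiT K a))) n :=
      funext fun n => LFunction_PsiT K hU n
    have key : LSeriesHasSum (fun n => (((E144.baseChange K).LFunction n : ℤ) : ℂ)) z
        (L z * (starRingEnd ℂ) (L ((starRingEnd ℂ) z))) := by
      rw [e3]
      exact h3
    exact ⟨key.LSeriesSummable, key.LSeries_eq.symm⟩
  · have h1 := hval.ne_zero
    exact (div_ne_zero_iff.1 h1).1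

end H19T
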