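import Mathlib
import Pool.Agent.Lib.H19T.A1
import Pool.Agent.Lib.H35T.L14
import Pool.Agent.Lib.H55N.T2

open NumberField IsDedekindDomain

namespace H19T

open H55B H35T H55N

theorem a10_hasSum (s : ℂ) (hs : 3 / 2 < s.re) :
    HasSum (fun J : Ideal O => psiT J * (Ideal.absNorm J : ℂ) ^ (-s))
      (Lf (fun x => e (eta x) * 1) s) := by
  have hinj : Function.Injective (fun y : O => (Ideal.span {1 + 3 * y} : Ideal O)) := by
    intro y z h
    have h1 : Prim (1 + 3 * y) := ⟨y, by ring⟩
    have h2 : Prim (1 + 3 * z) := ⟨z, by ring⟩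
    have h3 : 1 + 3 * y = 1 + 3 * z :=
      h1.eq_of_associated h2 (Ideal.span_singleton_eq_span_singleton.1 h)
    have h4 : (3 : O) ≠ 0 := by norm_num
    exact mul_left_cancel₀ h4 (add_left_cancel h3)
  rw [← hinj.hasSum_iff]
  · have h1 : (fun J : Ideal O => psiT J * (Ideal.absNorm J : ℂ) ^ (-s)) ∘
        (fun y : O => (Ideal.span {1 + 3 * y} : Ideal O)) =
        fun y : O => (e (eta (1 + 3 * y)) * 1) * g s (1 + 3 * e y) := by
      funext y
      have hp : Prim (1 + 3 * y) := ⟨y, by ring⟩
      show psiT (Ideal.span {1 + 3 * y}) *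
        (Ideal.absNorm (Ideal.span {1 + 3 * y} : Ideal O) : ℂ) ^ (-s) = _
      rw [psiT_eq, pg_span hp, mul_assoc, T2_term, mul_one]
    rw [h1]
    have h2 : Summable fun y : O => (e (eta (1 + 3 * y)) * 1) * g s (1 + 3 * e y) := by
      refine Summable.of_norm_bounded (Kf_summable 1 s hs).norm fun y => ?_
      rw [mul_one, norm_mul]
      exact mul_le_of_le_one_left (norm_nonneg _) (eta_norm_le _)
    exact h2.hasSum
  · intro J hJ
    have h1 : psiT J = 0 := by
      rw [psiT_apply, pg_of_not, map_zero, map_zero, mul_zero]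
      rintro ⟨x, hx, y, hy⟩
      apply hJ
      refine ⟨y, ?_⟩
      show Ideal.span {1 + 3 * y} = J
      rw [hx]
      congr 2
      linear_combination -hy
    show psiT J * _ = 0
    rw [h1, zero_mul]

/-- Chunk A10 (M), the base of the induction: K = F. Adapt H55N/T2.lean (T2_equiv, T2_cpow are reusable): the series is the sum over the ideals J of O of
psiT J (absNorm J)^(-s); psiT J is not 0 only for J = span {x}, x = 1 + 3 y primary, and the term is e(eta(1 + 3 y)) g s (1 + 3 e y); the sum over y is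
Lf (fun x => e (eta x)) s (definition of H55B.Lf; absolute convergence: |e(eta)| <= 1 and Kf_summable 1 s, or the summability in T2_hasSum). H35T.main_val with alpha = 1 and
f = 1 (GoodMod 1: L12_good_one, Chr 1: L12_chr_one): Lam with Lam 1/(R (e om - 1) * e sq3) a unit, R0 = R (e om - 1), finrank F K = 1. -/
theorem LVT_base (K : Type) [Field K] [NumberField K] [Algebra F K]
    (h1 : Module.finrank F K = 1) : LVT (PsiT K) := by
  obtain ⟨ε, hε⟩ := T2_equiv K h1
  obtain ⟨Λ, hΛ, hΛs, hΛ1⟩ := main_val L12_good_one L12_chr_one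
  refine ⟨Λ, hΛ, ?_, ?_⟩
  · intro s hs
    have h2 := a10_hasSum s hs
    rw [hΛs s hs, ← ε.hasSum_iff]
    refine h2.congr_fun fun J => ?_
    show psiT (Ideal.relNorm O (ε J)) * (Ideal.absNorm (ε J) : ℂ) ^ (-s) = _
    rw [(hε J).1, (hε J).2]
  · rw [h1, pow_one]
    have h3 : e sq3 * R0 = R (e om - 1) * e sq3 := mul_comm _ _
    rw [h3]
    exact hΛ1

end H19T
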