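import Mathlib
import Pool.Agent.Lib.H19T.Defs

open NumberField IsDedekindDomain

namespace H19T

open H55B H35T H55N

/-- Galois theory: if `N` is the fixed field of `H`, and `H' = fixing subgroup of M'`, `H' ≤ H` of prime index
the smallest prime, then every element of `H` maps `M'` to itself. -/
theorem a9b_normal {G : Type} [Group G] [Finite G] (H' H : Subgroup G) (j : ℕ)
    (h1 : Nat.card H' = 3 ^ j) (h2 : Nat.card H = 3 ^ (j + 1)) (hle : H' ≤ H) :
    (H'.subgroupOf H).Normal := by
  have hidx : (H'.subgroupOf H).index = 3 := by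
    have h3 := Subgroup.card_mul_index (H'.subgroupOf H)
    have h4 : Nat.card (H'.subgroupOf H) = Nat.card H' :=
      Nat.card_congr (Subgroup.subgroupOfEquivOfLe hle).toEquiv
    rw [h4, h1, h2, pow_succ] at h3
    exact Nat.eq_of_mul_eq_mul_left (by positivity) h3
  apply Subgroup.normal_of_index_eq_minFac_card
  rw [hidx, h2, Nat.pow_minFac (by omega)]
  exact (Nat.prime_three.minFac_eq).symm

/-- Chunk A9b (M), the tower. Adapt H55N/T1.lean (Sylow.exists_subgroup_card_pow_succ with p = 3): H' = the fixing subgroup of the image M' of K' in L, H containing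
H' with index 3, M = fixed field of H, N = M.comap f in K'. New: K'/N is Galois. H' is normal in H (index 3 = the smallest prime divisor of the order of the 3-group H:
Subgroup.normal_of_index_eq_minFac_card or Sylow / IsPGroup.normal_of_index_eq; H' as a subgroup of H: subgroupOf). So every element of H maps M' to itself
(for h in H, x in M', h' in H': h' (h x) = h ((h^-1 h' h) x) = h x), hence H -> Aut(M'/M), i.e. every y in K' has all its
conjugates over N in K' : alternatively IsGalois N K' from the cardinality: the group Aut(K'/N) has at least |H/H'| = 3 = [K':N] elements (IsGalois.of_card_aut_eq_finrank). -/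
theorem exists_sub3 (K' : Type) [Field K'] [NumberField K'] [Algebra F K'] (hS : Sub3 K')
    (hn : Module.finrank F K' ≠ 1) :
    ∃ (K : Type) (_ : Field K) (_ : NumberField K) (_ : Algebra F K) (_ : Algebra K K')
      (_ : IsScalarTower F K K'), Sub3 K ∧ Module.finrank K K' = 3 ∧ IsGalois K K' := by
  obtain ⟨L, _, _, _, _, _, ⟨hG, k, hk⟩, hU⟩ := hS
  have : FiniteDimensional F L := Module.finite_of_finrank_pos (by rw [hk]; positivity)
  let f : K' →ₐ[F] L := IsScalarTower.toAlgHom F K' L
  let M' : IntermediateField F L := f.fieldRange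
  let E : K' ≃ₐ[F] M' := AlgEquiv.ofInjectiveField f
  have h1 : Module.finrank F M' = Module.finrank F K' := E.toLinearEquiv.finrank_eq.symm
  have h2 : Module.finrank F M' * Module.finrank M' L = 3 ^ k := by
    rw [Module.finrank_mul_finrank, hk]
  obtain ⟨j, hj, hj2⟩ := (Nat.dvd_prime_pow Nat.prime_three).1
    (Dvd.intro_left _ h2 : Module.finrank M' L ∣ 3 ^ k)
  have h3 : Nat.card M'.fixingSubgroup = 3 ^ j := by
    rw [IsGalois.card_fixingSubgroup_eq_finrank, hj2]
  have hcardG : Nat.card (L ≃ₐ[F] L) = 3 ^ k := by
    rw [IsGalois.card_aut_eq_finrank, hk]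
  have hjk : j < k := by
    rcases lt_or_eq_of_le hj with h | h
    · exact h
    · exfalso
      apply hn
      rw [hj2, h, h1] at h2
      have h4 : (0 : ℕ) < 3 ^ k := by positivity
      exact Nat.eq_of_mul_eq_mul_right h4 (by rw [one_mul]; exact h2)
  have := Fact.mk Nat.prime_three
  obtain ⟨H, hH, hle⟩ := Sylow.exists_subgroup_card_pow_succ (p := 3) (G := L ≃ₐ[F] L) (n := j)
    (by rw [hcardG]; exact pow_dvd_pow 3 hjk) h3
  let M : IntermediateField F L := IntermediateField.fixedField H
  have hM : M ≤ M' := by
    intro x hx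
    rw [← IsGalois.fixedField_fixingSubgroup M', IntermediateField.mem_fixedField_iff]
    intro σ hσ
    exact (IntermediateField.mem_fixedField_iff H x).1 hx σ (hle hσ)
  let N : IntermediateField F K' := M.comap f
  have hN : N.map f = M := by
    ext x
    constructor
    · rintro ⟨y, hy, rfl⟩
      exact hy
    · intro hx
      obtain ⟨y, hy⟩ := hM hx
      have hy' : f y = x := hy
      refine ⟨y, ?_, hy⟩
      show f y ∈ M
      rw [hy']
      exact hx
  have h5 : Module.finrank F N = Module.finrank F M := by
    rw [← hN]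
    exact (IntermediateField.equivMap N f).toLinearEquiv.finrank_eq
  have h6 : Module.finrank M L = 3 ^ (j + 1) := by
    rw [IntermediateField.finrank_fixedField_eq_card, hH]
  have h7 : Module.finrank F M * Module.finrank M L = 3 ^ k := by
    rw [Module.finrank_mul_finrank, hk]
  have h8 : Module.finrank F N * Module.finrank N K' = Module.finrank F K' :=
    Module.finrank_mul_finrank F N K'
  have h9 : Module.finrank N K' = 3 := by
    rw [h5] at h8
    rw [h1, hj2, ← h8] at h2
    rw [h6] at h7
    have h10 : 0 < Module.finrank F M := Module.finrank_pos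
    have h11 : Module.finrank F M * 3 ^ j * Module.finrank N K' =
        Module.finrank F M * 3 ^ j * 3 := by
      calc _ = Module.finrank F M * Module.finrank N K' * 3 ^ j := by ring
        _ = 3 ^ k := h2
        _ = Module.finrank F M * 3 ^ (j + 1) := h7.symm
        _ = _ := by rw [pow_succ]; ring
    exact Nat.eq_of_mul_eq_mul_left (by positivity) h11
  -- elements of `H` map the image of `K'` to itself
  have hnorm := a9b_normal M'.fixingSubgroup H j h3 hH hle
  have hstab : ∀ σ ∈ H, ∀ y : K', ∃ z : K', f z = σ (f y) := by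
    intro σ hσ y
    have hmem : σ (f y) ∈ M' := by
      rw [← IsGalois.fixedField_fixingSubgroup M', IntermediateField.mem_fixedField_iff]
      intro τ hτ
      have h12 : (⟨τ, hle hτ⟩ : H) ∈ M'.fixingSubgroup.subgroupOf H := by
        rw [Subgroup.mem_subgroupOf]
        exact hτ
      have h13 := hnorm.conj_mem _ h12 (⟨σ, hσ⟩ : H)⁻¹
      rw [Subgroup.mem_subgroupOf] at h13
      have h14 : σ⁻¹ * τ * σ ∈ M'.fixingSubgroup := by
        simpa using h13
      have h15 : (σ⁻¹ * τ * σ) (f y) = f y :=
        (IntermediateField.mem_fixingSubgroup_iff M' _).1 h14 (f y) ⟨y, rfl⟩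
      have h16 : τ (σ (f y)) = σ ((σ⁻¹ * τ * σ) (f y)) := by
        rw [← AlgEquiv.mul_apply, ← AlgEquiv.mul_apply]
        congr 1
        group
      rw [h16, h15]
    obtain ⟨z, hz⟩ := hmem
    exact ⟨z, hz⟩
  have hfinj : Function.Injective f := f.injective
  have hfix : ∀ σ ∈ H, ∀ n : N, σ (f (n : K')) = f (n : K') := by
    intro σ hσ n
    have h17 : f (n : K') ∈ M := n.2
    exact (IntermediateField.mem_fixedField_iff H _).1 h17 σ hσ
  let τ : (σ : L ≃ₐ[F] L) → σ ∈ H → (K' →ₐ[N] K') := fun σ hσ =>
    { toFun := fun y => (hstab σ hσ y).choose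
      map_one' := hfinj (by rw [(hstab σ hσ 1).choose_spec, map_one, map_one])
      map_mul' := fun x y => hfinj (by
        rw [(hstab σ hσ (x * y)).choose_spec, map_mul, map_mul, map_mul,
          (hstab σ hσ x).choose_spec, (hstab σ hσ y).choose_spec])
      map_zero' := hfinj (by rw [(hstab σ hσ 0).choose_spec, map_zero, map_zero])
      map_add' := fun x y => hfinj (by
        rw [(hstab σ hσ (x + y)).choose_spec, map_add, map_add, map_add,
          (hstab σ hσ x).choose_spec, (hstab σ hσ y).choose_spec])
      commutes' := fun n => hfinj (by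
        rw [(hstab σ hσ (algebraMap N K' n)).choose_spec]
        exact hfix σ hσ n) }
  have hτ : ∀ σ hσ y, f (τ σ hσ y) = σ (f y) := fun σ hσ y => (hstab σ hσ y).choose_spec
  have hGal : IsGalois N K' := by
    apply IsGalois.of_fixedField_eq_bot
    rw [eq_bot_iff]
    intro y hy
    have hyN : y ∈ N := by
      show f y ∈ M
      rw [IntermediateField.mem_fixedField_iff]
      intro σ hσ
      let τ' : K' ≃ₐ[N] K' := AlgEquiv.ofBijective (τ σ hσ) (Algebra.IsAlgebraic.algHom_bijective _)
      have h18 : τ' y = y := (IntermediateField.mem_fixedField_iff _ _).1 hy τ' (Subgroup.mem_top _)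
      have h19 := hτ σ hσ y
      have h20 : τ σ hσ y = y := h18
      rw [h20] at h19
      exact h19.symm
    exact IntermediateField.mem_bot.2 ⟨⟨y, hyN⟩, rfl⟩
  refine ⟨N, inferInstance, inferInstance, inferInstance, inferInstance, inferInstance,
    ⟨L, inferInstance, inferInstance, inferInstance, inferInstance, inferInstance, ⟨hG, k, hk⟩, hU⟩,
    h9, hGal⟩

end H19T
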