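import Mathlib
import Pool.Agent.Lib.H19T.A1
import Pool.Agent.Lib.H55N.TW2

open NumberField IsDedekindDomain

namespace H19T

open H55B H35T H55N

/-- Chunk A11 (S), the trivial character modulo f. Copy of one_sum in H55N/TW2.lean for PsiT. -/
theorem one_sumT (K : Type) [Field K] [NumberField K] [Algebra F K] (f : Ideal (𝓞 K)) (hf : f ≠ ⊥) :
    ∃ S : Finset (HeightOneSpectrum (𝓞 K)), (∀ w, w ∈ S ↔ f ≤ w.asIdeal) ∧
      ∀ s : ℂ, 3 / 2 < s.re →
        HasSum (tm (PsiT K * oneI f : Ideal (𝓞 K) →*₀ ℂ) s)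
          ((∏ w ∈ S, (1 - tm (PsiT K) s w.asIdeal)) * ∑' a, tm (PsiT K) s a) := by
  classical
  have hfin : {w : HeightOneSpectrum (𝓞 K) | w.asIdeal ∣ f}.Finite := Ideal.finite_factors hf
  have hS : ∀ w, w ∈ hfin.toFinset ↔ f ≤ w.asIdeal := by
    intro w
    rw [Set.Finite.mem_toFinset]
    exact Ideal.dvd_iff_le
  refine ⟨hfin.toFinset, hS, fun s hs => ?_⟩
  set S := hfin.toFinset with hSd
  have hk : Summable fun a => ‖tmH (PsiT K) s a‖ := tm_summable (PsiT K) PsiT_norm_le s hs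
  have h1 := smooth_sum (tmH (PsiT K) s) hk (fun w : S => w.1.asIdeal) (fun w => w.1.isPrime)
    (fun w => w.1.ne_bot) (fun w w' h => Subtype.ext (HeightOneSpectrum.ext h)) (fun _ => 1)
  have h2 : (∏ w : S, (1 - 1 * (tmH (PsiT K) s) w.1.asIdeal)) =
      ∏ w ∈ S, (1 - tm (PsiT K) s w.asIdeal) := by
    rw [← Finset.prod_coe_sort S]
    refine Finset.prod_congr rfl fun w _ => ?_
    rw [one_mul]
    rfl
  rw [h2] at h1
  refine h1.congr_fun fun a => ?_
  have h3 : tm (PsiT K * oneI f : Ideal (𝓞 K) →*₀ ℂ) s a = tmH (PsiT K) s a * oneI f a := by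
    show (PsiT K a * oneI f a) * (Ideal.absNorm a : ℂ) ^ (-s) =
      (PsiT K a * (Ideal.absNorm a : ℂ) ^ (-s)) * oneI f a
    ring
  rw [h3]
  by_cases ha : a = ⊥
  · rw [ha]
    have h4 : tmH (PsiT K) s (⊥ : Ideal (𝓞 K)) = 0 := (tmH (PsiT K) s).map_zero
    rw [h4, zero_mul, zero_mul]
  · congr 1
    have h5 : oneI f a = if a ≠ ⊥ ∧ IsCoprime a f then 1 else 0 := rfl
    rw [h5]
    by_cases hc : IsCoprime a f
    · rw [if_pos ⟨ha, hc⟩]
      symm
      refine Finset.prod_eq_one fun w _ => ?_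
      rw [if_neg ((TW2_coprime a f ha S hS).1 hc w.1 w.2)]
    · rw [if_neg (fun h => hc h.2)]
      rw [TW2_coprime a f ha S hS] at hc
      push Not at hc
      obtain ⟨w, hw, haw⟩ := hc
      symm
      refine Finset.prod_eq_zero (Finset.mem_univ (⟨w, hw⟩ : S)) ?_
      rw [if_pos haw, sub_self]

end H19T
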