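import Mathlib
import Pool.Agent.Lib.H19T.A1
import Pool.Agent.Lib.H35T.I4

open NumberField IsDedekindDomain

namespace H19T

open H55B H35T H55N

/-! Chunk A12 (S/M): 3-adic units. Adapt H55N/TW3.lean. Efac_unitT: PsiT w = conj(fe v)^f with f = inertiaDeg = 3^j odd, absNorm w = (absNorm v)^f,
absNorm v = fe v conj(fe v) (fe_mul_conj), so 1 - PsiT(w)/N(w) = 1 - (fe v)^(-f); see EF_unit in H35T.I4 (fe v = e y, lam | y + 1, so (fe v)^f - 1 = -2 modulo lam: unit).
Unit3_add: x a unit, y in the maximal ideal of every valuation above 3. cube_root: zeta^3 = 1 gives zeta - 1 in all these maximal ideals ((zeta - 1)^3 = 3 times an integral element,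
or H35T.root_small with k = 1). P_neT: as P_ne with PsiT_norm, PsiT_ne; chi c <> 0 has chi(c)^3 = 1, so |chi c| = 1. factorT: the factor at a
smoothing prime: p * tm (PsiT chi) 1 c = PsiT(c) chi(c); if chi c = 0 the value is 1; if z = chi c, z^3 = 1: 1 - PsiT(c) z = (1 - PsiT c) + PsiT(c) (1 - z), PsiT(c) integral above 3
(it is an algebraic integer: PsiT K c = e(eta _) * conj (e _); H35T val_e_le or ValuationSubring arguments). -/

/-- z lies in the maximal ideals above 3. -/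
def Max3 (z : ℂ) : Prop := ∀ A : ValuationSubring ℂ, A.valuation 3 < 1 → A.valuation z < 1

theorem Efac_unitT (K : Type) [Field K] [NumberField K] [Algebra F K]
    (w : HeightOneSpectrum (𝓞 K)) (v : HeightOneSpectrum O) (hv : v.asIdeal = w.asIdeal.under O)
    (hg : H35T.Good v) (hf : ∃ j : ℕ, w.asIdeal.inertiaDeg O = 3 ^ j) :
    Unit3 (1 - tm (PsiT K) 1 w.asIdeal) := by
  obtain ⟨y, hy, hd⟩ := i4_fe hg
  have hodd : Odd (w.asIdeal.inertiaDeg O) := by
    obtain ⟨j, hj⟩ := hf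
    rw [hj]
    exact Odd.pow (by decide)
  have hx1 : Unit3 (fe v) := fun A hA => by
    rw [hy]
    exact val_e_unit A hA _ (i4_norm (Or.inr hd))
  have ha : Unit3 (fe v ^ (w.asIdeal.inertiaDeg O)) := hx1.pow _
  have ha1 : Unit3 (fe v ^ (w.asIdeal.inertiaDeg O) - 1) := by
    intro A hA
    have h1 : (om - 1) ∣ y ^ (w.asIdeal.inertiaDeg O) + 1 := by
      refine dvd_trans hd ?_
      have := Odd.add_dvd_pow_add_pow y 1 hodd
      rwa [one_pow] at this
    have h2 : (om - 1) ∣ (y ^ (w.asIdeal.inertiaDeg O) - 1) - 1 := by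
      have h3 : (y ^ (w.asIdeal.inertiaDeg O) - 1) - 1 = (y ^ (w.asIdeal.inertiaDeg O) + 1) - 3 := by
        ring
      rw [h3]
      exact dvd_sub h1 i4_three
    have h4 := val_e_unit A hA _ (i4_norm (Or.inl h2))
    rw [map_sub, map_one, map_pow, ← hy] at h4
    exact h4
  have hx0 := hx1.ne_zero
  have hcx0 := hx1.conj.ne_zero
  have h3 : (3 : O) ∉ v.asIdeal := hg.2.1
  have h2 : (2 : O) ∉ v.asIdeal := hg.1
  have key : 1 - tm (PsiT K) 1 w.asIdeal = (fe v ^ (w.asIdeal.inertiaDeg O) - 1) *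
      (fe v ^ (w.asIdeal.inertiaDeg O))⁻¹ := by
    unfold tm
    rw [PsiT_prime w v hv, psiT_prime v h3, absNorm_inertia K w v hv, Nat.cast_pow,
      ← fe_mul_conj v h3 h2, Complex.cpow_neg_one, mul_pow]
    field_simp
  rw [key]
  exact ha1.mul ha.inv

theorem Unit3_add {x y : ℂ} (hx : Unit3 x) (hy : Max3 y) : Unit3 (x + y) := by
  intro A hA
  rw [← hx A hA]
  apply Valuation.map_add_eq_of_lt_left
  rw [hx A hA]
  exact hy A hA

theorem Max3_root {ζ : ℂ} (h : ζ ^ 3 = 1) : Max3 (ζ - 1) := fun A hA =>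
  (root_small A hA ζ 1 (by rw [pow_one]; exact h)).1

theorem Max3_mul {x y : ℂ} (hx : Max3 x) (hy : Int3 y) : Max3 (x * y) := fun A hA => by
  rw [map_mul]
  exact mul_lt_one_of_lt_of_le (hx A hA) (hy A hA)

theorem Max3_sum {ι : Type} (S : Finset ι) (x : ι → ℂ) (hx : ∀ i ∈ S, Max3 (x i)) :
    Max3 (∑ i ∈ S, x i) := by
  classical
  induction S using Finset.induction_on with
  | empty =>
    rw [Finset.sum_empty]
    intro A _
    rw [map_zero]
    exact zero_lt_one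
  | insert a S ha ih =>
    rw [Finset.sum_insert ha]
    intro A hA
    exact lt_of_le_of_lt (Valuation.map_add _ _ _) (max_lt (hx a (Finset.mem_insert_self a S) A hA)
      (ih (fun i hi => hx i (Finset.mem_insert_of_mem hi)) A hA))

theorem Int3_mul {x y : ℂ} (hx : Int3 x) (hy : Int3 y) : Int3 (x * y) := fun A hA => by
  rw [map_mul]
  exact mul_le_one' (hx A hA) (hy A hA)

theorem Int3_nat (n : ℕ) : Int3 (n : ℂ) := fun A _ => by
  rw [ValuationSubring.valuation_le_one_iff]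
  exact natCast_mem A n

theorem Int3_of_unit {x : ℂ} (hx : Unit3 x) : Int3 x := fun A hA => (hx A hA).le

theorem a12_int (x : O) : Int3 (e x) := fun A hA => by
  exact val_e_le A x

theorem Int3_PsiT {K : Type} [Field K] [NumberField K] [Algebra F K] (a : Ideal (𝓞 K)) :
    Int3 (PsiT K a) := by
  rw [PsiT_eq]
  refine Int3_mul (a12_int _) ?_
  change Int3 ((starRingEnd ℂ) (e (pg (Ideal.relNorm O a))))
  rw [← e_cj]
  exact a12_int _

theorem P_neT {K : Type} [Field K] [NumberField K] [Algebra F K] (f : Ideal (𝓞 K))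
    (χ : Ideal (𝓞 K) →*₀ ℂ) (hχ : CChr f χ) (c : Ideal (𝓞 K)) (p : ℕ) (hp : p.Prime)
    (hc : Ideal.absNorm c = p) (s : ℂ) (hs : s.re < 3 / 2) :
    1 - (p : ℂ) * tm (PsiT K * χ : Ideal (𝓞 K) →*₀ ℂ) s c ≠ 0 := by
  have hp0 : (0 : ℝ) < p := by exact_mod_cast hp.pos
  have hp1 : (1 : ℝ) < p := by exact_mod_cast hp.one_lt
  have hc0 : c ≠ ⊥ := by
    intro h
    rw [h, Ideal.absNorm_bot] at hc
    exact hp.ne_zero hc.symm
  intro h
  have h1 : (p : ℂ) * tm (PsiT K * χ : Ideal (𝓞 K) →*₀ ℂ) s c = 1 := by linear_combination -h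
  have h2 : tm (PsiT K * χ : Ideal (𝓞 K) →*₀ ℂ) s c = PsiT K c * χ c * (p : ℂ) ^ (-s) := by
    unfold tm
    rw [hc]
    rfl
  rw [h2] at h1
  have h3 : PsiT K c ≠ 0 := by
    intro h0
    rw [h0] at h1
    simp at h1
  have h4 : χ c ≠ 0 := by
    intro h0
    rw [h0] at h1
    simp at h1
  have h5 : ‖χ c‖ = 1 := by
    have hcop : IsCoprime c f := by
      by_contra hn
      exact h4 (hχ.zero c hn)
    have h := hχ.val c hc0 hcop
    have h' := congrArg norm h
    rw [norm_pow, NormOneClass.norm_one] at h'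
    exact (pow_eq_one_iff_of_nonneg (norm_nonneg _) (by norm_num)).1 h'
  have h6 : ‖PsiT K c‖ ^ 2 = p := by
    rw [PsiT_norm c hc0 ((PsiT_ne c hc0).1 h3), hc]
  have h7 : ‖PsiT K c‖ = (p : ℝ) ^ (1 / 2 : ℝ) := by
    rw [← Real.sqrt_eq_rpow, ← h6, Real.sqrt_sq (norm_nonneg _)]
  have h8 := congrArg norm h1
  rw [norm_mul, norm_mul, norm_mul, h5, h7, NormOneClass.norm_one, Complex.norm_natCast,
    Complex.norm_natCast_cpow_of_pos hp.pos, mul_one, Complex.neg_re] at h8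
  have h9 : (p : ℝ) * ((p : ℝ) ^ (1 / 2 : ℝ) * (p : ℝ) ^ (-s.re)) = (p : ℝ) ^ (3 / 2 - s.re) := by
    have h11 : (3 / 2 - s.re) = 1 + (1 / 2 + -s.re) := by ring
    rw [h11, Real.rpow_add hp0, Real.rpow_add hp0, Real.rpow_one]
  rw [h9] at h8
  have h10 : 1 < (p : ℝ) ^ (3 / 2 - s.re) := Real.one_lt_rpow hp1 (by linarith)
  rw [h8] at h10
  exact lt_irrefl _ h10

theorem factorT {K : Type} [Field K] [NumberField K] [Algebra F K] (χ : Ideal (𝓞 K) →*₀ ℂ)
    (c : Ideal (𝓞 K)) (p : ℕ) (hp : p.Prime) (hc : Ideal.absNorm c = p)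
    (hu : Unit3 (1 - PsiT K c)) (hχ : χ c ^ 3 = 1 ∨ χ c = 0) :
    Unit3 (1 - (p : ℂ) * tm (PsiT K * χ : Ideal (𝓞 K) →*₀ ℂ) 1 c) := by
  have hp0 : (p : ℂ) ≠ 0 := by exact_mod_cast hp.ne_zero
  have h2 : (p : ℂ) * tm (PsiT K * χ : Ideal (𝓞 K) →*₀ ℂ) 1 c = PsiT K c * χ c := by
    unfold tm
    rw [hc, Complex.cpow_neg_one]
    change (p : ℂ) * (PsiT K c * χ c * (p : ℂ)⁻¹) = _
    field_simp
  rw [h2]
  rcases hχ with h | h
  · have h3 : 1 - PsiT K c * χ c = (1 - PsiT K c) + (χ c - 1) * (-PsiT K c) := by ring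
    rw [h3]
    refine Unit3_add hu (Max3_mul (Max3_root h) fun A hA => ?_)
    rw [Valuation.map_neg]
    exact Int3_PsiT c A hA
  · rw [h, mul_zero, sub_zero]
    exact Unit3.one

end H19T
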