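import Mathlib
import Pool.Agent.Lib.H19T.Defs
import Pool.Agent.Lib.H55N.H9

open NumberField IsDedekindDomain

namespace H19T

open H55B H35T H55N

theorem ta5_cube {z : ℂ} (h : 1 + z + z * z = 0) : z ^ 3 = 1 := by
  linear_combination (z - 1) * h

theorem ta5_root {z : ℂ} (h3 : z ^ 3 = 1) (h1 : z ≠ 1) : 1 + z + z * z = 0 := by
  have h4 : (z - 1) * (1 + z + z * z) = 0 := by linear_combination h3
  rcases mul_eq_zero.1 h4 with h5 | h5
  · exact absurd (by linear_combination h5) h1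
  · exact h5

theorem ta5_ps (a z : ℂ) (hz : 1 + z + z * z = 0) :
    ((1 - PowerSeries.C (a ^ 3) * PowerSeries.X ^ 3)⁻¹ : PowerSeries ℂ) =
    (1 - PowerSeries.C a * PowerSeries.X)⁻¹ * ((1 - PowerSeries.C (a * z) * PowerSeries.X)⁻¹ *
      (1 - PowerSeries.C (a * (z * z)) * PowerSeries.X)⁻¹) := by
  symm
  apply I2_inv_unique
  · simp
  · have hz' : (1 + PowerSeries.C z + PowerSeries.C z * PowerSeries.C z : PowerSeries ℂ) = 0 := by
      have h := congrArg (PowerSeries.C (R := ℂ)) hz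
      rw [map_add, map_add, map_mul, map_one, map_zero] at h
      exact h
    have h1 : (1 - PowerSeries.C (a ^ 3) * PowerSeries.X ^ 3 : PowerSeries ℂ) =
        (1 - PowerSeries.C a * PowerSeries.X) * ((1 - PowerSeries.C (a * z) * PowerSeries.X) *
          (1 - PowerSeries.C (a * (z * z)) * PowerSeries.X)) := by
      rw [map_pow, map_mul, map_mul, map_mul]
      linear_combination ((1 - PowerSeries.C a * PowerSeries.X) *
        (PowerSeries.C a * PowerSeries.X) - (1 - PowerSeries.C a * PowerSeries.X) *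
        (PowerSeries.C a * PowerSeries.X) ^ 2 * (PowerSeries.C z - 1)) * hz'
    have h2 : ∀ c : ℂ, (1 - PowerSeries.C c * PowerSeries.X : PowerSeries ℂ) *
        (1 - PowerSeries.C c * PowerSeries.X)⁻¹ = 1 := fun c =>
      PowerSeries.mul_inv_cancel _ (by simp)
    rw [h1]
    calc (1 - PowerSeries.C a * PowerSeries.X) * ((1 - PowerSeries.C (a * z) * PowerSeries.X) *
          (1 - PowerSeries.C (a * (z * z)) * PowerSeries.X)) *
        ((1 - PowerSeries.C a * PowerSeries.X)⁻¹ * ((1 - PowerSeries.C (a * z) * PowerSeries.X)⁻¹ *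
          (1 - PowerSeries.C (a * (z * z)) * PowerSeries.X)⁻¹)) =
        ((1 - PowerSeries.C a * PowerSeries.X) * (1 - PowerSeries.C a * PowerSeries.X)⁻¹) *
        (((1 - PowerSeries.C (a * z) * PowerSeries.X) *
          (1 - PowerSeries.C (a * z) * PowerSeries.X)⁻¹) *
        ((1 - PowerSeries.C (a * (z * z)) * PowerSeries.X) *
          (1 - PowerSeries.C (a * (z * z)) * PowerSeries.X)⁻¹)) := by ring
      _ = 1 := by rw [h2, h2, h2, one_mul, one_mul]

theorem ta5_cu (q : ℕ) (a z : ℂ) (hz : 1 + z + z * z = 0) :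
    ArithmeticFunction.ofPowerSeries (q ^ 3)
      ((1 - PowerSeries.C (a ^ 3) * PowerSeries.X)⁻¹ : PowerSeries ℂ) =
    ArithmeticFunction.ofPowerSeries q ((1 - PowerSeries.C a * PowerSeries.X)⁻¹ : PowerSeries ℂ) *
    (ArithmeticFunction.ofPowerSeries q
      ((1 - PowerSeries.C (a * z) * PowerSeries.X)⁻¹ : PowerSeries ℂ) *
    ArithmeticFunction.ofPowerSeries q
      ((1 - PowerSeries.C (a * (z * z)) * PowerSeries.X)⁻¹ : PowerSeries ℂ)) := by
  rw [ArithmeticFunction.ofPowerSeries_pow q three_ne_zero, I2_subst_inv three_ne_zero _ (by simp),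
    I2_subst_lin three_ne_zero, ← map_mul, ← map_mul, ta5_ps a z hz]

section

variable (K K' : Type) [Field K] [NumberField K] [Algebra F K] [Field K'] [NumberField K']
    [Algebra F K'] [Algebra K K'] [IsScalarTower F K K']

theorem ta5_Psi (W : Ideal (𝓞 K')) : PsiT K' W = PsiT K (Ideal.relNorm (𝓞 K) W) := by
  show psiT (Ideal.relNorm O W) = psiT (Ideal.relNorm O (Ideal.relNorm (𝓞 K) W))
  rw [Ideal.relNorm_relNorm]

theorem ta5_loc (χ : Ideal (𝓞 K) →*₀ ℂ) (hχ : SplitC K K' χ) (w : HeightOneSpectrum (𝓞 K)) :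
    ∃ A : Finset (HeightOneSpectrum (𝓞 K')), (∀ W, W ∈ A ↔ W.asIdeal.under (𝓞 K) = w.asIdeal) ∧
      ∏ W ∈ A, H9_EF (PsiT K') W = H9_EF (PsiT K) w *
        (H9_EF (PsiT K * χ : Ideal (𝓞 K) →*₀ ℂ) w *
          H9_EF (PsiT K * (χ * χ) : Ideal (𝓞 K) →*₀ ℂ) w) := by
  classical
  have hmul : (PsiT K * χ : Ideal (𝓞 K) →*₀ ℂ) w.asIdeal = PsiT K w.asIdeal * χ w.asIdeal := rfl
  have hmul2 : (PsiT K * (χ * χ) : Ideal (𝓞 K) →*₀ ℂ) w.asIdeal =
      PsiT K w.asIdeal * (χ w.asIdeal * χ w.asIdeal) := rfl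
  rcases hχ w with ⟨h1, W₁, W₂, W₃, hne, hne', hne'', hset, hn1, hn2, hn3⟩ |
    ⟨h1, h1', W, hset, hn⟩ | ⟨h1, W, hset, hn⟩
  · refine ⟨{W₁, W₂, W₃}, fun W => ?_, ?_⟩
    · have h2 := Set.ext_iff.1 hset W
      rw [Finset.mem_insert, Finset.mem_insert, Finset.mem_singleton]
      simpa using h2.symm
    · rw [Finset.prod_insert (by
        rw [Finset.mem_insert, Finset.mem_singleton, not_or]
        exact ⟨hne, hne'⟩), Finset.prod_pair hne'']
      unfold H9_EF
      rw [ta5_Psi K K', ta5_Psi K K', ta5_Psi K K', H9_norm K K', H9_norm K K', H9_norm K K',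
        hn1, hn2, hn3, hmul, hmul2, h1]
      simp only [mul_one]
  · refine ⟨{W}, fun W' => ?_, ?_⟩
    · have h2 := Set.ext_iff.1 hset W'
      rw [Finset.mem_singleton]
      simpa using h2.symm
    · rw [Finset.prod_singleton]
      unfold H9_EF
      rw [ta5_Psi K K', H9_norm K K', hn, hmul, hmul2, map_pow, map_pow]
      exact ta5_cu _ _ _ (ta5_root h1' h1)
  · refine ⟨{W}, fun W' => ?_, ?_⟩
    · have h2 := Set.ext_iff.1 hset W'
      rw [Finset.mem_singleton]
      simpa using h2.symm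
    · rw [Finset.prod_singleton]
      unfold H9_EF
      rw [ta5_Psi K K', H9_norm K K', hn, hmul, hmul2, h1]
      simp only [mul_zero, map_zero, zero_mul, sub_zero]
      have h2 : ((1 : PowerSeries ℂ)⁻¹) = 1 := by simp
      rw [h2, map_one, mul_one, mul_one]

end

/-- Chunk A5 (M), the cubic step for the Euler products. Adapt H55N/H9.lean (H9_EF, H9_norm are reusable; PsiT K' W = PsiT K (relNorm (𝓞 K) W) by
Ideal.relNorm_relNorm). For a prime w of K, a = PsiT K w, z = chi w, q = absNorm w. split: three factors 1/(1 - aX) at q, z = 1. inert: 1/(1 - a^3 X) at q^3,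
= 1/(1 - a^3 X^3) = 1/(1-aX) 1/(1-azX) 1/(1-az^2 X) at q, because z is a primitive cube root of unity (z^2 + z + 1 = 0)
(ArithmeticFunction.ofPowerSeries_pow, I2_subst_inv, I2_subst_lin as in H9_sq). ramified: z = 0, 1/(1 - aX). Then the same argument with
finite sets of primes (three products instead of two; I2_mul_congr twice). -/
theorem AI_stepT (K K' : Type) [Field K] [NumberField K] [Algebra F K] [Field K'] [NumberField K']
    [Algebra F K'] [Algebra K K'] [IsScalarTower F K K'] (χ : Ideal (𝓞 K) →*₀ ℂ)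
    (hχ : SplitC K K' χ) :
    AI (PsiT K') = AI (PsiT K) * (AI (PsiT K * χ : Ideal (𝓞 K) →*₀ ℂ) *
      AI (PsiT K * (χ * χ) : Ideal (𝓞 K) →*₀ ℂ)) := by
  classical
  choose A hA hprod using ta5_loc K K' χ hχ
  ext n
  have e1 : ∀ᶠ S : Finset (HeightOneSpectrum (𝓞 K)) in Filter.atTop,
      (∏ W ∈ S.biUnion A, H9_EF (PsiT K') W) n = AI (PsiT K') n := by
    have h1 := AI_euler (PsiT K') n
    have h2 : Filter.Tendsto (fun S : Finset (HeightOneSpectrum (𝓞 K)) => S.biUnion A)
        Filter.atTop Filter.atTop := by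
      rw [Filter.tendsto_atTop]
      intro T
      filter_upwards [Filter.eventually_ge_atTop (T.image (HeightOneSpectrum.under (𝓞 K)))] with S hS
      intro W hW
      rw [Finset.mem_biUnion]
      refine ⟨HeightOneSpectrum.under (𝓞 K) W, hS (Finset.mem_image_of_mem _ hW), ?_⟩
      rw [hA]
      rfl
    exact h2.eventually h1
  have e2 : ∀ h : Ideal (𝓞 K) →*₀ ℂ, ∀ᶠ S : Finset (HeightOneSpectrum (𝓞 K)) in Filter.atTop,
      ∀ m ∈ Finset.range (n + 1), (∏ w ∈ S, H9_EF h w) m = AI h m := by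
    intro h
    rw [Filter.eventually_all_finset]
    intro m _
    exact AI_euler h m
  obtain ⟨S, h1, h2, h3, h4⟩ := (e1.and ((e2 (PsiT K)).and
    ((e2 (PsiT K * χ : Ideal (𝓞 K) →*₀ ℂ)).and
    (e2 (PsiT K * (χ * χ) : Ideal (𝓞 K) →*₀ ℂ))))).exists
  rw [← h1, Finset.prod_biUnion, Finset.prod_congr rfl fun w _ => hprod w,
    Finset.prod_mul_distrib, Finset.prod_mul_distrib]
  · exact I2_mul_congr (fun m hm => h2 m (Finset.mem_range.2 (by omega)))
      (I2_mul_congr (fun m hm => h3 m (Finset.mem_range.2 (by omega)))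
        (fun m hm => h4 m (Finset.mem_range.2 (by omega)))) n le_rfl
  · intro w _ w' _ hne
    rw [Function.onFun, Finset.disjoint_left]
    intro W hW hW'
    rw [hA] at hW hW'
    exact hne (HeightOneSpectrum.ext (hW.symm.trans hW'))

end H19T
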