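import Mathlib
import Pool.Agent.Lib.H19T.A1
import Pool.Agent.Lib.H19T.A5
import Pool.Agent.Lib.H35T.I4
import Pool.Agent.Lib.H55N.H3
import Pool.Agent.Lib.H55N.H6

open NumberField IsDedekindDomain

namespace H19T

open H55B H35T H55N

theorem CChr.norm_le {K : Type} [Field K] [NumberField K] [Algebra F K] {f : Ideal (𝓞 K)}
    {χ : Ideal (𝓞 K) →*₀ ℂ} (h : CChr f χ) (a : Ideal (𝓞 K)) : ‖χ a‖ ≤ 1 := by
  by_cases ha : a = ⊥
  · have : χ ⊥ = 0 := χ.map_zero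
    rw [ha, this, norm_zero]
    exact zero_le_one
  · by_cases hc : IsCoprime a f
    · exact (Complex.norm_eq_one_of_pow_eq_one (h.val a ha hc) three_ne_zero).le
    · rw [h.zero a hc, norm_zero]
      exact zero_le_one

/-- The square of a cubic character. -/
theorem CChr.sq {K : Type} [Field K] [NumberField K] [Algebra F K] {f : Ideal (𝓞 K)}
    {χ : Ideal (𝓞 K) →*₀ ℂ} (h : CChr f χ) : CChr f (χ * χ) := by
  have hap : ∀ a : Ideal (𝓞 K), (χ * χ) a = χ a * χ a := fun a => rfl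
  refine ⟨h.ne, h.good, ?_, ?_, ?_⟩
  · intro a ha hc
    rw [hap, mul_pow, h.val a ha hc, one_mul]
  · intro a hc
    rw [hap, h.zero a hc, mul_zero]
  · intro x y hx hy hc hxy
    rw [hap, hap, h.per x y hx hy hc hxy]

/-- Chunk A5b (S/M), the cubic step: Lam' = Lam * (Lam_chi * Lam_chi2). Adapt H55N/H10.lean (LV_of_step), with AI_stepT, PsiT_norm_le,
CChr.norm_le (cube 1 or value 0); LSeriesHasSum_mul twice; finrank F K' = 3 finrank F K; Unit3.mul twice. -/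
theorem LVT_of_step (K K' : Type) [Field K] [NumberField K] [Algebra F K] [Field K'] [NumberField K']
    [Algebra F K'] [Algebra K K'] [IsScalarTower F K K'] (h3 : Module.finrank K K' = 3)
    (f : Ideal (𝓞 K)) (χ : Ideal (𝓞 K) →*₀ ℂ) (hf : CChr f χ) (hχ : SplitC K K' χ)
    (h1 : LVT (PsiT K)) (h2 : LVT (PsiT K * χ)) (h4 : LVT (PsiT K * (χ * χ))) :
    LVT (PsiT K') := by
  obtain ⟨Λ₁, ha1, hs1, hu1⟩ := h1
  obtain ⟨Λ₂, ha2, hs2, hu2⟩ := h2
  obtain ⟨Λ₃, ha3, hs3, hu3⟩ := h4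
  have hb : ∀ ψ : Ideal (𝓞 K) →*₀ ℂ, (∀ a, ‖ψ a‖ ≤ 1) → ∀ a : Ideal (𝓞 K),
      ‖(PsiT K * ψ : Ideal (𝓞 K) →*₀ ℂ) a‖ ^ 2 ≤ Ideal.absNorm a := by
    intro ψ hψ a
    refine le_trans ?_ (PsiT_norm_le a)
    have h4 : (PsiT K * ψ : Ideal (𝓞 K) →*₀ ℂ) a = PsiT K a * ψ a := rfl
    rw [h4, norm_mul, mul_pow]
    exact mul_le_of_le_one_right (by positivity) (pow_le_one₀ (norm_nonneg _) (hψ a))
  refine ⟨fun s => Λ₁ s * (Λ₂ s * Λ₃ s), fun s hs => (ha1 s hs).mul ((ha2 s hs).mul (ha3 s hs)),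
    fun s hs => ?_, ?_⟩
  · have hsum := tm_summable (PsiT K') (fun a => PsiT_norm_le a) s hs
    have hL := AI_LSeries (PsiT K') (PsiT K').map_zero s hsum
    have hsum1 := tm_summable (PsiT K) (fun a => PsiT_norm_le a) s hs
    have hL1 := AI_LSeries (PsiT K) (PsiT K).map_zero s hsum1
    have hsum2 := tm_summable (PsiT K * χ : Ideal (𝓞 K) →*₀ ℂ) (hb χ hf.norm_le) s hs
    have hL2 := AI_LSeries (PsiT K * χ : Ideal (𝓞 K) →*₀ ℂ)
      (PsiT K * χ : Ideal (𝓞 K) →*₀ ℂ).map_zero s hsum2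
    have hsum3 := tm_summable (PsiT K * (χ * χ) : Ideal (𝓞 K) →*₀ ℂ) (hb (χ * χ) hf.sq.norm_le) s hs
    have hL3 := AI_LSeries (PsiT K * (χ * χ) : Ideal (𝓞 K) →*₀ ℂ)
      (PsiT K * (χ * χ) : Ideal (𝓞 K) →*₀ ℂ).map_zero s hsum3
    have hL4 := ArithmeticFunction.LSeriesHasSum_mul hL1
      (ArithmeticFunction.LSeriesHasSum_mul hL2 hL3)
    rw [← AI_stepT K K' χ hχ] at hL4
    have h5 : ∑' a, tm (PsiT K') s a = Λ₁ s * (Λ₂ s * Λ₃ s) := by
      rw [hL.unique hL4, (hs1 s hs).tsum_eq, (hs2 s hs).tsum_eq, (hs3 s hs).tsum_eq]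
    show HasSum (tm (PsiT K') s) (Λ₁ s * (Λ₂ s * Λ₃ s))
    rw [← h5]
    exact hsum.of_norm.hasSum
  · have h5 : Module.finrank F K' = Module.finrank F K + (Module.finrank F K +
        Module.finrank F K) := by
      rw [← Module.finrank_mul_finrank F K K', h3]; ring
    rw [h5, pow_add, pow_add, mul_div_mul_comm, mul_div_mul_comm]
    exact hu1.mul (hu2.mul hu3)

end H19T
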