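import Mathlib
import Pool.Agent.Lib.H19T.Defs
import Pool.Agent.Lib.H55N.H12

open NumberField IsDedekindDomain

namespace H19T

open H55B H35T H55N

/-! Chunk A6 (M): the class decomposition modulo 4f. Copy of the last part of H55N/H12.lean (unit_cong, exists_CD) with 4 in place of 3; the lemmas
h12_cong, h12_transv, H12P, h12S, h12_finite, h12_prim are general (any modulus J) and reusable. -/

theorem a6_unit_cong {K : Type} [Field K] [NumberField K] (f b : Ideal (𝓞 K)) (hf : f ≠ ⊥) (hb : b ≠ ⊥) (c₀ : 𝓞 K) (hc : c₀ ∈ b)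
    (hp : ∀ w : HeightOneSpectrum (𝓞 K), Ideal.span {4} * f ≤ w.asIdeal → c₀ ∉ w.asIdeal * b)
    (t : 𝓞 K) (ht : t * c₀ ∈ Ideal.span {4} * f * b) : t ∈ Ideal.span {4} * f := by
  have h3 : (Ideal.span {(4 : 𝓞 K)}) ≠ ⊥ := by
    rw [Ne, Ideal.span_singleton_eq_bot]
    exact OfNat.ofNat_ne_zero 4
  exact h12_cong _ b (mul_ne_zero h3 hf) hb c₀ hc hp t ht

theorem exists_CDT {K : Type} [Field K] [NumberField K] [Algebra F K] (f : Ideal (𝓞 K))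
    (hf : f ≠ ⊥) :
    ∃ (ι : Type) (_ : Fintype ι) (b : ι → Ideal (𝓞 K)) (c₀ : ι → 𝓞 K) (T : ι → Set (𝓞 K)),
      CDT f ι b c₀ T := by
  have h3 : (Ideal.span {(4 : 𝓞 K)}) ≠ ⊥ := by
    rw [Ne, Ideal.span_singleton_eq_bot]
    exact OfNat.ofNat_ne_zero 4
  have h6 : (Ideal.span {(6 : 𝓞 K)}) ≠ ⊥ := by
    rw [Ne, Ideal.span_singleton_eq_bot]
    exact OfNat.ofNat_ne_zero 6
  have hJ : Ideal.span {(4 : 𝓞 K)} * f ≠ ⊥ := mul_ne_zero h3 hf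
  choose b hb hcop hcl using fun κ : ClassGroup (𝓞 K) =>
    exists_rep (Ideal.span {(6 : 𝓞 K)} * f) (mul_ne_zero h6 hf) κ
  have hfin : ∀ κ, Finite (Quotient (h12S (Ideal.span {(4 : 𝓞 K)} * f) (b κ))) := fun κ =>
    h12_finite _ _ hJ (hb κ)
  have hfin2 : Finite (Σ κ : ClassGroup (𝓞 K),
    Quotient (h12S (Ideal.span {(4 : 𝓞 K)} * f) (b κ))) := inferInstance
  choose T hT using fun i : (Σ κ : ClassGroup (𝓞 K),
    Quotient (h12S (Ideal.span {(4 : 𝓞 K)} * f) (b κ))) =>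
      h12_transv (Ideal.span {(4 : 𝓞 K)} * f) (XS (Ideal.span {4} * f * b i.1) (i.2.out : 𝓞 K))
  refine ⟨Σ κ : ClassGroup (𝓞 K), Quotient (h12S (Ideal.span {(4 : 𝓞 K)} * f) (b κ)),
    Fintype.ofFinite _, fun i => b i.1, fun i => (i.2.out : 𝓞 K), T, ?_⟩
  refine ⟨fun i => hb i.1, fun i => hcop i.1, fun i => i.2.out.2.1, fun i => i.2.out.2.2, hT, ?_⟩
  intro a ha hac
  have hκ : ∀ κ, (∃ x : 𝓞 K, a * b κ = Ideal.span {x}) →
      κ = (ClassGroup.mk0 ⟨a, mem_nonZeroDivisors_iff_ne_zero.2 ha⟩)⁻¹ := by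
    rintro κ ⟨x, hx⟩
    have h1 : ClassGroup.mk0 (⟨a, mem_nonZeroDivisors_iff_ne_zero.2 ha⟩ *
        ⟨b κ, mem_nonZeroDivisors_iff_ne_zero.2 (hb κ)⟩) = 1 := by
      rw [ClassGroup.mk0_eq_one_iff]
      exact ⟨⟨x, hx⟩⟩
    rw [map_mul, hcl κ] at h1
    exact eq_inv_of_mul_eq_one_right h1
  obtain ⟨x, hx⟩ : ∃ x : 𝓞 K, a *
      b ((ClassGroup.mk0 ⟨a, mem_nonZeroDivisors_iff_ne_zero.2 ha⟩)⁻¹) = Ideal.span {x} := by
    set κ := (ClassGroup.mk0 ⟨a, mem_nonZeroDivisors_iff_ne_zero.2 ha⟩)⁻¹ with hκd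
    have h1 : ClassGroup.mk0 (⟨a, mem_nonZeroDivisors_iff_ne_zero.2 ha⟩ *
        ⟨b κ, mem_nonZeroDivisors_iff_ne_zero.2 (hb κ)⟩) = 1 := by
      rw [map_mul, hcl κ, hκd, mul_inv_cancel]
    rw [ClassGroup.mk0_eq_one_iff] at h1
    obtain ⟨x, hx⟩ := h1.principal
    exact ⟨x, hx⟩
  generalize (ClassGroup.mk0 ⟨a, mem_nonZeroDivisors_iff_ne_zero.2 ha⟩)⁻¹ = κ at hκ hx
  have hxP := h12_prim (Ideal.span {(4 : 𝓞 K)} * f) (b κ) a (hb κ) hac x hx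
  set q := Quotient.mk (h12S (Ideal.span {(4 : 𝓞 K)} * f) (b κ)) ⟨x, hxP⟩ with hq
  obtain ⟨u, hu⟩ : (h12S (Ideal.span {(4 : 𝓞 K)} * f) (b κ)) ⟨x, hxP⟩ q.out :=
    (h12S (Ideal.span {(4 : 𝓞 K)} * f) (b κ)).iseqv.symm
      (Quotient.mk_out (s := h12S (Ideal.span {(4 : 𝓞 K)} * f) (b κ)) ⟨x, hxP⟩)
  obtain ⟨t, htT, u1, hu1, hut⟩ := (hT ⟨κ, q⟩).cover ((u : 𝓞 K) * x) hu
  have hspan : Ideal.span {t} = Ideal.span {x} := by
    have h1 : Ideal.span {(u : 𝓞 K) * x} = Ideal.span {x} := by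
      rw [mul_comm, Ideal.span_singleton_mul_right_unit u.isUnit]
    have h2 : Ideal.span {(u1 : 𝓞 K) * t} = Ideal.span {t} := by
      rw [mul_comm, Ideal.span_singleton_mul_right_unit u1.isUnit]
    rw [← h1, hut, h2]
  refine ⟨⟨⟨κ, q⟩, ⟨t, htT⟩⟩, ?_, ?_⟩
  · show a * b κ = Ideal.span {t}
    rw [hspan, hx]
  · rintro ⟨⟨κ', q'⟩, ⟨t', ht'T⟩⟩ h'
    have h' : a * b κ' = Ideal.span {t'} := h'
    obtain rfl : κ' = κ := hκ κ' ⟨t', h'⟩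
    have h2 : Ideal.span {t} = Ideal.span {t'} := by rw [hspan, ← hx, h']
    obtain ⟨v, hv⟩ := Ideal.span_singleton_eq_span_singleton.1 h2
    have hv' : t' = (v : 𝓞 K) * t := by rw [← hv, mul_comm]
    have m1 : t - (q.out : 𝓞 K) ∈ Ideal.span {4} * f * b κ' := (hT ⟨κ', q⟩).sub htT
    have m2 : t' - (q'.out : 𝓞 K) ∈ Ideal.span {4} * f * b κ' := (hT ⟨κ', q'⟩).sub ht'T
    have m3 : (v : 𝓞 K) * (q.out : 𝓞 K) - (q'.out : 𝓞 K) ∈ Ideal.span {4} * f * b κ' := by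
      have e1 : (v : 𝓞 K) * (q.out : 𝓞 K) - (q'.out : 𝓞 K) =
          -(v : 𝓞 K) * (t - (q.out : 𝓞 K)) + (t' - (q'.out : 𝓞 K)) := by
        rw [hv']
        ring
      rw [e1]
      exact Ideal.add_mem _ (Ideal.mul_mem_left _ _ m1) m2
    obtain rfl : q = q' := by
      have e2 : (h12S (Ideal.span {(4 : 𝓞 K)} * f) (b κ')) q.out q'.out := ⟨v, m3⟩
      have e3 := Quotient.sound (s := h12S (Ideal.span {(4 : 𝓞 K)} * f) (b κ')) e2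
      rwa [Quotient.out_eq, Quotient.out_eq] at e3
    have m4 : ((v : 𝓞 K) - 1) * (q.out : 𝓞 K) ∈ Ideal.span {4} * f * b κ' := by
      have e4 : ((v : 𝓞 K) - 1) * (q.out : 𝓞 K) = (v : 𝓞 K) * (q.out : 𝓞 K) - (q.out : 𝓞 K) := by
        ring
      rw [e4]
      exact m3
    have m5 := a6_unit_cong f (b κ') hf (hb κ') q.out q.out.2.1 q.out.2.2 _ m4
    have m6 := (hT ⟨κ', q⟩).uniq t htT t' ht'T v m5 hv'
    subst m6
    rfl

end H19T
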