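import Mathlib
import Pool.Agent.Lib.H19T.Defs
import Pool.Agent.Lib.H55N.H2
import Pool.Agent.Lib.H35T.I4

open NumberField IsDedekindDomain

namespace H19T

open H55B H35T H55N

/-! Chunk A2 (M): the Hecke character of E144 on principal ideals. kl is the quadratic character modulo lam = om - 1: O/lam has the three
classes 0, 1, -1 (exists_repr: a + b om = a + b modulo lam), kl_mul, kl_int (kl is 1, -1, 0). eta_congr: eta_per. eta_unit': for a unit u of O,
u = om^j or -om^j (the six units; see H55B or Nm_eq_one with exists_repr), eta u * cj u is 1 or -1 with value kl u: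
eta(-1) = 1, eta(om) = om (kap om = om, Nm om = 1). psiT_span: y = 0: both sides 0 (map_zero; kl 0 = 0). If y is nonzero and not prime to 3 then lam | y, kl y = 0 and pg(span y) = 0
(exists_prim_iff). If y is prime to 3: exists_unit_prim gives u with u y primary, pg (span y) = u y (pg_span, span of a unit multiple), psiT (span y) =
e(eta(u y)) conj(e(u y)) = e(eta u) conj(e u) e(eta y) conj(e y), e(eta u) conj (e u) = kl u, and kl u kl y = kl(u y) = 1 as u y = 1 modulo 3, so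
kl u = kl y. PsiT_span: relNorm (span x) = span (intNorm x) (Ideal.relNorm_singleton), emb_norm (H55N.H2). -/

theorem ta2_lam_prime : Prime lam := lam_prime

theorem ta2_lam_three : lam ∣ (3 : O) := i4_three

theorem ta2_cases (y : O) : lam ∣ y ∨ lam ∣ y - 1 ∨ lam ∣ y + 1 := by
  obtain ⟨a, b, rfl⟩ := exists_repr y
  have h0 : lam ∣ (a : O) + b * om - ((a + b : ℤ) : O) := ⟨b, by unfold lam; push_cast; ring⟩
  obtain ⟨c, hc⟩ := h0
  obtain ⟨d, hd⟩ := ta2_lam_three
  have h1 : (a + b) % 3 = 0 ∨ (a + b) % 3 = 1 ∨ (a + b) % 3 = 2 := by omega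
  have h2 : ((a + b : ℤ) : O) = 3 * (((a + b) / 3 : ℤ) : O) + (((a + b) % 3 : ℤ) : O) := by
    have h3 := Int.mul_ediv_add_emod (a + b) 3
    have h4 : ((3 * ((a + b) / 3) + (a + b) % 3 : ℤ) : O) = ((a + b : ℤ) : O) := by rw [h3]
    rw [← h4]
    push_cast
    ring
  rcases h1 with h1 | h1 | h1
  · left
    rw [h1] at h2
    refine ⟨c + d * (((a + b) / 3 : ℤ) : O), ?_⟩
    push_cast at h2 hc ⊢
    linear_combination hc + h2 + (((a + b) / 3 : ℤ) : O) * hd
  · right; left
    rw [h1] at h2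
    refine ⟨c + d * (((a + b) / 3 : ℤ) : O), ?_⟩
    push_cast at h2 hc ⊢
    linear_combination hc + h2 + (((a + b) / 3 : ℤ) : O) * hd
  · right; right
    rw [h1] at h2
    refine ⟨c + d * (((a + b) / 3 : ℤ) : O) + d, ?_⟩
    push_cast at h2 hc ⊢
    linear_combination hc + h2 + (((a + b) / 3 : ℤ) : O) * hd + hd

theorem ta2_not_one : ¬ lam ∣ (1 : O) := fun h => ta2_lam_prime.not_isUnit (isUnit_of_dvd_one h)

theorem ta2_pos {y : O} (h : lam ∣ y - 1) : kl y = 1 := by
  unfold kl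
  rw [if_pos h]

theorem ta2_neg {y : O} (h : lam ∣ y + 1) : kl y = -1 := by
  have h1 : ¬ lam ∣ y - 1 := by
    intro h1
    have h2 := dvd_sub (dvd_sub ta2_lam_three h) (dvd_neg.2 h1)
    rw [show 3 - (y + 1) - -(y - 1) = (1 : O) by ring] at h2
    exact ta2_not_one h2
  unfold kl
  rw [if_neg h1, if_pos h]

theorem ta2_zero {y : O} (h : lam ∣ y) : kl y = 0 := by
  have h1 : ¬ lam ∣ y - 1 := by
    intro h1
    have h2 := dvd_sub h h1
    rw [sub_sub_cancel] at h2
    exact ta2_not_one h2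
  have h3 : ¬ lam ∣ y + 1 := by
    intro h1
    have h2 := dvd_sub h1 h
    rw [add_sub_cancel_left] at h2
    exact ta2_not_one h2
  unfold kl
  rw [if_neg h1, if_neg h3]

theorem kl_mul (x y : O) : kl (x * y) = kl x * kl y := by
  rcases ta2_cases x with hx | hx | hx
  · rw [ta2_zero hx, ta2_zero (hx.mul_right y), zero_mul]
  · obtain ⟨c, hc⟩ := hx
    rw [ta2_pos ⟨c, hc⟩, one_mul]
    rcases ta2_cases y with hy | hy | hy
    · rw [ta2_zero hy, ta2_zero (hy.mul_left x)]
    · obtain ⟨d, hd⟩ := hy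
      rw [ta2_pos ⟨d, hd⟩, ta2_pos ⟨c * y + d, by linear_combination y * hc + hd⟩]
    · obtain ⟨d, hd⟩ := hy
      rw [ta2_neg ⟨d, hd⟩, ta2_neg ⟨c * y + d, by linear_combination y * hc + hd⟩]
  · obtain ⟨c, hc⟩ := hx
    rw [ta2_neg ⟨c, hc⟩]
    rcases ta2_cases y with hy | hy | hy
    · rw [ta2_zero hy, ta2_zero (hy.mul_left x), mul_zero]
    · obtain ⟨d, hd⟩ := hy
      rw [ta2_pos ⟨d, hd⟩, ta2_neg ⟨c * y - d, by linear_combination y * hc - hd⟩]
      ring
    · obtain ⟨d, hd⟩ := hy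
      rw [ta2_neg ⟨d, hd⟩, ta2_pos ⟨c * y - d, by linear_combination y * hc - hd⟩]
      ring

theorem kl_one : kl 1 = 1 := by
  exact ta2_pos (by rw [sub_self]; exact dvd_zero _)

theorem kl_cases (y : O) : kl y = 1 ∨ kl y = -1 ∨ kl y = 0 := by
  rcases ta2_cases y with h | h | h
  · exact Or.inr (Or.inr (ta2_zero h))
  · exact Or.inl (ta2_pos h)
  · exact Or.inr (Or.inl (ta2_neg h))

theorem kl_zero_iff (y : O) : kl y = 0 ↔ lam ∣ y := by
  refine ⟨fun h0 => ?_, ta2_zero⟩
  rcases ta2_cases y with h | h | h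
  · exact h
  · rw [ta2_pos h] at h0
    exact absurd h0 one_ne_zero
  · rw [ta2_neg h] at h0
    exact absurd h0 (neg_ne_zero.2 one_ne_zero)

theorem kl_congr {x y : O} (h : lam ∣ x - y) : kl x = kl y := by
  rcases ta2_cases y with hy | hy | hy
  · rw [ta2_zero hy]
    apply ta2_zero
    have := dvd_add h hy
    rwa [sub_add_cancel] at this
  · rw [ta2_pos hy]
    apply ta2_pos
    have := dvd_add h hy
    rwa [show x - y + (y - 1) = x - 1 by ring] at this
  · rw [ta2_neg hy]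
    apply ta2_neg
    have := dvd_add h hy
    rwa [show x - y + (y + 1) = x + 1 by ring] at this

theorem eta_congr {x y : O} (h : (4 : O) ∣ x - y) : eta x = eta y := by
  obtain ⟨c, hc⟩ := h
  rw [show x = y + 4 * c by linear_combination hc, eta_per]

theorem unit_cases (u : Oˣ) : ∃ j : ℕ, (u : O) = om ^ j ∨ (u : O) = -om ^ j := by
  have h1 : Nm (u : O) = 1 := Nm_eq_one.2 u.isUnit
  obtain ⟨a, b, hab⟩ := exists_repr (u : O)
  rw [hab] at h1 ⊢
  have h2 := Nm_repr a b
  rw [h1] at h2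
  have h3 : a ^ 2 - a * b + b ^ 2 = 1 := by rw [← h2]; rfl
  have hb1 : b ≤ 1 := by nlinarith [sq_nonneg (2 * a - b)]
  have hb2 : -1 ≤ b := by nlinarith [sq_nonneg (2 * a - b)]
  have ha1 : a ≤ 1 := by nlinarith [sq_nonneg (2 * b - a)]
  have ha2 : -1 ≤ a := by nlinarith [sq_nonneg (2 * b - a)]
  have hrel := L5_om_sq
  have ha : a = -1 ∨ a = 0 ∨ a = 1 := by omega
  have hb : b = -1 ∨ b = 0 ∨ b = 1 := by omega
  rcases ha with rfl | rfl | rfl <;> rcases hb with rfl | rfl | rfl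
  · exact ⟨2, Or.inl (by rw [hrel]; push_cast; ring)⟩
  · exact ⟨0, Or.inr (by push_cast; ring)⟩
  · norm_num at h3
  · exact ⟨1, Or.inr (by push_cast; ring)⟩
  · norm_num at h3
  · exact ⟨1, Or.inl (by push_cast; ring)⟩
  · norm_num at h3
  · exact ⟨0, Or.inl (by push_cast; ring)⟩
  · exact ⟨2, Or.inr (by rw [hrel]; push_cast; ring)⟩

theorem ta2_pow (j : ℕ) : lam ∣ om ^ j - 1 := by
  have := sub_dvd_pow_sub_pow om 1 j
  rwa [one_pow] at this

theorem ta2_eta_pow (j : ℕ) : eta (om ^ j) = om ^ j := by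
  induction j with
  | zero => rw [pow_zero, H19T.eta_one]
  | succ n ih => rw [pow_succ', eta_om, ih]

theorem ta2_conj (j : ℕ) : e (om ^ j) * (starRingEnd ℂ) (e (om ^ j)) = 1 := by
  rw [Complex.mul_conj, Complex.normSq_eq_norm_sq, map_pow, norm_pow, norm_e_om]
  simp

theorem ta2_unit (u : Oˣ) : e (eta (u : O)) * (starRingEnd ℂ) (e (u : O)) = kl (u : O) ∧
    kl (u : O) * kl (u : O) = 1 := by
  obtain ⟨j, h | h⟩ := unit_cases u
  · rw [h, ta2_eta_pow, ta2_conj, ta2_pos (ta2_pow j)]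
    exact ⟨rfl, one_mul 1⟩
  · rw [h, eta_neg, ta2_eta_pow, map_neg, map_neg, mul_neg, ta2_conj, ta2_neg (by
      have := dvd_neg.2 (ta2_pow j)
      rwa [neg_sub, sub_eq_neg_add] at this)]
    exact ⟨rfl, by ring⟩

theorem ta2_coprime {y : O} (h : ¬ lam ∣ y) : IsCoprime y 3 := by
  have h1 : IsCoprime y lam := (ta2_lam_prime.irreducible.coprime_iff_not_dvd.2 h).symm
  have h2 : IsCoprime y (lam * lam) := h1.mul_right h1
  have h3 : (3 : O) = -om ^ 2 * (lam * lam) := by
    unfold lam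
    linear_combination (om ^ 2 - 3 * om + 3) * om_rel
  rw [h3]
  refine (isCoprime_mul_unit_left_right ?_ y _).2 h2
  refine IsUnit.neg (IsUnit.pow 2 (IsUnit.of_mul_eq_one (om ^ 2) ?_))
  linear_combination L5_om_cube

theorem psiT_span (y : O) : psiT (Ideal.span {y}) = kl y * e (eta y) * (starRingEnd ℂ) (e y) := by
  by_cases hy : y = 0
  · rw [hy, Set.singleton_zero, Ideal.span_zero, map_zero, map_zero, mul_zero]
    exact psiT.map_zero
  by_cases hl : lam ∣ y
  · rw [ta2_zero hl, zero_mul, zero_mul, psiT_apply, pg_of_not, map_zero, map_zero, mul_zero]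
    rw [exists_prim_iff (by rwa [Ne, Ideal.span_singleton_eq_bot]),
      Ideal.isCoprime_span_singleton_iff]
    intro h
    exact ta2_lam_prime.not_isUnit (h.isUnit_of_dvd' hl ta2_lam_three)
  · obtain ⟨u, hu⟩ := exists_unit_prim (ta2_coprime hl)
    have h1 : Ideal.span {y} = Ideal.span {(u : O) * y} := by
      rw [mul_comm, Ideal.span_singleton_mul_right_unit u.isUnit]
    obtain ⟨h2, h3⟩ := ta2_unit u
    have h4 : kl ((u : O) * y) = 1 := ta2_pos (dvd_trans ta2_lam_three hu)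
    rw [kl_mul] at h4
    have h5 : kl (u : O) = kl y := by linear_combination (kl y) * h3 - kl (u : O) * h4
    rw [h1, psiT_apply, pg_span hu, eta_mul, map_mul, map_mul, map_mul, ← h5, ← h2]
    ring

theorem PsiT_span {K : Type} [Field K] [NumberField K] [Algebra F K] (x : 𝓞 K) :
    PsiT K (Ideal.span {x}) = kl (Algebra.intNorm O (𝓞 K) x) *
      e (eta (Algebra.intNorm O (𝓞 K) x)) * (starRingEnd ℂ) (emb (Algebra.norm F (x : K))) := by
  show psiT (Ideal.relNorm O (Ideal.span {x})) = _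
  rw [Ideal.relNorm_singleton, psiT_span, emb_norm]

/-- Units of O congruent to 1 modulo 4 are 1. -/
theorem unit_four (u : Oˣ) (h : (4 : O) ∣ (u : O) - 1) : (u : O) = 1 := by
  have h2 : (2 : O) ∣ (u : O) - 1 := dvd_trans ⟨2, by norm_num⟩ h
  have hk : kap (u : O) = 1 := (kap_one _).2 h2
  have h3 : ∀ j : ℕ, kap (om ^ j) = om ^ j := by
    intro j
    induction j with
    | zero =>
      rw [pow_zero]
      exact (kap_one _).2 (by rw [sub_self]; exact dvd_zero _)
    | succ n ih => rw [pow_succ, kap_mul, ih, L5_kap_om]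
  obtain ⟨j, hj | hj⟩ := unit_cases u
  · rw [hj] at hk ⊢
    rw [← h3, hk]
  · have h4 : kap (-1) = 1 := (kap_one _).2 ⟨-1, by norm_num⟩
    rw [hj, neg_eq_neg_one_mul, kap_mul, h4, one_mul, h3] at hk
    rw [hj, hk] at h
    obtain ⟨c, hc⟩ := h
    have h5 : (2 : O) ∣ 1 := by
      refine ⟨-c, ?_⟩
      have h6 : (2 : O) * (1 - 2 * -c) = 0 := by linear_combination -hc
      exact sub_eq_zero.1 ((mul_eq_zero.1 h6).resolve_left two_prime.ne_zero)
    exact absurd (isUnit_of_dvd_one h5) two_prime.not_isUnit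

/-- The summand is invariant under the units congruent to 1 modulo 4. -/
theorem nfT_unit {K : Type} [Field K] [NumberField K] [Algebra F K] (u : (𝓞 K)ˣ)
    (h : (u : 𝓞 K) - 1 ∈ Ideal.span {(4 : 𝓞 K)}) (s : ℂ) (x : 𝓞 K) :
    nfT s ((u : 𝓞 K) * x) = nfT s x := by
  have h4 : (4 : 𝓞 K) = algebraMap O (𝓞 K) 4 := (map_ofNat _ 4).symm
  rw [h4] at h
  have h1 := norm_congr 4 _ _ h
  rw [map_one] at h1
  have h2 : IsUnit (Algebra.intNorm O (𝓞 K) (u : 𝓞 K)) := u.isUnit.map _
  obtain ⟨v, hv⟩ := h2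
  have h3 : Algebra.intNorm O (𝓞 K) (u : 𝓞 K) = 1 := by
    rw [← hv] at h1 ⊢
    exact unit_four v h1
  unfold nfT nf
  rw [← emb_norm, ← emb_norm, map_mul, h3, one_mul]

end H19T
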