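import Mathlib
import Pool.Agent.Lib.H19T.A1
import Pool.Agent.Lib.H19T.A2
import Pool.Agent.Lib.H55N.H14

open NumberField IsDedekindDomain

namespace H19T

open H55B H35T H55N

/-! Chunk A7 (M): the constants of the class decomposition. Compare H55N/H14.lean. Unit3_eta: x prime to 2: e(eta x) is a root of unity (sixth power 1).
Unit3_PsiT: PsiT K b = e(eta y) conj(e y), y = pg(relNorm b) (PsiT_eq), y primary generator of relNorm b, Nm y = absNorm b is not divisible by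
3 (b prime to 3), val_e_unit (H35T.L3), Unit3.conj; y is prime to 2. exists_kappaT: c0 is prime to 2f ((c0) = b d; if a prime w contains 4f and c0 then it does not contain b
(b prime to 6f, f <> 0 ... w contains 2 or f), so w contains d and c0 is in w b, against hp). So are all x in XS. intNorm x = intNorm c0 modulo 4 (norm_congr of H55N.H2 with
m = 4), so eta(intNorm x) = eta(intNorm c0) (eta_congr), intNorm c0 is prime to 2. Put kap' = e(eta(intNorm c0))/PsiT b, kap = kap' * (chi(span c0) * chi(b)^2), a cube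
root of unity times kap'. PsiT(span x) = kl(N x) e(eta(N x)) conj(emb N x) (PsiT_span); PsiT a PsiT b = PsiT(span x); chi a chi b = chi(span x) =
chi(span c0) (hχ.per, x - c0 in f), chi(b)^3 = 1; oneI f a = 1. -/

theorem Unit3_eta (x : O) (h : IsCoprime x 2) : Unit3 (e (eta x)) := by
  apply Unit3.of_pow (n := 6) (by norm_num)
  rw [← map_pow, eta_six x h, map_one]
  exact Unit3.one

theorem A7_not_three {K : Type} [Field K] [NumberField K] (J : Ideal (𝓞 K))
    (h : IsCoprime J (Ideal.span {3})) : ¬ 3 ∣ Ideal.absNorm J := by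
  obtain ⟨a, ha, c, hc, hac⟩ := Ideal.isCoprime_iff_exists.1 h
  obtain ⟨c', rfl⟩ := Ideal.mem_span_singleton.1 hc
  have hJ : J ≠ ⊥ := by
    rintro rfl
    rw [Ideal.mem_bot] at ha
    rw [ha, zero_add] at hac
    have := H14_not_unit K 3 (by norm_num)
    rw [Nat.cast_ofNat] at this
    exact this (IsUnit.of_mul_eq_one _ hac)
  intro hev
  have hfin : Finite (𝓞 K ⧸ J) := Ideal.finiteQuotientOfFreeOfNeBot J hJ
  have hcard : 3 ∣ Nat.card (𝓞 K ⧸ J) := by
    have : Ideal.absNorm J = Nat.card (𝓞 K ⧸ J) := rfl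
    rw [← this]
    exact hev
  have : Fact (Nat.Prime 3) := ⟨Nat.prime_three⟩
  obtain ⟨x, hx⟩ := exists_prime_addOrderOf_dvd_card' 3 hcard
  have h2 : (3 : ℕ) • x = 0 := by rw [← hx]; exact addOrderOf_nsmul_eq_zero x
  have h3 : (Ideal.Quotient.mk J) a = 0 := Ideal.Quotient.eq_zero_iff_mem.2 ha
  have h4 : (Ideal.Quotient.mk J) (a + 3 * c') = 1 := by rw [hac, map_one]
  rw [map_add, h3, zero_add, map_mul] at h4
  have h5 : x = 0 := by
    have h6 : (Ideal.Quotient.mk J) 3 = 3 := map_ofNat _ 3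
    rw [h6] at h4
    calc x = (3 * (Ideal.Quotient.mk J) c') * x := by rw [h4, one_mul]
      _ = (Ideal.Quotient.mk J) c' * ((3 : ℕ) • x) := by rw [nsmul_eq_mul]; push_cast; ring
      _ = 0 := by rw [h2, mul_zero]
  rw [h5, addOrderOf_zero] at hx
  exact absurd hx (by norm_num)

variable {K : Type} [Field K] [NumberField K] [Algebra F K]

theorem Unit3_PsiT (b : Ideal (𝓞 K)) (hb : b ≠ ⊥) (h6 : IsCoprime b (Ideal.span {(6 : 𝓞 K)})) :
    Unit3 (PsiT K b) := by
  have h1 := (PsiT_ne b hb).2 h6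
  have h3 : IsCoprime b (Ideal.span {(3 : 𝓞 K)}) := by
    have h2 : Ideal.span {(6 : 𝓞 K)} ≤ Ideal.span {(3 : 𝓞 K)} := by
      rw [Ideal.span_singleton_le_span_singleton]
      exact ⟨2, by norm_num⟩
    rw [Ideal.isCoprime_iff_sup_eq] at h6 ⊢
    exact top_le_iff.1 (h6 ▸ sup_le_sup_left h2 b)
  have e1 : PsiT K b = e (eta (pg (Ideal.relNorm O b))) * (starRingEnd ℂ) (e (pg (Ideal.relNorm O b))) := by
    rw [PsiT_eq]
    rfl
  rw [e1] at h1 ⊢
  by_cases h : ∃ x : O, Ideal.relNorm O b = Ideal.span {x} ∧ Prim x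
  · obtain ⟨x, hx, hp⟩ := h
    rw [hx, pg_span hp] at h1 ⊢
    refine (Unit3_eta x ?_).mul (Unit3.conj ?_)
    · by_contra h2
      rw [eta_zero x h2, map_zero, zero_mul] at h1
      exact h1 rfl
    · have h4 : ¬ 3 ∣ Nm x := by
        have e2 : Nm x = Ideal.absNorm b := by
          rw [← Ideal.absNorm_relNorm O (𝓞 K) b, hx]
          rfl
        rw [e2]
        exact A7_not_three b h3
      exact fun A hA => val_e_unit A hA x h4
  · rw [pg_of_not h, map_zero, map_zero, mul_zero] at h1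
    exact absurd rfl h1

theorem exists_kappaT (f : Ideal (𝓞 K)) (χ : Ideal (𝓞 K) →*₀ ℂ) (hχ : CChr f χ)
    (b : Ideal (𝓞 K)) (hb : b ≠ ⊥) (hbc : IsCoprime b (Ideal.span {6} * f)) (c₀ : 𝓞 K) (hc : c₀ ∈ b)
    (hp : ∀ w : HeightOneSpectrum (𝓞 K), Ideal.span {4} * f ≤ w.asIdeal → c₀ ∉ w.asIdeal * b) :
    ∃ κ κ' ζ : ℂ, Unit3 κ' ∧ ζ ^ 3 = 1 ∧ κ = κ' * ζ ∧
      ∀ x ∈ XS (Ideal.span {4} * f * b) c₀, ∀ a : Ideal (𝓞 K), a * b = Ideal.span {x} →
        x ≠ 0 ∧
        (PsiT K * χ) a = κ * (kl (Algebra.intNorm O (𝓞 K) x) *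
          (starRingEnd ℂ) (emb (Algebra.norm F (x : K)))) ∧
        (PsiT K * oneI f) a = κ' * (kl (Algebra.intNorm O (𝓞 K) x) *
          (starRingEnd ℂ) (emb (Algebra.norm F (x : K)))) := by
  classical
  have h4ne : (4 : 𝓞 K) ≠ 0 := by norm_num
  have h3f : Ideal.span {(4 : 𝓞 K)} * f ≠ ⊥ :=
    mul_ne_zero (fun h => h4ne (Ideal.span_singleton_eq_bot.1 h)) hχ.ne
  have hb6 : IsCoprime b (Ideal.span {(6 : 𝓞 K)}) := hbc.of_mul_right_left
  have hbf : IsCoprime b f := hbc.of_mul_right_right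
  have hb2 : IsCoprime b (Ideal.span {(2 : 𝓞 K)}) := by
    have h1 : IsCoprime b (Ideal.span {(6 : 𝓞 K)}) := hb6
    have h2 : Ideal.span {(6 : 𝓞 K)} ≤ Ideal.span {(2 : 𝓞 K)} := by
      rw [Ideal.span_singleton_le_span_singleton]
      exact ⟨3, by norm_num⟩
    rw [Ideal.isCoprime_iff_sup_eq] at h1 ⊢
    exact top_le_iff.1 (h1 ▸ sup_le_sup_left h2 b)
  have h42 : Ideal.span {(4 : 𝓞 K)} = Ideal.span {(2 : 𝓞 K)} * Ideal.span {(2 : 𝓞 K)} := by
    rw [Ideal.span_singleton_mul_span_singleton]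
    norm_num
  have hb4 : IsCoprime b (Ideal.span {(4 : 𝓞 K)}) := by
    rw [h42]
    exact hb2.mul_right hb2
  have hb3f : IsCoprime b (Ideal.span {(4 : 𝓞 K)} * f) := hb4.mul_right hbf
  -- c₀ is prime to 4 f
  have hcop : IsCoprime (Ideal.span {c₀}) (Ideal.span {(4 : 𝓞 K)} * f) := by
    rw [Ideal.isCoprime_iff_sup_eq]
    by_contra hne
    obtain ⟨M, hM, hle⟩ := Ideal.exists_le_maximal _ hne
    have hMf : Ideal.span {(4 : 𝓞 K)} * f ≤ M := le_sup_right.trans hle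
    have hMc : Ideal.span {c₀} ≤ M := le_sup_left.trans hle
    have hM0 : M ≠ ⊥ := by
      rintro rfl
      exact h3f (le_bot_iff.1 hMf)
    have hbM : ¬ b ≤ M := by
      intro h
      rw [Ideal.isCoprime_iff_sup_eq] at hb3f
      exact hM.ne_top (top_le_iff.1 (hb3f ▸ sup_le h hMf))
    obtain ⟨d, hd⟩ := Ideal.dvd_iff_le.2 ((Ideal.span_singleton_le_iff_mem b).2 hc)
    rw [hd] at hMc
    have hdM : d ≤ M := (hM.isPrime.mul_le.1 hMc).resolve_left hbM
    refine hp ⟨M, hM.isPrime, hM0⟩ hMf ?_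
    have h1 : c₀ ∈ b * d := by rw [← hd]; exact Ideal.mem_span_singleton_self _
    rw [mul_comm]
    exact Ideal.mul_mono_right hdM h1
  have hXcop : ∀ x ∈ XS (Ideal.span {4} * f * b) c₀,
      IsCoprime (Ideal.span {x}) (Ideal.span {(4 : 𝓞 K)} * f) := by
    intro x hx
    have hx' : x - c₀ ∈ Ideal.span {(4 : 𝓞 K)} * f :=
      Ideal.mul_le_left (show x - c₀ ∈ Ideal.span {(4 : 𝓞 K)} * f * b from hx)
    rw [Ideal.isCoprime_iff_exists] at hcop ⊢
    obtain ⟨i, hi, j, hj, hij⟩ := hcop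
    obtain ⟨r, rfl⟩ := Ideal.mem_span_singleton.1 hi
    refine ⟨x * r, Ideal.mul_mem_right _ _ (Ideal.mem_span_singleton_self x),
      j - (x - c₀) * r, Ideal.sub_mem _ hj (Ideal.mul_mem_right _ _ hx'), ?_⟩
    linear_combination hij
  have hc3 : IsCoprime (Ideal.span {c₀}) (Ideal.span {(4 : 𝓞 K)}) := hcop.of_mul_right_left
  have hne0 : ∀ x : 𝓞 K, IsCoprime (Ideal.span {x}) (Ideal.span {(4 : 𝓞 K)}) → x ≠ 0 := by
    rintro x hx rfl
    rw [Ideal.isCoprime_span_singleton_iff] at hx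
    obtain ⟨r, t, hrt⟩ := hx
    rw [mul_zero, zero_add] at hrt
    have := H14_not_unit K 4 (by norm_num)
    rw [Nat.cast_ofNat] at this
    exact this (IsUnit.of_mul_eq_one _ ((mul_comm _ _).trans hrt))
  have hc0 : c₀ ≠ 0 := hne0 c₀ hc3
  have hcN : IsCoprime (Algebra.intNorm O (𝓞 K) c₀) 2 := by
    have h1 : IsCoprime (Ideal.span {c₀}) (Ideal.span {(2 : 𝓞 K)}) := by
      rw [h42] at hc3
      exact hc3.of_mul_right_left
    rw [Ideal.isCoprime_span_singleton_iff] at h1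
    obtain ⟨r, t, hrt⟩ := h1
    have h2 := norm_congr 2 (r * c₀) 1 (by
      rw [Ideal.mem_span_singleton, map_ofNat]
      exact ⟨-t, by linear_combination hrt⟩)
    rw [map_mul, map_one] at h2
    obtain ⟨s, hs⟩ := h2
    exact ⟨Algebra.intNorm O (𝓞 K) r, -s, by linear_combination hs⟩
  have hPb : PsiT K b ≠ 0 := (PsiT_ne b hb).2 hb6
  have hχb := hχ.val b hb hbf
  have hc0' : Ideal.span {c₀} ≠ ⊥ := fun h => hc0 (Ideal.span_singleton_eq_bot.1 h)
  have hχc := hχ.val (Ideal.span {c₀}) hc0' hcop.of_mul_right_right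
  refine ⟨e (eta (Algebra.intNorm O (𝓞 K) c₀)) * (PsiT K b)⁻¹ * (χ (Ideal.span {c₀}) * χ b ^ 2),
    e (eta (Algebra.intNorm O (𝓞 K) c₀)) * (PsiT K b)⁻¹, χ (Ideal.span {c₀}) * χ b ^ 2,
    (Unit3_eta _ hcN).mul (Unit3_PsiT b hb hb6).inv, ?_, rfl, ?_⟩
  · calc (χ (Ideal.span {c₀}) * χ b ^ 2) ^ 3 = χ (Ideal.span {c₀}) ^ 3 * (χ b ^ 3) ^ 2 := by ring
      _ = 1 := by rw [hχc, hχb]; norm_num
  · intro x hx a hab
    have hxc := hXcop x hx
    have hx0 : x ≠ 0 := hne0 x hxc.of_mul_right_left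
    have hx3 : x - c₀ ∈ Ideal.span {(4 : 𝓞 K)} :=
      Ideal.mul_le_left (Ideal.mul_le_left
        (show x - c₀ ∈ Ideal.span {(4 : 𝓞 K)} * f * b from hx))
    have hxf : x - c₀ ∈ f := by
      have h1 : x - c₀ ∈ Ideal.span {(4 : 𝓞 K)} * f :=
        Ideal.mul_le_left (show x - c₀ ∈ Ideal.span {(4 : 𝓞 K)} * f * b from hx)
      exact Ideal.mul_le_right h1
    have hηx : eta (Algebra.intNorm O (𝓞 K) x) = eta (Algebra.intNorm O (𝓞 K) c₀) := by
      apply H19T.eta_congr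
      apply norm_congr
      rw [map_ofNat]
      exact hx3
    have hPx := PsiT_span x
    rw [hηx] at hPx
    have ha0 : a ≠ ⊥ := by
      rintro rfl
      apply hx0
      rw [← Ideal.span_singleton_eq_bot, ← hab]
      exact zero_mul b
    have haf : IsCoprime a f := by
      have h1 : IsCoprime (a * b) f := by rw [hab]; exact hxc.of_mul_right_right
      exact h1.of_mul_left_left
    have hPa : PsiT K a = e (eta (Algebra.intNorm O (𝓞 K) c₀)) * (PsiT K b)⁻¹ *
        (kl (Algebra.intNorm O (𝓞 K) x) *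
          (starRingEnd ℂ) (emb (Algebra.norm F (x : K)))) := by
      have h1 : PsiT K a * PsiT K b = PsiT K (Ideal.span {x}) := by rw [← map_mul, hab]
      rw [hPx] at h1
      field_simp
      rw [h1]
      ring
    have hχa : χ a = χ (Ideal.span {c₀}) * χ b ^ 2 := by
      have h1 : χ a * χ b = χ (Ideal.span {x}) := by rw [← map_mul, hab]
      rw [hχ.per x c₀ hx0 hc0 hxc.of_mul_right_right hxf] at h1
      calc χ a = (χ a * χ b) * χ b ^ 2 := by
            rw [mul_assoc, ← pow_succ', hχb, mul_one]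
        _ = _ := by rw [h1]
    refine ⟨hx0, ?_, ?_⟩
    · show PsiT K a * χ a = _
      rw [hPa, hχa]
      ring
    · show PsiT K a * oneI f a = _
      have h1 : oneI f a = 1 := if_pos ⟨ha0, haf⟩
      rw [hPa, h1, mul_one]

end H19T
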