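import Mathlib
import Pool.Agent.Lib.H35T.Defs
import Pool.Agent.Lib.H55N.S2

open NumberField IsDedekindDomain

namespace H19T

open H55B H35T H55N

/-- Chunk A8a (M). Adapt H55N/S2.lean (exists_elt; the auxiliary lemmas s2_charpoly, avoid, s2_mod ... are reusable): the same with the congruence
z = lam mod 4 in place of z = om mod 2 (lam = om - 1 is prime to 2, in particular every prime w containing 2 does not contain z). -/
theorem exists_eltT (K : Type) [Field K] [NumberField K] [Algebra F K]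
    (P : Finset (HeightOneSpectrum O)) :
    ∃ z : 𝓞 K, z - algebraMap O (𝓞 K) lam ∈ Ideal.span {(4 : 𝓞 K)} ∧
      z - 1 ∈ Ideal.span {(3 : 𝓞 K)} ∧
      (∀ v ∈ P, (2 : O) ∉ v.asIdeal → Algebra.intNorm O (𝓞 K) z ∉ v.asIdeal) ∧
      ∀ w : HeightOneSpectrum (𝓞 K), (2 : 𝓞 K) ∉ w.asIdeal → z ∈ w.asIdeal →
        w.asIdeal.inertiaDeg O = 1 := by
  classical
  set P1 : Finset (HeightOneSpectrum O) :=
    (P ∪ (s2_fin_norm (Module.finrank F K)).toFinset ∪
      (s2_fin 3 (OfNat.ofNat_ne_zero 3)).toFinset).filter fun v => (2 : O) ∉ v.asIdeal with hP1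
  obtain ⟨N, hN0, ⟨N3, hN3⟩, hcop, hNP, hNn⟩ := s2_mod P1
    (fun v hv => (Finset.mem_filter.1 hv).2)
    (fun v hv hv2 => by
      rw [hP1, Finset.mem_filter]
      refine ⟨?_, hv2⟩
      rw [Finset.mem_union]
      right
      rw [Set.Finite.mem_toFinset]
      exact hv)
  obtain ⟨a2, b2, hab⟩ : IsCoprime (4 : O) N := by
    have h := hcop.mul_left hcop
    have h4 : (2 * 2 : O) = 4 := by norm_num
    rwa [h4] at h
  obtain ⟨x, hx⟩ := s2_prim K
  set μ : O := lam * (b2 * N) + a2 * 4 with hμ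
  set θ : 𝓞 K := algebraMap O (𝓞 K) μ + algebraMap O (𝓞 K) (4 * N) * x with hθ
  have h2N : (4 * N : O) ≠ 0 := mul_ne_zero (OfNat.ofNat_ne_zero 4) hN0
  obtain ⟨d, hd0, hd⟩ := deg_one θ (hx μ (4 * N) h2N)
  set P2 : Finset (HeightOneSpectrum O) :=
    (s2_fin d hd0).toFinset.filter fun v => (2 : O) ∉ v.asIdeal ∧ v ∉ P1 with hP2
  have hcv : ∀ v : HeightOneSpectrum O, (2 : O) ∉ v.asIdeal → v ∉ P1 →
      4 * N ∉ v.asIdeal := by
    intro v h2 h1 h
    rcases v.isPrime.mem_or_mem h with h | h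
    · have h4 : (4 : O) = 2 * 2 := by norm_num
      rw [h4] at h
      rcases v.isPrime.mem_or_mem h with h | h
      · exact h2 h
      · exact h2 h
    · exact hNn v h2 h1 h
  have hav : ∀ v ∈ P2, ∃ a : O,
      Algebra.intNorm O (𝓞 K) (θ + algebraMap O (𝓞 K) (4 * N * a)) ∉ v.asIdeal := by
    intro v hv
    obtain ⟨-, h2, h1⟩ := Finset.mem_filter.1 hv
    refine s2_avoid θ (4 * N) v (hcv v h2 h1) ?_
    by_contra hle
    push Not at hle
    apply h1
    rw [hP1, Finset.mem_filter]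
    refine ⟨?_, h2⟩
    rw [Finset.mem_union, Finset.mem_union]
    left
    right
    rw [Set.Finite.mem_toFinset]
    exact hle
  choose! av hav using hav
  obtain ⟨a, ha⟩ := s2_crt P2 av
  set z : 𝓞 K := θ + algebraMap O (𝓞 K) (4 * N * a) with hz
  have hzP1 : ∀ v ∈ P1, Algebra.intNorm O (𝓞 K) z ∉ v.asIdeal := by
    intro v hv h
    have h1 := s2_norm_mem (K := K) v z 1 ⟨N, hNP v hv,
      algebraMap O (𝓞 K) (lam * b2 - b2) + algebraMap O (𝓞 K) 4 * x +
        algebraMap O (𝓞 K) (4 * a), by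
      have e1 : μ = 1 + N * (lam * b2 - b2) := by
        rw [hμ]
        linear_combination hab
      rw [hz, hθ, e1]
      simp only [map_add, map_mul, map_one, map_sub]
      ring⟩
    have h2 := v.asIdeal.sub_mem h h1
    rw [sub_sub_cancel, map_one] at h2
    exact v.isPrime.ne_top ((Ideal.eq_top_iff_one _).2 h2)
  have hzP2 : ∀ v ∈ P2, Algebra.intNorm O (𝓞 K) z ∉ v.asIdeal := by
    intro v hv h
    have h1 := s2_norm_mem (K := K) v z (θ + algebraMap O (𝓞 K) (4 * N * av v))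
      ⟨a - av v, ha v hv, algebraMap O (𝓞 K) (4 * N), by
        rw [hz]
        simp only [map_mul, map_sub]
        ring⟩
    have h2 := v.asIdeal.sub_mem h h1
    rw [sub_sub_cancel] at h2
    exact hav v hv h2
  refine ⟨z, ?_, ?_, ?_, ?_⟩
  · rw [Ideal.mem_span_singleton]
    refine ⟨algebraMap O (𝓞 K) (a2 - a2 * lam) + algebraMap O (𝓞 K) N * x +
      algebraMap O (𝓞 K) (N * a), ?_⟩
    have e1 : μ = lam + 4 * (a2 - a2 * lam) := by
      rw [hμ]
      linear_combination lam * hab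
    rw [hz, hθ, e1]
    simp only [map_add, map_mul, map_sub, map_ofNat]
    ring
  · rw [Ideal.mem_span_singleton]
    refine ⟨algebraMap O (𝓞 K) (N3 * (lam * b2 - b2)) + algebraMap O (𝓞 K) (4 * N3) * x +
      algebraMap O (𝓞 K) (4 * N3 * a), ?_⟩
    have e1 : μ = 1 + 3 * N3 * (lam * b2 - b2) := by
      rw [← hN3, hμ]
      linear_combination hab
    rw [hz, hθ, e1, hN3]
    simp only [map_add, map_mul, map_sub, map_ofNat, map_one]
    ring
  · intro v hv h2
    refine hzP1 v ?_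
    rw [hP1, Finset.mem_filter]
    refine ⟨?_, h2⟩
    rw [Finset.mem_union, Finset.mem_union]
    left
    left
    exact hv
  · intro w h2 hzw
    obtain ⟨v, hv⟩ := s2_under w
    have hzv : Algebra.intNorm O (𝓞 K) z ∈ v.asIdeal := by
      rw [hv]
      exact s2_mem_under w z hzw
    have hv2 : (2 : O) ∉ v.asIdeal := by
      intro h
      rw [hv, Ideal.under_def, Ideal.mem_comap, map_ofNat] at h
      exact h2 h
    have hvP1 : v ∉ P1 := fun h => hzP1 v h hzv
    refine hd w v hv ?_ (4 * N * a) hzw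
    intro hdv
    refine hzP2 v ?_ hzv
    rw [hP2, Finset.mem_filter]
    refine ⟨?_, hv2, hvP1⟩
    rw [Set.Finite.mem_toFinset]
    exact hdv

end H19T
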