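import Mathlib
import Pool.Agent.Lib.H19T.A1
import Pool.Agent.Lib.H19T.A8a
import Pool.Agent.Lib.H35T.I4
import Pool.Agent.Lib.H55N.S3

open NumberField IsDedekindDomain

namespace H19T

open H55B H35T H55N

/-- Multiplicativity: a nonzero primary element whose primary prime factors all have norm 1 modulo 4 (at 2: none) has norm 1 modulo 4. -/
theorem norm_ind : ∀ (n : ℕ) (x : O), Nm x = n → x ≠ 0 → Prim x →
    (∀ v : HeightOneSpectrum O, (3 : O) ∉ v.asIdeal → x ∈ v.asIdeal → Nm (gen v) % 4 = 1) →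
    Nm x % 4 = 1 := by
  intro n
  induction n using Nat.strong_induction_on with
  | _ n ih =>
    intro x hn hx0 hx h
    by_cases hu : IsUnit x
    · rw [Nm_eq_one.2 hu]
    · obtain ⟨π, hπ, hπx⟩ := WfDvdMonoid.exists_irreducible_factor hu hx0
      have hπp : Prime π := hπ.prime
      let v : HeightOneSpectrum O := ⟨Ideal.span {π}, (Ideal.span_singleton_prime hπp.ne_zero).2 hπp, by
        rw [Ne, Ideal.span_singleton_eq_bot]; exact hπp.ne_zero⟩
      have hxv : x ∈ v.asIdeal := Ideal.mem_span_singleton.2 hπx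
      have h3 : (3 : O) ∉ v.asIdeal := by
        intro h3
        apply v.isPrime.ne_top
        rw [Ideal.eq_top_iff_one]
        obtain ⟨z, hz⟩ := hx
        have : (1 : O) = x - 3 * z := by rw [← hz]; ring
        rw [this]
        exact v.asIdeal.sub_mem hxv (v.asIdeal.mul_mem_right _ h3)
      obtain ⟨y, hy⟩ := (gen_dvd_iff v h3 x).2 hxv
      have hg := gen_spec v h3
      have hy0 : y ≠ 0 := by
        rintro rfl
        exact hx0 (by rw [hy, mul_zero])
      have hyP : Prim y := by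
        obtain ⟨z, hz⟩ := hx
        obtain ⟨z', hz'⟩ := hg.2
        refine ⟨z - z' * y, ?_⟩
        linear_combination hz - y * hz' - hy
      have hg1 : Nm (gen v) ≠ 1 := by
        intro h1
        exact (gen_prime v h3).not_isUnit (Nm_eq_one.1 h1)
      have hlt : Nm y < n := by
        rw [← hn, hy, Nm_mul]
        have h5 := X1_Nm_pos (gen_prime v h3).ne_zero
        have h6 := X1_Nm_pos hy0
        have h7 : 2 ≤ Nm (gen v) := by omega
        nlinarith
      have h8 := ih _ hlt y rfl hy0 hyP (fun v' h3' hv' => h v' h3' (by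
        rw [hy]; exact v'.asIdeal.mul_mem_left _ hv'))
      have h9 := h v h3 hxv
      rw [hy, Nm_mul, Nat.mul_mod, h9, h8]

theorem a8b_Nm_mod {x y : O} (h : (4 : O) ∣ x - y) : Nm x % 4 = Nm y % 4 := by
  obtain ⟨t, ht⟩ := h
  obtain ⟨a, b, hab⟩ := exists_repr y
  obtain ⟨c, d, hcd⟩ := exists_repr t
  have hx : x = ((a + 4 * c : ℤ) : O) + ((b + 4 * d : ℤ) : O) * om := by
    push_cast
    linear_combination ht + hab + 4 * hcd
  have h1 : ((Nm x : ℕ) : ZMod 4) = ((Nm y : ℕ) : ZMod 4) := by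
    rw [hx, hab, L5_Nm_cast, L5_Nm_cast]
    have h5 : (4 : ZMod 4) = 0 := by decide
    push_cast
    rw [h5]
    ring
  exact (ZMod.natCast_eq_natCast_iff' _ _ 4).1 h1

theorem a8b_Nm_lam : Nm lam = 3 := by
  have h := Nm_repr (-1) 1
  have h2 : ((-1 : ℤ) : O) + ((1 : ℤ) : O) * om = lam := by unfold lam; push_cast; ring
  rw [h2] at h
  norm_num at h
  exact_mod_cast h

theorem a8b_Nm_lam_pow {n : ℕ} (hn : Odd n) : Nm (lam ^ n) % 4 = 3 := by
  obtain ⟨k, rfl⟩ := hn
  have h1 : ∀ m : ℕ, Nm (lam ^ m) = 3 ^ m := by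
    intro m
    induction m with
    | zero => rw [pow_zero, pow_zero]; exact Nm_eq_one.2 isUnit_one
    | succ m ih => rw [pow_succ, pow_succ, Nm_mul, ih, a8b_Nm_lam]
  rw [h1, pow_succ, pow_mul, Nat.mul_mod, Nat.pow_mod]
  norm_num

theorem a8b_absNorm_prime (v : HeightOneSpectrum O) (h3 : (3 : O) ∉ v.asIdeal)
    (hg : Nm (gen v) % 4 = 3) : (Ideal.absNorm v.asIdeal).Prime := by
  have hp := gen_prime v h3
  rw [absNorm_gen v h3]
  have hN1 : Nm (gen v) ≠ 1 := fun h => hp.not_isUnit (Nm_eq_one.1 h)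
  have hN0 : Nm (gen v) ≠ 0 := fun h => hp.ne_zero (Nm_eq_zero.1 h)
  -- a rational prime divisible by gen v
  obtain ⟨q, hq, hqN, hgq⟩ : ∃ q : ℕ, q.Prime ∧ q ∣ Nm (gen v) ∧ gen v ∣ (q : O) := by
    have h1 : gen v ∣ ((Nm (gen v) : ℕ) : O) := ⟨cj (gen v), (mul_cj _).symm⟩
    have h4 : ∀ n : ℕ, n ≠ 0 → gen v ∣ (n : O) → ∃ q : ℕ, q.Prime ∧ q ∣ n ∧ gen v ∣ (q : O) := by
      intro n
      induction n using Nat.strong_induction_on with
      | _ n ih =>
        intro hn0 hn
        by_cases hn1 : n = 1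
        · rw [hn1, Nat.cast_one] at hn
          exact absurd (isUnit_of_dvd_one hn) hp.not_isUnit
        · have hq := Nat.minFac_prime hn1
          obtain ⟨k, hk⟩ := Nat.minFac_dvd n
          rw [hk, Nat.cast_mul] at hn
          rcases hp.dvd_or_dvd hn with h5 | h5
          · exact ⟨_, hq, Nat.minFac_dvd n, h5⟩
          · have hk0 : k ≠ 0 := by
              rintro rfl
              rw [mul_zero] at hk
              exact hn0 hk
            have hlt : k < n := by
              have := hq.two_le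
              have h6 : k < n.minFac * k := by nlinarith [Nat.pos_of_ne_zero hk0]
              rwa [← hk] at h6
            obtain ⟨q, h7, h8, h9⟩ := ih k hlt hk0 h5
            exact ⟨q, h7, h8.trans ⟨n.minFac, by rw [mul_comm]; exact hk⟩, h9⟩
    exact h4 _ hN0 h1
  obtain ⟨h, hh⟩ := hgq
  have hNq : Nm ((q : ℕ) : O) = q ^ 2 := by
    have h1 := Nm_repr (q : ℤ) 0
    push_cast at h1
    rw [zero_mul, add_zero] at h1
    have h5 : ((Nm ((q : ℕ) : O) : ℕ) : ℤ) = ((q ^ 2 : ℕ) : ℤ) := by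
      rw [h1]
      push_cast
      ring
    exact_mod_cast h5
  have hmul : Nm (gen v) * Nm h = q ^ 2 := by rw [← Nm_mul, ← hh, hNq]
  have hdvd : Nm (gen v) ∣ q ^ 2 := ⟨Nm h, hmul.symm⟩
  rcases (Nat.dvd_prime_pow hq).1 hdvd with ⟨i, hi, hi2⟩
  interval_cases i
  · rw [pow_zero] at hi2
    exact absurd hi2 hN1
  · rw [pow_one] at hi2
    rw [hi2]
    exact hq
  · exfalso
    rw [hi2, Nat.pow_mod] at hg
    have h5 : q % 4 < 4 := Nat.mod_lt _ (by norm_num)
    interval_cases h6 : q % 4 <;> omega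

theorem a8b_good (v : HeightOneSpectrum O) (h3 : (3 : O) ∉ v.asIdeal) (h2 : (2 : O) ∉ v.asIdeal)
    (hg : Nm (gen v) % 4 = 3) : H35T.Good v := by
  classical
  refine ⟨h2, h3, ?_⟩
  rintro ⟨x, hx⟩
  have hfin := H0_finite v
  let _ := Ideal.Quotient.field v.asIdeal
  let _ := Fintype.ofFinite (O ⧸ v.asIdeal)
  have h4 : Ideal.absNorm v.asIdeal = Fintype.card (O ⧸ v.asIdeal) := by
    rw [Ideal.absNorm_apply, Submodule.cardQuot_apply, Nat.card_eq_fintype_card]
  have h5 : IsSquare (-1 : O ⧸ v.asIdeal) := by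
    refine ⟨Ideal.Quotient.mk _ x, ?_⟩
    have h6 := Ideal.Quotient.eq_zero_iff_mem.2 hx
    rw [map_add, map_pow, map_one] at h6
    linear_combination -h6
  rw [FiniteField.isSquare_neg_one_iff, ← h4, absNorm_gen v h3] at h5
  exact h5 hg

theorem a8b_unit {v : HeightOneSpectrum O} (hv : H35T.Good v) :
    Unit3 (1 - (starRingEnd ℂ) (fe v)) := by
  intro A h3
  obtain ⟨j, hj⟩ := eta_good hv
  have hp := (gen_spec v hv.2.1).2
  obtain ⟨y, hy⟩ := hp
  have h1 : 1 - (starRingEnd ℂ) (fe v) = e (1 + om ^ j * cj (gen v)) := by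
    unfold fe
    rw [map_mul, Complex.conj_conj, ← e_cj (gen v), hj, ← map_mul, map_add, map_one, neg_mul,
      map_neg, sub_neg_eq_add]
  rw [h1]
  refine val_e_unit A h3 _ (i4_norm (Or.inr ?_))
  have h4 : (om - 1) ∣ om ^ j - 1 := by
    have := sub_dvd_pow_sub_pow om 1 j
    rwa [one_pow] at this
  obtain ⟨t, ht⟩ := h4
  have h5 : cj (gen v) = 1 + 3 * cj y := by
    have h6 : gen v = 1 + 3 * y := by linear_combination hy
    rw [h6, map_add, map_mul, map_one, map_ofNat]
  have h7 := three_eq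
  refine ⟨t * cj (gen v) + (-om ^ 2 * (om - 1)) * (1 + cj y), ?_⟩
  linear_combination cj (gen v) * ht + h5 + (1 + cj y) * h7

/-- Chunk A8b (M), smoothing primes. Adapt H55N/S3.lean. z from exists_eltT, y = intNorm z: y = 1 mod 3 (primary), y = lam^n mod 4 (norm_congr with m = 4,
S3_intNorm_algebraMap), so Nm y = Nm(lam)^n = 3^n = 3 modulo 4 as n is odd (Nm modulo 4 only depends on the class modulo 4: H35T.L5_Nm_cast). By
norm_ind (proof like H55B.X1_ind) there is v with 3 not in v, y in v and Nm(gen v) not 1 modulo 4; 2 is not in v (y is prime to 2), so Nm (gen v) is odd and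
= 3 modulo 4. absNorm v = Nm(gen v) is not a square, so it is a prime p (v contains a rational prime q, absNorm v divides q^2), and v is good: -1 is not a
square modulo v (a square root of -1 has order 4 in the group of order p - 1, not divisible by 4). w over v containing z (S3_prime_over), inertiaDeg w = 1,
absNorm w = absNorm v, PsiT K w = psiT v = conj(fe v) = e(eta(gen v)) conj(e(gen v)), eta(gen v) = -om^j (H35T.eta_good), gen v = 1 modulo 3, so 1 - PsiT w =
e(1 + om^j cj(gen v)), and 1 + om^j cj(gen v) = 2 modulo lam: its norm is not divisible by 3 (i4_norm: lam | x + 1), val_e_unit. -/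
theorem exists_smoothingT (K : Type) [Field K] [NumberField K] [Algebra F K]
    (hn : Odd (Module.finrank F K)) (P : Finset (HeightOneSpectrum O)) :
    ∃ w : HeightOneSpectrum (𝓞 K), (∀ v ∈ P, v.asIdeal ≠ w.asIdeal.under O) ∧
      (∀ v : HeightOneSpectrum O, v.asIdeal = w.asIdeal.under O → H35T.Good v) ∧
      (Ideal.absNorm w.asIdeal).Prime ∧ Unit3 (1 - PsiT K w.asIdeal) := by
  obtain ⟨z, hz2, hz3, hzP, hzd⟩ := exists_eltT K P
  set y := Algebra.intNorm O (𝓞 K) z with hy
  have hy3 : Prim y := by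
    have h1 : z - 1 ∈ Ideal.span {algebraMap O (𝓞 K) 3} := by
      rw [map_ofNat]; exact hz3
    have h2 := norm_congr 3 z 1 h1
    rw [map_one] at h2
    exact h2
  have hy2 : (4 : O) ∣ y - lam ^ Module.finrank F K := by
    have h1 : z - algebraMap O (𝓞 K) lam ∈ Ideal.span {algebraMap O (𝓞 K) 4} := by
      rw [map_ofNat]; exact hz2
    have h2 := norm_congr 4 z _ h1
    rw [S3_intNorm_algebraMap] at h2
    exact h2
  have hy1 : Nm y % 4 = 3 := by rw [a8b_Nm_mod hy2, a8b_Nm_lam_pow hn]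
  obtain ⟨v, h3, hyv, hg⟩ : ∃ v : HeightOneSpectrum O, (3 : O) ∉ v.asIdeal ∧ y ∈ v.asIdeal ∧
      Nm (gen v) % 4 ≠ 1 := by
    by_contra hcon
    push Not at hcon
    have h1 := norm_ind _ y rfl hy3.ne_zero hy3 hcon
    omega
  have h2 : (2 : O) ∉ v.asIdeal := by
    intro h2
    obtain ⟨t, ht⟩ := hy2
    have h4 : lam ^ Module.finrank F K ∈ v.asIdeal := by
      have h5 : lam ^ Module.finrank F K = y - 2 * (2 * t) := by linear_combination -ht
      rw [h5]
      exact v.asIdeal.sub_mem hyv (v.asIdeal.mul_mem_right _ h2)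
    have h6 : lam ∈ v.asIdeal := v.isPrime.mem_of_pow_mem _ h4
    apply h3
    have h7 : (3 : O) = (-om ^ 2 * lam) * lam := by unfold lam; linear_combination three_eq
    rw [h7]
    exact v.asIdeal.mul_mem_left _ h6
  have hg3 : Nm (gen v) % 4 = 3 := by
    have h4 : Odd (Nm (gen v)) := by
      apply S3_odd
      intro h
      apply h2
      rw [← gen_dvd_iff v h3]
      exact two_prime.irreducible.dvd_symm (gen_prime v h3).irreducible h
    obtain ⟨k, hk⟩ := h4
    omega
  have hz0 : Ideal.span {z} ≠ (0 : Ideal (𝓞 K)) := by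
    intro h
    rw [Ideal.zero_eq_bot, Ideal.span_singleton_eq_bot] at h
    rw [h, Algebra.intNorm_zero] at hy
    exact hy3.ne_zero hy
  obtain ⟨w, hw, hvw⟩ := S3_prime_over v (Ideal.span {z}) hz0 (by
    rw [Ideal.relNorm_singleton, Ideal.span_singleton_le_iff_mem]
    exact hyv)
  rw [Ideal.span_singleton_le_iff_mem] at hw
  have h2w : (2 : 𝓞 K) ∉ w.asIdeal := by
    intro h
    apply h2
    rw [hvw, Ideal.under_def, Ideal.mem_comap, map_ofNat]
    exact h
  have hdeg := hzd w h2w hw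
  have habs : Ideal.absNorm w.asIdeal = Ideal.absNorm v.asIdeal := by
    rw [absNorm_inertia K w v hvw, hdeg, pow_one]
  have hPsi : PsiT K w.asIdeal = (starRingEnd ℂ) (fe v) := by
    rw [PsiT_prime w v hvw, hdeg, pow_one, psiT_prime v h3]
  refine ⟨w, ?_, ?_, ?_, ?_⟩
  · intro v' hv' h
    have hvv : v' = v := HeightOneSpectrum.ext (h.trans hvw.symm)
    rw [hvv] at hv'
    exact hzP v hv' h2 hyv
  · intro v' hv'
    have hvv : v' = v := HeightOneSpectrum.ext (hv'.trans hvw.symm)
    rw [hvv]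
    exact a8b_good v h3 h2 hg3
  · rw [habs]
    exact a8b_absNorm_prime v h3 hg3
  · rw [hPsi]
    exact a8b_unit (a8b_good v h3 h2 hg3)

end H19T
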