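import Mathlib
import Pool.Agent.Lib.H19T.A8b

open NumberField IsDedekindDomain

namespace H19T

open H55B H35T H55N

/-- Chunk A8c (S), 2(m+1) smoothing primes. Copy of H55N/S4.lean with exists_smoothingT. -/
theorem exists_smoothT (K : Type) [Field K] [NumberField K] [Algebra F K]
    (hn : Odd (Module.finrank F K)) (m : ℕ) (Bad : Set (Ideal (𝓞 K))) (hB : Bad.Finite) :
    ∃ (c : Fin (m + 1) × Fin 2 → Ideal (𝓞 K)) (p : Fin (m + 1) × Fin 2 → ℕ), Smooth c p ∧
      (∀ i, (c i).IsPrime ∧ c i ∉ Bad) ∧ ∀ i, Unit3 (1 - PsiT K (c i)) := by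
  classical
  let S : Set ℕ := {p | p.Prime ∧ ∃ w : HeightOneSpectrum (𝓞 K), w.asIdeal ∉ Bad ∧
    Ideal.absNorm w.asIdeal = p ∧ Unit3 (1 - PsiT K w.asIdeal)}
  have hS : S.Infinite := by
    apply Set.infinite_of_forall_exists_gt
    intro N
    have h1 : {v : HeightOneSpectrum O | Ideal.absNorm v.asIdeal ≤ N}.Finite := s2_fin_norm N
    have h2 : {v : HeightOneSpectrum O | v.asIdeal ∈ (fun b : Ideal (𝓞 K) => b.under O) '' Bad}.Finite :=
      Set.Finite.preimage (fun v _ w _ h => HeightOneSpectrum.ext h) (hB.image _)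
    obtain ⟨w, hw, -, hwp, hw1⟩ := exists_smoothingT K hn (h1.union h2).toFinset
    obtain ⟨v, hv⟩ := H1_below w
    have hvP : v ∉ (h1.union h2).toFinset := fun h => hw v h hv
    rw [Set.Finite.mem_toFinset, Set.mem_union, not_or] at hvP
    refine ⟨Ideal.absNorm w.asIdeal, ⟨hwp, w, ?_, rfl, hw1⟩, ?_⟩
    · intro h
      exact hvP.2 ⟨w.asIdeal, h, hv.symm⟩
    · have h3 : ¬ Ideal.absNorm v.asIdeal ≤ N := hvP.1
      have h4 := absNorm_inertia K w v hv
      have h5 : w.asIdeal.inertiaDeg O ≠ 0 := by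
        intro h
        rw [h, pow_zero] at h4
        exact hwp.ne_one h4
      have h6 : Ideal.absNorm v.asIdeal ≤ Ideal.absNorm w.asIdeal := by
        rw [h4]
        exact Nat.le_self_pow h5 _
      omega
  let f : Fin (m + 1) × Fin 2 → ℕ := fun i => (hS.natEmbedding S (Encodable.encode i) : ℕ)
  have hf : Function.Injective f := by
    intro i j hij
    exact Encodable.encode_injective ((hS.natEmbedding S).injective (Subtype.ext hij))
  have hfS : ∀ i, f i ∈ S := fun i => (hS.natEmbedding S (Encodable.encode i)).2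
  choose hp w hwB hwn hw1 using hfS
  exact ⟨fun i => (w i).asIdeal, f, ⟨hwn, hp, hf⟩, fun i => ⟨(w i).isPrime, hwB i⟩,
    fun i => hw1 i⟩

end H19T
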