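import Mathlib
import Pool.Agent.Lib.H19T.Defs
import Pool.Agent.Lib.H55N.T0

open NumberField IsDedekindDomain

namespace H19T

open H55B H35T H55N

/-! Chunk A9a (S/M): first properties of Sub3. Adapt H55N/T0.lean (T0_above is reusable; H55C.inertia_pow: prove the analogue for 3, copy from H55C/B9.lean). -/

theorem inertia_pow3 {L : Type} [Field L] [NumberField L] [Algebra F L] (hG : IsGalois F L) (k : ℕ)
    (hk : Module.finrank F L = 3 ^ k) (w : HeightOneSpectrum (𝓞 L)) :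
    ∃ j : ℕ, w.asIdeal.inertiaDeg O = 3 ^ j := by
  have hp : (w.asIdeal.under O).IsPrime := inferInstance
  have hl : w.asIdeal.LiesOver (w.asIdeal.under O) := ⟨rfl⟩
  have hne : w.asIdeal.under O ≠ ⊥ := by
    intro h
    have h1 := Ideal.eq_bot_of_comap_eq_bot (R := O) (I := w.asIdeal) h
    exact w.ne_bot h1
  have hmax : (w.asIdeal.under O).IsMaximal := hp.isMaximal hne
  have h1 := Ideal.ncard_primesOver_mul_ramificationIdxIn_mul_inertiaDegIn (w.asIdeal.under O) (𝓞 L)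
    (L ≃ₐ[F] L)
  rw [IsGalois.card_aut_eq_finrank, hk,
    Ideal.inertiaDegIn_eq_inertiaDeg (w.asIdeal.under O) w.asIdeal (L ≃ₐ[F] L)] at h1
  have h2 : w.asIdeal.inertiaDeg O ∣ 3 ^ k := by
    rw [← h1]
    exact Dvd.intro_left _ (by rw [← mul_assoc])
  obtain ⟨j, _, hj⟩ := (Nat.dvd_prime_pow Nat.prime_three).1 h2
  exact ⟨j, hj⟩

variable {K : Type} [Field K] [NumberField K] [Algebra F K]

theorem Sub3.degree (h : Sub3 K) : ∃ k : ℕ, Module.finrank F K = 3 ^ k := by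
  obtain ⟨L, _, _, _, _, _, ⟨-, k, hk⟩, -⟩ := h
  have h1 := Module.finrank_mul_finrank F K L
  have h2 : Module.finrank F K ∣ 3 ^ k := by
    rw [← hk, ← h1]
    exact dvd_mul_right _ _
  obtain ⟨j, -, hj⟩ := (Nat.dvd_prime_pow Nat.prime_three).1 h2
  exact ⟨j, hj⟩

theorem Sub3.unr (h : Sub3 K) : H35T.UnrOut K := by
  obtain ⟨L, _, _, _, _, _, -, hU⟩ := h
  intro w v hv hg
  obtain ⟨W, hW, hW2⟩ := T0_above L w
  have h1 := hU W v (hv.trans hW2) hg
  have h2 := Ideal.ramificationIdx_tower (R := O) w.asIdeal W.asIdeal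
  rw [h1] at h2
  exact Nat.eq_one_of_mul_eq_one_right h2.symm

theorem Sub3.inertia (h : Sub3 K) (w : HeightOneSpectrum (𝓞 K)) :
    ∃ j : ℕ, w.asIdeal.inertiaDeg O = 3 ^ j := by
  obtain ⟨L, _, _, _, _, _, ⟨hG, k, hk⟩, -⟩ := h
  obtain ⟨W, hW, hW2⟩ := T0_above L w
  obtain ⟨j, hj⟩ := inertia_pow3 hG k hk W
  have h2 := Ideal.inertiaDeg_tower (R := O) w.asIdeal W.asIdeal
  have h3 : w.asIdeal.inertiaDeg O ∣ 3 ^ j := by
    rw [← hj, h2]
    exact dvd_mul_right _ _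
  obtain ⟨i, -, hi⟩ := (Nat.dvd_prime_pow Nat.prime_three).1 h3
  exact ⟨i, hi⟩

end H19T
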