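import Mathlib
import Pool.Agent.Lib.H35N.Core
import Pool.Agent.Lib.H55R.ChrT

/-! The interface: the 3-adic core (H35N, helper35) and the reciprocity law (H55R, helper55), in the
form used in TWF and Fin. -/

open NumberField IsDedekindDomain

namespace H19T

open H55B H35T H55N

theorem coreT (K : Type) [Field K] [NumberField K] [Algebra F K] (m : ℕ)
    (hm : Module.finrank F K = m + 1) (hK : H35T.UnrOut K) (b f : Ideal (𝓞 K)) (hb : b ≠ ⊥)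
    (hb6 : IsCoprime b (Ideal.span {6})) (hf : f ≠ ⊥) (hf6 : IsCoprime f (Ideal.span {6}))
    (c₀ : 𝓞 K) (hc : c₀ ∈ b) (hc' : c₀ ∉ Ideal.span {2} * b) :
    ∃ Bad : Set (Ideal (𝓞 K)), Bad.Finite ∧
      ∀ (c : Fin (m + 1) × Fin 2 → Ideal (𝓞 K)) (p : Fin (m + 1) × Fin 2 → ℕ), Smooth c p →
        (∀ i, c i ∉ Bad) → ∃ Z : ℂ → ℂ, AnalyticOnNhd ℂ Z {s | 1 / 2 < s.re} ∧
          (∀ T : Set (𝓞 K), Transv (Ideal.span {4} * f) (XS (Ideal.span {4} * f * b) c₀) T →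
            ∀ s : ℂ, 3 / 2 < s.re → HasSum (fun x : T => gw c p x * nfT s (x : 𝓞 K)) (Z s)) ∧
          Int3 (Z 1 / (e sq3 * R0) ^ (m + 1)) :=
  H35N.coreT K m hm hK b f hb hb6 hf hf6 c₀ hc hc'

theorem nopolesT (K : Type) [Field K] [NumberField K] [Algebra F K] (m : ℕ)
    (hm : Module.finrank F K = m + 1) (hodd : Odd (m + 1)) (hK : H35T.UnrOut K)
    (b f : Ideal (𝓞 K)) (hb : b ≠ ⊥)
    (hb6 : IsCoprime b (Ideal.span {6})) (hf : f ≠ ⊥) (hf6 : IsCoprime f (Ideal.span {6}))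
    (c₀ : 𝓞 K) (hc : c₀ ∈ b) (hc' : c₀ ∉ Ideal.span {2} * b) :
    ∃ Z : ℂ → ℂ, AnalyticOnNhd ℂ Z {s | 3 / 2 - 1 / (2 * (m + 1)) < s.re} ∧
      ∀ T : Set (𝓞 K), Transv (Ideal.span {4} * f) (XS (Ideal.span {4} * f * b) c₀) T →
        ∀ s : ℂ, 3 / 2 < s.re → HasSum (fun x : T => nfT s (x : 𝓞 K)) (Z s) :=
  H35N.nopolesT K m hm hodd b f hb hf c₀ hc hc'

theorem exists_chrT (K K' : Type) [Field K] [NumberField K] [Algebra F K] [Field K']
    [NumberField K'] [Algebra F K'] [Algebra K K'] [IsScalarTower F K K']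
    (h3 : Module.finrank K K' = 3) (hG : IsGalois K K') (hU : H35T.UnrOut K') :
    ∃ (f : Ideal (𝓞 K)) (χ : Ideal (𝓞 K) →*₀ ℂ), CChr f χ ∧ SplitC K K' χ :=
  H55R.exists_chrT K K' h3 hG hU

end H19T
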