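import Mathlib
import Pool.Agent.Lib.H19T.A1
import Pool.Agent.Lib.H19T.A6b
import Pool.Agent.Lib.H55N.TW

open NumberField IsDedekindDomain

namespace H19T

open H55B H35T H55N

/-! Assembly of the twisted L-value, p = 3 (helper19). -/

variable {K : Type} [Field K] [NumberField K] [Algebra F K]

/-- The hypotheses on the coefficients. -/
structure CoefT (f : Ideal (𝓞 K)) (ι : Type) (b : ι → Ideal (𝓞 K)) (c₀ : ι → 𝓞 K)
    (h : Ideal (𝓞 K) →*₀ ℂ) (κ : ι → ℂ) : Prop where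
  sup : ∀ a, h a ≠ 0 → a ≠ ⊥ ∧ IsCoprime a (Ideal.span {4} * f)
  nrm : ∀ a, ‖h a‖ ^ 2 ≤ Ideal.absNorm a
  kap : ∀ i, ∀ x ∈ XS (Ideal.span {4} * f * b i) (c₀ i), ∀ a : Ideal (𝓞 K),
    a * b i = Ideal.span {x} →
      x ≠ 0 ∧ h a = κ i * (kl (Algebra.intNorm O (𝓞 K) x) *
        (starRingEnd ℂ) (emb (Algebra.norm F (x : K))))

/-- The term. -/
theorem term_eqT {m : ℕ} (h : Ideal (𝓞 K) → ℂ) (κ : ℂ) (a b : Ideal (𝓞 K)) (x : 𝓞 K)
    (hx : x ≠ 0) (hab : a * b = Ideal.span {x})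
    (hh : h a = κ * (kl (Algebra.intNorm O (𝓞 K) x) *
      (starRingEnd ℂ) (emb (Algebra.norm F (x : K))))) (s : ℂ) :
    tm h s a = κ * (Ideal.absNorm b : ℂ) ^ s * nfT s x ∧
    ∀ (c : Fin (m + 1) × Fin 2 → Ideal (𝓞 K)) (p : Fin (m + 1) × Fin 2 → ℕ),
      (∀ i, (c i).IsPrime) → (∀ i, IsCoprime b (c i)) →
      (tm h s a * ∏ i, (open Classical in if a ≤ c i then 1 - (p i : ℂ) else 1)) =
        κ * (Ideal.absNorm b : ℂ) ^ s * (gw c p x * nfT s x) := by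
  classical
  have h1 := term_eq (m := m) h (κ * kl (Algebra.intNorm O (𝓞 K) x)) a b x hx hab
    (by rw [hh]; ring) s
  refine ⟨?_, ?_⟩
  · rw [h1.1]
    unfold nfT
    ring
  · intro c p hc hbc
    have h2 := h1.2 c p hc hbc
    have h3 : (tm h s a * ∏ i, (open Classical in if a ≤ c i then 1 - (p i : ℂ) else 1)) =
        κ * kl (Algebra.intNorm O (𝓞 K) x) * (Ideal.absNorm b : ℂ) ^ s * (gw c p x * nf s x) := h2
    rw [h3]
    unfold nfT
    ring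

theorem series_eqT {f : Ideal (𝓞 K)} {ι : Type} [Fintype ι] {b : ι → Ideal (𝓞 K)} {c₀ : ι → 𝓞 K}
    {T : ι → Set (𝓞 K)} (hcd : CDT f ι b c₀ T) {h : Ideal (𝓞 K) →*₀ ℂ} {κ : ι → ℂ}
    (hc : CoefT f ι b c₀ h κ) {m : ℕ} {c : Fin (m + 1) × Fin 2 → Ideal (𝓞 K)}
    {p : Fin (m + 1) × Fin 2 → ℕ} (hs : Smooth c p) (hcp : ∀ i, (c i).IsPrime)
    (hbc : ∀ i j, IsCoprime (b i) (c j)) (Z : ι → ℂ → ℂ) (s : ℂ) (hre : 3 / 2 < s.re)
    (hZ : ∀ i, HasSum (fun x : T i => gw c p x * nfT s (x : 𝓞 K)) (Z i s)) :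
    (∏ i, (1 - (p i : ℂ) * tm h s (c i))) * ∑' a, tm h s a =
      ∑ i, κ i * (Ideal.absNorm (b i) : ℂ) ^ s * Z i s := by
  classical
  have hsum : Summable fun a => ‖tmH h s a‖ := tm_summable h hc.nrm s hre
  have h1 := smooth_sum (tmH h s) hsum c hcp (TW_ne hs) (TW_inj hs) (fun i => (p i : ℂ))
  have h2 := cdT_hasSum f ι b c₀ T hcd
    (fun a => tmH h s a * ∏ i, (open Classical in if a ≤ c i then 1 - (p i : ℂ) else 1))
    (by
      intro a ha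
      have : h a ≠ 0 := by
        intro h0
        apply ha
        show tm h s a * _ = 0
        unfold tm
        rw [h0, zero_mul, zero_mul]
      exact hc.sup a this)
    (fun i x => κ i * (Ideal.absNorm (b i) : ℂ) ^ s * (gw c p x * nfT s x))
    (by
      intro i x hx a ha
      obtain ⟨hx0, hh⟩ := hc.kap i x ((hcd.trans i).sub hx) a ha
      have h3 := (term_eqT (m := m) h (κ i) a (b i) x hx0 ha hh s).2 c p hcp (fun j => hbc i j)
      rw [← h3]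
      rfl)
    (fun i => κ i * (Ideal.absNorm (b i) : ℂ) ^ s * Z i s)
    (fun i => (hZ i).mul_left _)
  exact h1.unique h2

theorem series_eq0T {f : Ideal (𝓞 K)} {ι : Type} [Fintype ι] {b : ι → Ideal (𝓞 K)}
    {c₀ : ι → 𝓞 K} {T : ι → Set (𝓞 K)} (hcd : CDT f ι b c₀ T) {h : Ideal (𝓞 K) →*₀ ℂ} {κ : ι → ℂ}
    (hc : CoefT f ι b c₀ h κ) (Z : ι → ℂ → ℂ) (s : ℂ)
    (hZ : ∀ i, HasSum (fun x : T i => nfT s (x : 𝓞 K)) (Z i s)) :
    HasSum (tm h s) (∑ i, κ i * (Ideal.absNorm (b i) : ℂ) ^ s * Z i s) := by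
  classical
  exact cdT_hasSum f ι b c₀ T hcd (tm h s)
    (by
      intro a ha
      have : h a ≠ 0 := by
        intro h0
        apply ha
        unfold tm
        rw [h0, zero_mul]
      exact hc.sup a this)
    (fun i x => κ i * (Ideal.absNorm (b i) : ℂ) ^ s * nfT s x)
    (by
      intro i x hx a ha
      obtain ⟨hx0, hh⟩ := hc.kap i x ((hcd.trans i).sub hx) a ha
      exact (term_eqT (m := 0) h (κ i) a (b i) x hx0 ha hh s).1)
    (fun i => κ i * (Ideal.absNorm (b i) : ℂ) ^ s * Z i s)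
    (fun i => (hZ i).mul_left _)

theorem TWT_cop4 {a : Ideal (𝓞 K)} (h6 : IsCoprime a (Ideal.span {(6 : 𝓞 K)})) :
    IsCoprime a (Ideal.span {(4 : 𝓞 K)}) := by
  have h2 : IsCoprime a (Ideal.span {(2 : 𝓞 K)}) := by
    have h63 : (Ideal.span {(6 : 𝓞 K)} : Ideal (𝓞 K)) = Ideal.span {2} * Ideal.span {3} := by
      rw [Ideal.span_singleton_mul_span_singleton]
      norm_num
    rw [h63] at h6
    exact h6.of_mul_right_left
  have h42 : (Ideal.span {(4 : 𝓞 K)} : Ideal (𝓞 K)) = Ideal.span {2} * Ideal.span {2} := by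
    rw [Ideal.span_singleton_mul_span_singleton]
    norm_num
  rw [h42]
  exact h2.mul_right h2

theorem coef_mulT {f : Ideal (𝓞 K)} {ι : Type} {b : ι → Ideal (𝓞 K)} {c₀ : ι → 𝓞 K}
    {χ : Ideal (𝓞 K) →*₀ ℂ} {κ : ι → ℂ} (h0 : ∀ a, ¬ IsCoprime a f → χ a = 0)
    (h1 : ∀ a, ‖χ a‖ ≤ 1)
    (hk : ∀ i, ∀ x ∈ XS (Ideal.span {4} * f * b i) (c₀ i), ∀ a : Ideal (𝓞 K),
      a * b i = Ideal.span {x} →
        x ≠ 0 ∧ (PsiT K * χ) a = κ i * (kl (Algebra.intNorm O (𝓞 K) x) *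
          (starRingEnd ℂ) (emb (Algebra.norm F (x : K))))) :
    CoefT f ι b c₀ (PsiT K * χ) κ where
  sup a ha := by
    have ha' : PsiT K a * χ a ≠ 0 := ha
    have hPsi : PsiT K a ≠ 0 := left_ne_zero_of_mul ha'
    have hchi : χ a ≠ 0 := right_ne_zero_of_mul ha'
    have hne : a ≠ ⊥ := by
      rintro rfl
      exact hchi (map_zero χ)
    refine ⟨hne, IsCoprime.mul_right (TWT_cop4 ((PsiT_ne a hne).1 hPsi)) ?_⟩
    by_contra h
    exact hchi (h0 a h)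
  nrm a := by
    show ‖PsiT K a * χ a‖ ^ 2 ≤ _
    rw [norm_mul, mul_pow]
    have h2 := PsiT_norm_le (K := K) a
    have h3 : ‖χ a‖ ^ 2 ≤ 1 := pow_le_one₀ (norm_nonneg _) (h1 a)
    calc ‖PsiT K a‖ ^ 2 * ‖χ a‖ ^ 2 ≤ ‖PsiT K a‖ ^ 2 * 1 :=
          mul_le_mul_of_nonneg_left h3 (by positivity)
      _ = ‖PsiT K a‖ ^ 2 := mul_one _
      _ ≤ _ := h2
  kap := hk

end H19T
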