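import Mathlib
import Pool.Agent.Lib.H19T.A11
import Pool.Agent.Lib.H19T.A12
import Pool.Agent.Lib.H19T.A5b
import Pool.Agent.Lib.H19T.A6
import Pool.Agent.Lib.H19T.A7
import Pool.Agent.Lib.H19T.A8c
import Pool.Agent.Lib.H19T.A9a
import Pool.Agent.Lib.H19T.Iface
import Pool.Agent.Lib.H19T.TW
import Pool.Agent.Lib.H55N.TWF

open NumberField IsDedekindDomain

namespace H19T

open H55B H35T H55N

/-! The twisted L-value, p = 3 (helper19). -/

variable {K : Type} [Field K] [NumberField K] [Algebra F K]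

theorem TWFT_cop {f : Ideal (𝓞 K)} {χ : Ideal (𝓞 K) →*₀ ℂ} (hχ : CChr f χ) :
    IsCoprime f (Ideal.span {(6 : 𝓞 K)}) := by
  rw [Ideal.isCoprime_iff_sup_eq]
  by_contra h
  obtain ⟨M, hM, hle⟩ := Ideal.exists_le_maximal _ h
  have hf : f ≤ M := le_sup_left.trans hle
  have h6 : (6 : 𝓞 K) ∈ M := hle (Ideal.mem_sup_right (Ideal.mem_span_singleton_self _))
  have hne : M ≠ ⊥ := by
    rintro rfl
    exact hχ.ne (le_bot_iff.1 hf)
  have hg := hχ.good ⟨M, hM.isPrime, hne⟩ (I2_under ⟨M, hM.isPrime, hne⟩) hf rfl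
  have h23 : (2 : 𝓞 K) * 3 ∈ M := by
    have e1 : (2 : 𝓞 K) * 3 = 6 := by norm_num
    rw [e1]
    exact h6
  rcases hM.isPrime.mem_or_mem h23 with h2 | h3
  · apply hg.1
    show algebraMap O (𝓞 K) 2 ∈ M
    rw [map_ofNat]
    exact h2
  · apply hg.2.1
    show algebraMap O (𝓞 K) 3 ∈ M
    rw [map_ofNat]
    exact h3

theorem TWFT_two {f b : Ideal (𝓞 K)} {c₀ : 𝓞 K}
    (hp : ∀ w : HeightOneSpectrum (𝓞 K), Ideal.span {4} * f ≤ w.asIdeal → c₀ ∉ w.asIdeal * b) :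
    c₀ ∉ Ideal.span {2} * b := by
  intro h
  have hprime := two_prime
  let v : HeightOneSpectrum O := ⟨Ideal.span {2},
    (Ideal.span_singleton_prime hprime.ne_zero).2 hprime, by
      rw [Ne, Ideal.span_singleton_eq_bot]; exact hprime.ne_zero⟩
  obtain ⟨w, hw⟩ := H55C.B6_exists (K := K) v
  have h1 : (2 : 𝓞 K) ∈ w.asIdeal := by
    have h2 : (2 : O) ∈ v.asIdeal := Ideal.mem_span_singleton_self _
    rw [hw, Ideal.mem_comap, map_ofNat] at h2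
    exact h2
  refine hp w ?_ ?_
  · refine (Ideal.mul_le_left : Ideal.span {(4 : 𝓞 K)} * f ≤ Ideal.span {(4 : 𝓞 K)}).trans ?_
    rw [Ideal.span_singleton_le_iff_mem]
    have h3 : (4 : 𝓞 K) = 2 * 2 := by norm_num
    rw [h3]
    exact Ideal.mul_mem_left _ _ h1
  · refine Ideal.mul_mono_left ?_ h
    rw [Ideal.span_singleton_le_iff_mem]
    exact h1

theorem LVT_twist (hS3 : Sub3 K) (f : Ideal (𝓞 K)) (χ : Ideal (𝓞 K) →*₀ ℂ)
    (hχ : CChr f χ) (hL : LVT (PsiT K)) : LVT (PsiT K * χ) := by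
  classical
  obtain ⟨k, hk⟩ := hS3.degree
  have hU := hS3.unr
  obtain ⟨m, hm2⟩ : ∃ m, 3 ^ k = m + 1 := ⟨3 ^ k - 1, by
    have := Nat.one_le_pow k 3 (by norm_num)
    omega⟩
  have hm : Module.finrank F K = m + 1 := hk.trans hm2
  have hodd : Odd (m + 1) := by
    rw [← hm2]
    exact Odd.pow (by decide)
  have hnodd : Odd (Module.finrank F K) := by rwa [hm]
  obtain ⟨ι, hι, b, c₀, T, hcd⟩ := exists_CDT f hχ.ne
  have hf6 := TWFT_cop hχ
  have h6 : ∀ i, IsCoprime (b i) (Ideal.span {(6 : 𝓞 K)}) := fun i => (hcd.cop i).of_mul_right_left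
  have h2 : ∀ i, c₀ i ∉ Ideal.span {2} * b i := fun i => TWFT_two (hcd.prim i)
  have hcore := fun i => coreT K m hm hU (b i) f (hcd.ne i) (h6 i) hχ.ne hf6 (c₀ i) (hcd.mem i)
    (h2 i)
  choose Bad hBad hcore using hcore
  have hnop := fun i => nopolesT K m hm hodd hU (b i) f (hcd.ne i) (h6 i) hχ.ne hf6 (c₀ i)
    (hcd.mem i) (h2 i)
  choose Z0 hZ0 hZ0s using hnop
  obtain ⟨c, p, hs, hcb, hun⟩ := exists_smoothT K hnodd m
    ((⋃ i, Bad i) ∪ ⋃ i, {w : Ideal (𝓞 K) | b i ≤ w})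
    ((Set.finite_iUnion hBad).union (Set.finite_iUnion fun i => TWF_finite (b i) (hcd.ne i)))
  have hcp : ∀ j, (c j).IsPrime := fun j => (hcb j).1
  have hbc : ∀ i j, IsCoprime (b i) (c j) := by
    intro i j
    rw [Ideal.isCoprime_iff_sup_eq]
    by_contra h
    have hmax : (c j).IsMaximal := (hcp j).isMaximal (TW_ne hs j)
    have h1 : c j ≤ b i ⊔ c j := le_sup_right
    have h2 : b i ⊔ c j = c j := (hmax.eq_of_le h h1).symm
    apply (hcb j).2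
    refine Or.inr (Set.mem_iUnion.2 ⟨i, ?_⟩)
    show b i ≤ c j
    rw [← h2]
    exact le_sup_left
  have hZex := fun i => hcore i c p hs (fun j hj => (hcb j).2 (Or.inl (Set.mem_iUnion.2 ⟨i, hj⟩)))
  choose Z hZa hZs hZi using hZex
  have hkap := fun i => exists_kappaT f χ hχ (b i) (hcd.ne i) (hcd.cop i) (c₀ i) (hcd.mem i)
    (hcd.prim i)
  choose κ κ' ζ hκu hζ hκζ hκ using hkap
  have hC : CoefT f ι b c₀ (PsiT K * χ) κ := coef_mulT hχ.zero hχ.norm_le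
    (fun i x hx a ha => ⟨(hκ i x hx a ha).1, (hκ i x hx a ha).2.1⟩)
  have hC' : CoefT f ι b c₀ (PsiT K * oneI f) κ' := coef_mulT (oneI_zero f) (oneI_norm_le f)
    (fun i x hx a ha => ⟨(hκ i x hx a ha).1, (hκ i x hx a ha).2.2⟩)
  have hNb : ∀ i, Ideal.absNorm (b i) ≠ 0 := fun i => by
    rw [Ne, Ideal.absNorm_eq_zero_iff]
    exact hcd.ne i
  -- the smoothed functions
  have hZsum : ∀ i s, 3 / 2 < s.re → HasSum (fun x : T i => gw c p x * nfT s (x : 𝓞 K)) (Z i s) :=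
    fun i s hs' => hZs i (T i) (hcd.trans i) s hs'
  have e1 : ∀ s : ℂ, 3 / 2 < s.re →
      (∏ j, (1 - (p j : ℂ) * tm (PsiT K * χ : Ideal (𝓞 K) →*₀ ℂ) s (c j))) *
      ∑' a, tm (PsiT K * χ : Ideal (𝓞 K) →*₀ ℂ) s a =
        ∑ i, κ i * (Ideal.absNorm (b i) : ℂ) ^ s * Z i s :=
    fun s hs' => series_eqT hcd hC hs hcp hbc Z s hs' fun i => hZsum i s hs'
  have e2 : ∀ s : ℂ, 3 / 2 < s.re →
      (∏ j, (1 - (p j : ℂ) * tm (PsiT K * oneI f : Ideal (𝓞 K) →*₀ ℂ) s (c j))) *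
      ∑' a, tm (PsiT K * oneI f : Ideal (𝓞 K) →*₀ ℂ) s a =
        ∑ i, κ' i * (Ideal.absNorm (b i) : ℂ) ^ s * Z i s :=
    fun s hs' => series_eqT hcd hC' hs hcp hbc Z s hs' fun i => hZsum i s hs'
  have e3 : ∀ s : ℂ, 3 / 2 < s.re → HasSum (tm (PsiT K * χ : Ideal (𝓞 K) →*₀ ℂ) s)
      (∑ i, κ i * (Ideal.absNorm (b i) : ℂ) ^ s * Z0 i s) :=
    fun s hs' => series_eq0T hcd hC Z0 s fun i => hZ0s i (T i) (hcd.trans i) s hs'
  have hGa : ∀ κ : ι → ℂ, AnalyticOnNhd ℂ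
      (fun s : ℂ => ∑ i, κ i * (Ideal.absNorm (b i) : ℂ) ^ s * Z i s) {s | 1 / 2 < s.re} := by
    intro κ s hs'
    exact Finset.analyticAt_fun_sum _ fun i _ =>
      (analyticAt_const.mul (TW_pow_analytic _ (hNb i) Set.univ s trivial)).mul (hZa i s hs')
  have hZ0a : AnalyticOnNhd ℂ
      (fun s : ℂ => ∑ i, κ i * (Ideal.absNorm (b i) : ℂ) ^ s * Z0 i s)
      {s | 3 / 2 - 1 / (2 * (m + 1 : ℝ)) < s.re} := by
    intro s hs'
    exact Finset.analyticAt_fun_sum _ fun i _ =>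
      (analyticAt_const.mul (TW_pow_analytic _ (hNb i) Set.univ s trivial)).mul (hZ0 i s hs')
  have hPa : ∀ h : Ideal (𝓞 K) →*₀ ℂ, AnalyticOnNhd ℂ
      (fun s : ℂ => ∏ j, (1 - (p j : ℂ) * tm h s (c j))) {s | 1 / 2 < s.re} := by
    intro h s hs'
    exact Finset.analyticAt_fun_prod _ fun j _ =>
      (analyticAt_const.sub (analyticAt_const.mul
        (TW_tm_analytic h (c j) (TW_ne hs j) Set.univ s trivial)))
  obtain ⟨Λ, hΛa, hΛ, hΛG⟩ := glue (1 / (2 * (m + 1 : ℝ))) (by positivity)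
    (fun s : ℂ => ∑ i, κ i * (Ideal.absNorm (b i) : ℂ) ^ s * Z i s)
    (fun s : ℂ => ∑ i, κ i * (Ideal.absNorm (b i) : ℂ) ^ s * Z0 i s)
    (fun s : ℂ => ∏ j, (1 - (p j : ℂ) * tm (PsiT K * χ : Ideal (𝓞 K) →*₀ ℂ) s (c j)))
    (hGa κ) hZ0a (hPa _)
    (fun s hs' => Finset.prod_ne_zero_iff.2 fun j _ => P_neT f χ hχ (c j) (p j) (hs.prime j)
      (hs.norm j) s hs')
    (fun s hs' => by
      show _ = _ * _
      rw [← e1 s hs', (e3 s hs').tsum_eq])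
  refine ⟨Λ, hΛa, fun s hs' => ?_, ?_⟩
  · rw [hΛ s hs']
    exact e3 s hs'
  -- the value at 1
  obtain ⟨ΛK, hKa, hKs, hKu⟩ := hL
  obtain ⟨S, hS, hSs⟩ := one_sumT K f hχ.ne
  have e4 : ∀ s : ℂ, 1 / 2 < s.re →
      (∑ i, κ' i * (Ideal.absNorm (b i) : ℂ) ^ s * Z i s) =
      (∏ j, (1 - (p j : ℂ) * tm (PsiT K * oneI f : Ideal (𝓞 K) →*₀ ℂ) s (c j))) *
        ((∏ w ∈ S, (1 - tm (PsiT K) s w.asIdeal)) * ΛK s) := by
    intro s hs'
    refine ident (fun s : ℂ => ∑ i, κ' i * (Ideal.absNorm (b i) : ℂ) ^ s * Z i s)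
      (fun s : ℂ => (∏ j, (1 - (p j : ℂ) * tm (PsiT K * oneI f : Ideal (𝓞 K) →*₀ ℂ) s (c j))) *
        ((∏ w ∈ S, (1 - tm (PsiT K) s w.asIdeal)) * ΛK s)) (hGa κ') ?_ ?_ s hs'
    · refine (hPa _).mul (AnalyticOnNhd.mul ?_ hKa)
      intro z hz
      exact Finset.analyticAt_fun_prod _ fun w _ =>
        (analyticAt_const.sub (TW_tm_analytic (PsiT K) w.asIdeal w.ne_bot Set.univ z trivial))
    · intro z hz
      show _ = _ * (_ * _)
      rw [← e2 z hz, (hSs z hz).tsum_eq, (hKs z hz).tsum_eq]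
  have h1re : (1 / 2 : ℝ) < (1 : ℂ).re := by norm_num
  have u1 : Unit3 (∏ j, (1 - (p j : ℂ) * tm (PsiT K * χ : Ideal (𝓞 K) →*₀ ℂ) 1 (c j))) := by
    refine Unit3.prod _ _ fun j _ => factorT χ (c j) (p j) (hs.prime j) (hs.norm j) (hun j) ?_
    by_cases hj : IsCoprime (c j) f
    · exact Or.inl (hχ.val _ (TW_ne hs j) hj)
    · exact Or.inr (hχ.zero _ hj)
  have u2 : Unit3 (∏ j, (1 - (p j : ℂ) * tm (PsiT K * oneI f : Ideal (𝓞 K) →*₀ ℂ) 1 (c j))) := by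
    refine Unit3.prod _ _ fun j _ => factorT (oneI f) (c j) (p j) (hs.prime j) (hs.norm j)
      (hun j) ?_
    rcases oneI_eq f (c j) with h | h
    · exact Or.inl (by rw [h, one_pow])
    · exact Or.inr h
  have u3 : Unit3 (∏ w ∈ S, (1 - tm (PsiT K) 1 w.asIdeal)) := by
    exact Unit3.prod _ _ fun w hw => Efac_unitT K w (I2_under w) rfl
      (hχ.good w (I2_under w) ((hS w).1 hw) rfl) (hS3.inertia w)
  have u4 : Unit3 ((∑ i, κ' i * (Ideal.absNorm (b i) : ℂ) ^ (1 : ℂ) * Z i 1) /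
      (e sq3 * R0) ^ Module.finrank F K) := by
    rw [e4 1 h1re, mul_div_assoc, mul_div_assoc]
    exact u2.mul (u3.mul hKu)
  have u5 : Unit3 ((∑ i, κ i * (Ideal.absNorm (b i) : ℂ) ^ (1 : ℂ) * Z i 1) /
      (e sq3 * R0) ^ Module.finrank F K) := by
    have : (∑ i, κ i * (Ideal.absNorm (b i) : ℂ) ^ (1 : ℂ) * Z i 1) /
        (e sq3 * R0) ^ Module.finrank F K =
        (∑ i, κ' i * (Ideal.absNorm (b i) : ℂ) ^ (1 : ℂ) * Z i 1) /
          (e sq3 * R0) ^ Module.finrank F K +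
        ∑ i, (ζ i - 1) * (κ' i * ((Ideal.absNorm (b i) : ℕ) : ℂ) *
          (Z i 1 / (e sq3 * R0) ^ (m + 1))) := by
      rw [hm, Finset.sum_div, Finset.sum_div, ← Finset.sum_add_distrib]
      refine Finset.sum_congr rfl fun i _ => ?_
      rw [hκζ i, Complex.cpow_one]
      ring
    rw [this]
    exact Unit3_add u4 (Max3_sum _ _ fun i _ => Max3_mul (Max3_root (hζ i))
      (Int3_mul (Int3_mul (Int3_of_unit (hκu i)) (Int3_nat _)) (hZi i)))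
  have e5 := hΛG 1 h1re
  have hne := u1.ne_zero
  have : Λ 1 / (e sq3 * R0) ^ Module.finrank F K =
      ((∑ i, κ i * (Ideal.absNorm (b i) : ℂ) ^ (1 : ℂ) * Z i 1) /
        (e sq3 * R0) ^ Module.finrank F K) *
      (∏ j, (1 - (p j : ℂ) * tm (PsiT K * χ : Ideal (𝓞 K) →*₀ ℂ) 1 (c j)))⁻¹ := by
    rw [e5]
    field_simp
  rw [this]
  exact u5.mul u1.inv

end H19T
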