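import Mathlib
import Pool.Agent.Lib.H13E.Fin3
import Pool.Agent.Lib.H19T.A10
import Pool.Agent.Lib.H19T.A4
import Pool.Agent.Lib.H19T.A9b
import Pool.Agent.Lib.H19T.TWF

open NumberField IsDedekindDomain

namespace H19T

open H55B H35T H55N

/-! Induction over the tower and the theorem, p = 3 (helper19). -/

theorem LVT_step (K K' : Type) [Field K] [NumberField K] [Algebra F K] [Field K'] [NumberField K']
    [Algebra F K'] [Algebra K K'] [IsScalarTower F K K'] (h3 : Module.finrank K K' = 3)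
    (hG : IsGalois K K') (hS : Sub3 K) (hU' : H35T.UnrOut K') (h : LVT (PsiT K)) :
    LVT (PsiT K') := by
  obtain ⟨f, χ, hf, hχ⟩ := exists_chrT K K' h3 hG hU'
  exact LVT_of_step K K' h3 f χ hf hχ h (LVT_twist hS f χ hf h) (LVT_twist hS f (χ * χ) hf.sq h)

theorem LVT_all (k : ℕ) : ∀ (K : Type) [Field K] [NumberField K] [Algebra F K], Sub3 K →
    Module.finrank F K = 3 ^ k → LVT (PsiT K) := by
  induction k with
  | zero =>
    intro K _ _ _ _ hk
    exact LVT_base K (by rw [hk, pow_zero])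
  | succ k ih =>
    intro K' _ _ _ hS hk
    obtain ⟨K, i1, i2, i3, i4, i5, hSK, h3, hG⟩ := exists_sub3 K' hS (by
      rw [hk]
      have := Nat.one_le_pow k 3 (by norm_num)
      rw [pow_succ]
      omega)
    have h4 : Module.finrank F K = 3 ^ k := by
      have h5 := Module.finrank_mul_finrank F K K'
      rw [h3, hk, pow_succ] at h5
      exact Nat.eq_of_mul_eq_mul_right (by norm_num) h5
    exact LVT_step K K' h3 hG hSK hS.unr (ih K hSK h4)

/-- The L-series over every field of the class. -/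
theorem LVT_sub (K : Type) [Field K] [NumberField K] [Algebra F K] (hS : Sub3 K) :
    LVT (PsiT K) := by
  obtain ⟨k, hk⟩ := hS.degree
  exact LVT_all k K hS hk

/-- shaAn_unit of H35T without the hypothesis that K/F is Galois. -/
theorem shaAn_unitT (K : Type) [Field K] [NumberField K] [Algebra F K] (hK : H35T.UnrOut K)
    (hE : ¬ 3 ∣ Nat.card (E144.baseChange K).toAffine.Point) (L1 : ℂ)
    (hL : Unit3 (L1 / (3 * R (e om - 1) * (starRingEnd ℂ) (R (e om - 1))) ^ Module.finrank F K))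
    (L : PeriodPair) (h2 : L.g₂ = 0) (h3 : L.g₃ = 4) : Unit3 (H35T.shaAn K L L1) := by
  rw [← H55C.complex_places] at hL
  have hp := H35T.period_unit L h2 h3
  have hc : 3 * R (e om - 1) * (starRingEnd ℂ) (R (e om - 1)) ≠ 0 :=
    mul_ne_zero (mul_ne_zero (by norm_num) H35T.R0_ne) ((map_ne_zero _).2 H35T.R0_ne)
  have hE' := (Unit3.nat hE).pow 2
  obtain ⟨m, hm3, hD⟩ := discr_val K hK
  have hs := W13_sqrt _ _ _ hm3 hD
  rw [← H55C.complex_places] at hs
  have ht := W13_tam K hK
  have hall := ((((hL.mul (hp.pow (InfinitePlace.nrComplexPlaces K))).mul hs).mul hE')).div ht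
  set n := InfinitePlace.nrComplexPlaces K with hn
  set c := 3 * R (e om - 1) * (starRingEnd ℂ) (R (e om - 1)) with hcdef
  have hOm : (H35T.Om L : ℂ) ≠ 0 := by
    intro h0
    apply hp.ne_zero
    rw [h0, div_zero, zero_mul]
  have heq : H35T.shaAn K L L1 = L1 / c ^ n * (c / (H35T.Om L : ℂ) * e sq3) ^ n *
      (((Real.sqrt |(NumberField.discr K : ℝ)| : ℝ) : ℂ) / e sq3 ^ n) *
      (Nat.card (E144.baseChange K).toAffine.Point : ℂ) ^ 2 /
      (∏ᶠ w : HeightOneSpectrum (𝓞 K), (H35T.tam K w : ℂ)) := by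
    unfold H35T.shaAn
    rw [← hn]
    exact W13_alg _ _ _ _ _ _ _ _ hc hOm W13_sq3 ht.ne_zero
  rw [heq]
  exact hall

theorem selThree_sub (K : Type) [Field K] [NumberField K] [Algebra F K] (hS : Sub3 K) :
    H13E.SelThree K := by
  obtain ⟨L, _, _, _, _, _, ⟨hG, hk⟩, hU⟩ := hS
  exact H13E.main2 K ⟨L, inferInstance, inferInstance, inferInstance, inferInstance, hG, hk, hU⟩

/-- THEOREM, p = 3, for all subfields (containing F) of Galois 3-extensions of F unramified outside the good primes. -/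
theorem bsdThree_sub (K : Type) [Field K] [NumberField K] [Algebra F K] (hS : Sub3 K) :
    BSDThree K := by
  obtain ⟨s1, -, s3, s4⟩ := selThree_sub K hS
  obtain ⟨Λ, a1, a2, a3, a4⟩ := L_valT K hS.unr (LVT_sub K hS)
  exact ⟨⟨s1, s3, s4⟩, H13E.exists_period, Λ, a1, a2, a3,
    fun L g2 g3 => shaAn_unitT K hS.unr s4 (Λ 1) a4 L g2 g3⟩

end H19T
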