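import Mathlib
import Pool.Agent.Lib.H35T.Defs
import Pool.Agent.Lib.H55B.Z1
import Pool.Agent.Lib.H55N.B1

open NumberField IsDedekindDomain

namespace H19T

open H55B H35T H55N

/-! Definitions for the wreath product part, p = 3. -/

variable (K K' : Type) [Field K] [NumberField K] [Algebra F K] [Field K'] [NumberField K']
  [Algebra F K'] [Algebra K K']

/-- beta = 1 mod 9 has valuation prime to 3 exactly at w, w', two primes above different good primes, w split over F. -/
structure Beta3 (β : 𝓞 K) (w w' : HeightOneSpectrum (𝓞 K)) : Prop where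
  nine : (9 : 𝓞 K) ∣ β - 1
  odd : ∃ k : ℤ, w.valuation K (β : K) = WithZero.exp (3 * k + 1)
  even : ∀ p : HeightOneSpectrum (𝓞 K), p ≠ w → p ≠ w' →
    ∃ k : ℤ, p.valuation K (β : K) = WithZero.exp (3 * k)
  ne : w.asIdeal.under O ≠ w'.asIdeal.under O
  deg : w.asIdeal.inertiaDeg O = 1
  unr : w.asIdeal.ramificationIdx O = 1
  good : ∀ v : HeightOneSpectrum O, v.asIdeal = w.asIdeal.under O → H35T.Good v
  good' : ∀ v : HeightOneSpectrum O, v.asIdeal = w'.asIdeal.under O → H35T.Good v

/-- K' is generated over K by the cube roots r g of the conjugates of beta. -/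
structure Wr3 (β : 𝓞 K) (r : (K ≃ₐ[F] K) → K') : Prop where
  cube : ∀ g, r g ^ 3 = algebraMap K K' (g (β : K))
  gen : Algebra.adjoin K (Set.range r) = ⊤
  gal : IsGalois F K'

/-- The cyclic group of order 3. -/
abbrev C3 : Type := Multiplicative (ZMod 3)

/-- The image of om in a field over F: a primitive cube root of unity. -/
theorem om_prim (L : Type) [Field L] [CharZero L] [Algebra F L] :
    (algebraMap F L (om : F)) ^ 2 + algebraMap F L (om : F) + 1 = 0 := by
  have h := om_rel
  have h1 : ((om : F)) ^ 2 + (om : F) + 1 = 0 := by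
    have := congrArg (algebraMap O F) h
    simpa using this
  have h2 := congrArg (algebraMap F L) h1
  simpa using h2

end H19T
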