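import Mathlib
import Pool.Agent.Lib.H19T.WD
import Pool.Agent.Lib.H19T.A8b
import Pool.Agent.Lib.H55N.WR1

open NumberField IsDedekindDomain

namespace H19T

open H55B H35T H55N

theorem tv1_fin {K : Type} [Field K] [NumberField K] [Algebra F K] (hT : ThreeExt K) (B : ℕ)
    (P : Finset (HeightOneSpectrum O)) :
    ∃ w : HeightOneSpectrum (𝓞 K), (∀ v ∈ P, v.asIdeal ≠ w.asIdeal.under O) ∧
      (∀ v : HeightOneSpectrum O, v.asIdeal = w.asIdeal.under O → H35T.Good v) ∧
      w.asIdeal.inertiaDeg O = 1 ∧ w.asIdeal.ramificationIdx O = 1 ∧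
      B < Ideal.absNorm w.asIdeal := by
  classical
  have h3 : Odd (Module.finrank F K) := by
    obtain ⟨k, hk⟩ := hT.2
    rw [hk]
    exact (by decide : Odd 3).pow
  have hd0 : Ideal.span {((discr K : ℤ) : O)} ≠ 0 := by
    rw [Ne, Ideal.zero_eq_bot, Ideal.span_singleton_eq_bot]
    exact_mod_cast discr_ne_zero K
  have hS1 : {v : HeightOneSpectrum O | v.asIdeal ∣ Ideal.span {((discr K : ℤ) : O)}}.Finite :=
    Ideal.finite_factors hd0
  have hS2 : {v : HeightOneSpectrum O | Ideal.absNorm v.asIdeal ≤ B}.Finite := by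
    refine Set.Finite.preimage (f := HeightOneSpectrum.asIdeal)
      (fun v _ v' _ h => HeightOneSpectrum.ext h) (Ideal.finite_setOf_absNorm_le B)
  obtain ⟨w, hw1, hw2, hw3, -⟩ := exists_smoothingT K h3 (P ∪ (hS1.toFinset ∪ hS2.toFinset))
  have hwm := w.isMaximal
  let v : HeightOneSpectrum O := HeightOneSpectrum.under O w
  have hv : v.asIdeal = w.asIdeal.under O := rfl
  have hnorm := absNorm_inertia K w v hv
  have hf : w.asIdeal.inertiaDeg O = 1 := by
    rw [hnorm] at hw3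
    exact hw3.eq_one_of_pow
  rw [hf, pow_one] at hnorm
  refine ⟨w, fun v' hv' => hw1 v' (Finset.mem_union_left _ hv'), hw2, hf, ?_, ?_⟩
  · have h4 : ¬ ((Ideal.absNorm w.asIdeal : ℕ) : ℤ) ∣ discr K := by
      intro h
      apply hw1 v _ hv
      apply Finset.mem_union_right
      apply Finset.mem_union_left
      rw [Set.Finite.mem_toFinset]
      show v.asIdeal ∣ _
      rw [Ideal.dvd_span_singleton]
      obtain ⟨c, hc⟩ := h
      rw [hc, Int.cast_mul, Int.cast_natCast, hnorm]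
      exact v.asIdeal.mul_mem_right _ (Ideal.absNorm_mem _)
    have h5 := (NumberField.not_dvd_discr_iff_forall_mem K (𝓞 K)
      (Nat.prime_iff_prime_int.1 hw3)).1 h4 w.asIdeal w.isPrime (by
        rw [Int.cast_natCast]
        exact Ideal.absNorm_mem _)
    have h6 : w.asIdeal.ramificationIdx ℤ = 1 := by
      have := w.isPrime
      exact Ideal.ramificationIdx_eq_one_iff.2 h5
    have ht := Ideal.ramificationIdx_tower (R := ℤ) (w.asIdeal.under O) w.asIdeal
    rw [h6] at ht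
    exact Nat.eq_one_of_mul_eq_one_left ht.symm
  · by_contra h
    apply hw1 v _ hv
    apply Finset.mem_union_right
    apply Finset.mem_union_right
    rw [Set.Finite.mem_toFinset]
    show Ideal.absNorm v.asIdeal ≤ B
    rw [← hnorm]
    omega

/-- Chunk W1 (M), pigeonhole. Adapt H55N/WR1.lean (WR1_cnt and its rules are reusable; WR1_fin with exists_smoothingT, the degree 3^k is odd).
J prime to 3, x_w prime to 9, pigeonhole modulo 9, y x_w = 1 mod 9, a = y x_w', a' = y x_w, both 1 mod 9; beta = a * a'^2: from (a) w = (a') w' the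
valuation of a is that of a' plus [p = w'] minus [p = w], so the order of beta at p is 3 times that of a' plus [p = w'] minus [p = w]. -/
theorem exists_beta3 (K : Type) [Field K] [NumberField K] [Algebra F K] (hT : ThreeExt K) (B : ℕ) :
    ∃ (β : 𝓞 K) (w w' : HeightOneSpectrum (𝓞 K)), Beta3 K β w w' ∧
      B < Ideal.absNorm w.asIdeal ∧ B < Ideal.absNorm w'.asIdeal := by
  classical
  set V : Set (HeightOneSpectrum O) := {v | ∃ w : HeightOneSpectrum (𝓞 K),
    v.asIdeal = w.asIdeal.under O ∧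
      (∀ v : HeightOneSpectrum O, v.asIdeal = w.asIdeal.under O → H35T.Good v) ∧
      w.asIdeal.inertiaDeg O = 1 ∧ w.asIdeal.ramificationIdx O = 1 ∧
      B < Ideal.absNorm w.asIdeal} with hV
  have hVinf : V.Infinite := by
    intro hfin
    obtain ⟨w, hw1, hw2⟩ := tv1_fin hT B hfin.toFinset
    apply hw1 (HeightOneSpectrum.under O w) _ rfl
    rw [Set.Finite.mem_toFinset]
    exact ⟨w, rfl, hw2⟩
  haveI : Infinite V := hVinf.to_subtype
  choose W hW1 hW2 using fun v : V => v.2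
  have h30 : (Ideal.span {(3 : 𝓞 K)}) ≠ ⊥ := by
    rw [Ne, Ideal.span_singleton_eq_bot]
    intro h
    norm_num at h
  choose b hb hcop hcl using exists_rep (K := K) (Ideal.span {3}) h30
  let κ : V → ClassGroup (𝓞 K) := fun v =>
    (ClassGroup.mk0 ⟨(W v).asIdeal, mem_nonZeroDivisors_iff_ne_zero.2 (W v).ne_bot⟩)⁻¹
  have hprin : ∀ v : V, ∃ x : 𝓞 K, (W v).asIdeal * b (κ v) = Ideal.span {x} := by
    intro v
    have h1 : ClassGroup.mk0 (⟨(W v).asIdeal, mem_nonZeroDivisors_iff_ne_zero.2 (W v).ne_bot⟩ *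
        ⟨b (κ v), mem_nonZeroDivisors_iff_ne_zero.2 (hb (κ v))⟩) = 1 := by
      rw [map_mul, hcl]
      exact mul_inv_cancel _
    have h2 := (ClassGroup.mk0_eq_one_iff _).1 h1
    obtain ⟨x, hx⟩ := h2.principal
    exact ⟨x, hx⟩
  choose x hx using hprin
  have hxcop : ∀ v : V, IsCoprime (x v) 9 := by
    intro v
    have h1 : IsCoprime (W v).asIdeal (Ideal.span {(3 : 𝓞 K)}) := by
      have hm := (W v).isMaximal
      have h2 : (3 : 𝓞 K) ∉ (W v).asIdeal := by
        intro h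
        apply ((hW2 v).1 _ (hW1 v)).2.1
        rw [hW1 v]
        show algebraMap O (𝓞 K) 3 ∈ (W v).asIdeal
        rw [map_ofNat]
        exact h
      obtain ⟨y, i, hi, hyi⟩ := hm.exists_inv h2
      rw [Ideal.isCoprime_iff_exists]
      exact ⟨i, hi, y * 3, Ideal.mul_mem_left _ y (Ideal.mem_span_singleton_self (3 : 𝓞 K)), by
        rw [add_comm]; exact hyi⟩
    have h2 := IsCoprime.mul_left h1 (hcop (κ v))
    rw [hx, Ideal.isCoprime_span_singleton_iff] at h2
    have h3 := h2.pow_right (n := 2)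
    have h4 : (3 : 𝓞 K) ^ 2 = 9 := by norm_num
    rwa [h4] at h3
  have h40 : Ideal.span {(9 : 𝓞 K)} ≠ ⊥ := by
    rw [Ne, Ideal.span_singleton_eq_bot]
    intro h
    norm_num at h
  haveI : Finite (𝓞 K ⧸ Ideal.span {(9 : 𝓞 K)}) := Ideal.finiteQuotientOfFreeOfNeBot _ h40
  haveI : Finite (ClassGroup (𝓞 K)) := inferInstance
  obtain ⟨v1, v2, hne, heq⟩ := Finite.exists_ne_map_eq_of_infinite
    (fun v : V => (κ v, Ideal.Quotient.mk (Ideal.span {(9 : 𝓞 K)}) (x v)))
  obtain ⟨hκ, hmk⟩ := Prod.ext_iff.1 heq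
  simp only at hκ hmk
  rw [Ideal.Quotient.eq, Ideal.mem_span_singleton] at hmk
  obtain ⟨t, ht⟩ := hmk
  obtain ⟨y, z, hyz⟩ := hxcop v1
  have hyz2 := hyz
  have hy0 : y ≠ 0 := by
    rintro rfl
    rw [zero_mul, zero_add] at hyz
    have h1 : IsUnit (9 : 𝓞 K) := IsUnit.of_mul_eq_one z (by rw [mul_comm]; exact hyz)
    have h2 : (3 : 𝓞 K) ^ 2 = 9 := by norm_num
    rw [← h2] at h1
    have h3 := (isUnit_pow_iff two_ne_zero).1 h1
    have h6 := (isUnit_iff_norm (x := (3 : 𝓞 K))).1 h3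
    have h7 : Algebra.norm ℚ ((3 : 𝓞 K) : K) = 3 ^ Module.finrank ℚ K := by
      have h8 : ((3 : 𝓞 K) : K) = algebraMap ℚ K 3 := by
        rw [map_ofNat]
        rfl
      rw [h8, Algebra.norm_algebraMap]
    rw [RingOfIntegers.coe_norm, h7] at h6
    have h9 : Module.finrank ℚ K ≠ 0 := (Module.finrank_pos (R := ℚ) (M := K)).ne'
    have h10 : (1 : ℚ) < 3 ^ Module.finrank ℚ K := one_lt_pow₀ (by norm_num) h9
    rw [abs_of_pos (by positivity)] at h6
    linarith
  have hx0 : ∀ v, x v ≠ 0 := by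
    intro v h
    have h1 := hx v
    rw [h] at h1
    have h2 : (W v).asIdeal * b (κ v) = ⊥ := by rw [h1]; simp
    rcases Ideal.mul_eq_bot.1 h2 with h3 | h3
    · exact (W v).ne_bot h3
    · exact hb _ h3
  have hcx : ∀ (p : HeightOneSpectrum (𝓞 K)) (v : V), WR1_cnt p (Ideal.span {x v}) =
      WR1_cnt p (W v).asIdeal + WR1_cnt p (b (κ v)) := by
    intro p v
    rw [← hx, WR1_cnt_mul p (W v).ne_bot (hb _)]
  have hβ0 : (y * x v2) * ((y * x v1) * (y * x v1)) ≠ 0 :=
    mul_ne_zero (mul_ne_zero hy0 (hx0 _)) (mul_ne_zero (mul_ne_zero hy0 (hx0 _))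
      (mul_ne_zero hy0 (hx0 _)))
  have hs : ∀ {a : 𝓞 K}, a ≠ 0 → Ideal.span {a} ≠ ⊥ := fun ha => by
    rw [Ne, Ideal.span_singleton_eq_bot]
    exact ha
  have hcβ : ∀ p : HeightOneSpectrum (𝓞 K),
      WR1_cnt p (Ideal.span {(y * x v2) * ((y * x v1) * (y * x v1))}) =
      3 * (WR1_cnt p (Ideal.span {y}) + WR1_cnt p (b (κ v1))) +
        (2 * WR1_cnt p (W v1).asIdeal + WR1_cnt p (W v2).asIdeal) := by
    intro p
    have e1 : ∀ v, WR1_cnt p (Ideal.span {y * x v}) =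
        WR1_cnt p (Ideal.span {y}) + (WR1_cnt p (W v).asIdeal + WR1_cnt p (b (κ v))) := by
      intro v
      rw [← Ideal.span_singleton_mul_span_singleton, WR1_cnt_mul p (hs hy0) (hs (hx0 _)), hcx]
    rw [← Ideal.span_singleton_mul_span_singleton (y * x v2),
      ← Ideal.span_singleton_mul_span_singleton (y * x v1),
      WR1_cnt_mul p (hs (mul_ne_zero hy0 (hx0 _)))
        (mul_ne_zero (hs (mul_ne_zero hy0 (hx0 _))) (hs (mul_ne_zero hy0 (hx0 _)))),
      WR1_cnt_mul p (hs (mul_ne_zero hy0 (hx0 _))) (hs (mul_ne_zero hy0 (hx0 _))),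
      e1, e1, ← hκ]
    ring
  have hWne : W v1 ≠ W v2 := by
    intro h
    apply hne
    apply Subtype.ext
    apply HeightOneSpectrum.ext
    rw [hW1 v1, hW1 v2, h]
  refine ⟨(y * x v2) * ((y * x v1) * (y * x v1)), W v1, W v2, ?_, (hW2 v1).2.2.2, (hW2 v2).2.2.2⟩
  refine ⟨?_, ?_, ?_, ?_, (hW2 v1).2.1, (hW2 v1).2.2.1, (hW2 v1).1, (hW2 v2).1⟩
  · refine ⟨-(z + y * t) * (1 - 9 * z) ^ 2 - 2 * z + 9 * z ^ 2, ?_⟩
    have e1 : y * x v1 = 1 - 9 * z := by linear_combination hyz2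
    have e2 : y * x v2 = 1 - 9 * (z + y * t) := by
      linear_combination hyz2 - y * ht
    rw [e1, e2]
    ring
  · refine ⟨-(WR1_cnt (W v1) (Ideal.span {y}) + WR1_cnt (W v1) (b (κ v1)) : ℕ) - 1, ?_⟩
    rw [WR1_val _ hβ0, hcβ, WR1_cnt_self, WR1_cnt_ne _ _ hWne]
    congr 1
    push_cast
    ring
  · intro p h1 h2
    refine ⟨-(WR1_cnt p (Ideal.span {y}) + WR1_cnt p (b (κ v1)) : ℕ), ?_⟩
    rw [WR1_val _ hβ0, hcβ, WR1_cnt_ne _ _ h1, WR1_cnt_ne _ _ h2]
    congr 1
    push_cast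
    ring
  · rw [← hW1, ← hW1]
    intro h
    exact hne (Subtype.ext (HeightOneSpectrum.ext h))

end H19T
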