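import Mathlib
import Pool.Agent.Lib.H19T.WD
import Pool.Agent.Lib.H55N.WR2

open NumberField IsDedekindDomain

namespace H19T

open H55B H35T H55N

/-- Chunk W2 (M), independence of the conjugates. Adapt H55N/WR2.lean (WR2_e, WR2_p, WR2_val, WR2_under, WR2_stab are reusable).
Let a h be nonzero and p = h w (the prime with v_p(h x) = v_w(x)). v_p(g beta) = v_(g^-1 p)(beta) is a multiple of 3 unless g^-1 h w is w or w', i.e. unless
g = h; so the order of the product at p is a h * (order of beta at w) modulo 3, not a multiple of 3; a cube has order a multiple of 3. -/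
theorem not_cube (K : Type) [Field K] [NumberField K] [Algebra F K] [IsGalois F K]
    [Fintype (K ≃ₐ[F] K)] (β : 𝓞 K)
    (w w' : HeightOneSpectrum (𝓞 K)) (hB : Beta3 K β w w') (a : (K ≃ₐ[F] K) → ZMod 3)
    (ha : a ≠ 0) : ¬ ∃ z : K, z ^ 3 = ∏ g : K ≃ₐ[F] K, g (β : K) ^ (a g).val := by
  classical
  obtain ⟨h, hh⟩ : ∃ h, a h ≠ 0 := by
    by_contra h1
    push Not at h1
    exact ha (funext h1)
  rintro ⟨y, hy⟩
  -- the valuation of the product
  have heven : ∀ k : K ≃ₐ[F] K, k ≠ 1 → ∃ n : ℤ, w.valuation K (k (β : K)) = WithZero.exp (3 * n) := by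
    intro k hk
    rw [WR2_val]
    refine hB.even _ ?_ ?_
    · intro h1
      exact hk (WR2_stab k w hB.deg hB.unr h1)
    · intro h1
      apply hB.ne
      rw [← h1, WR2_under]
  have hprod : ∀ T : Finset (K ≃ₐ[F] K), (∀ g ∈ T, h⁻¹ * g ≠ 1) →
      ∃ n : ℤ, w.valuation K (h⁻¹ (∏ g ∈ T, g (β : K) ^ (a g).val)) = WithZero.exp (3 * n) := by
    intro T
    induction T using Finset.induction_on with
    | empty =>
      intro _
      refine ⟨0, ?_⟩
      rw [Finset.prod_empty, map_one, map_one, mul_zero, WithZero.exp_zero]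
    | insert b T hb ih =>
      intro hT
      obtain ⟨n, hn⟩ := ih fun g hg => hT g (Finset.mem_insert_of_mem hg)
      obtain ⟨m, hm⟩ := heven (h⁻¹ * b) (hT b (Finset.mem_insert_self b T))
      refine ⟨((a b).val : ℤ) * m + n, ?_⟩
      rw [Finset.prod_insert hb, map_mul, map_mul, hn, map_pow, map_pow]
      have e1 : h⁻¹ (b (β : K)) = (h⁻¹ * b) (β : K) := rfl
      rw [e1, hm, ← WithZero.exp_nsmul, ← WithZero.exp_add]
      congr 1
      rw [nsmul_eq_mul]
      ring
  obtain ⟨n, hn⟩ := hprod (Finset.univ.erase h) (by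
    intro g hg h1
    apply Finset.ne_of_mem_erase hg
    exact (inv_mul_eq_one.1 h1).symm)
  obtain ⟨k, hk⟩ := hB.odd
  have h1 : w.valuation K (h⁻¹ (∏ g : K ≃ₐ[F] K, g (β : K) ^ (a g).val)) =
      WithZero.exp (((a h).val : ℤ) * (3 * k + 1) + 3 * n) := by
    rw [← Finset.mul_prod_erase Finset.univ _ (Finset.mem_univ h), map_mul, map_mul, hn, map_pow,
      map_pow]
    have e1 : h⁻¹ (h (β : K)) = (β : K) := by
      show (h⁻¹ * h) (β : K) = _
      rw [inv_mul_cancel]
      rfl
    rw [e1, hk, ← WithZero.exp_nsmul, ← WithZero.exp_add, nsmul_eq_mul]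
  rw [← hy, map_pow, map_pow] at h1
  have h2 : w.valuation K (h⁻¹ y) ≠ 0 := by
    intro h0
    rw [h0, zero_pow (by norm_num)] at h1
    exact WithZero.exp_ne_zero h1.symm
  have h3 : w.valuation K (h⁻¹ y) = WithZero.exp (WithZero.log (w.valuation K (h⁻¹ y))) :=
    (WithZero.exp_log h2).symm
  rw [h3, ← WithZero.exp_nsmul, WithZero.exp_inj, nsmul_eq_mul] at h1
  have h4 : (a h).val < 3 := ZMod.val_lt (a h)
  have h5 : (a h).val ≠ 0 := by
    intro h6
    exact hh ((ZMod.val_eq_zero _).1 h6)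
  push_cast at h1
  have h6 : (a h).val = 1 ∨ (a h).val = 2 := by omega
  rcases h6 with h6 | h6 <;> rw [h6] at h1 <;> push_cast at h1 <;> omega

end H19T
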