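import Mathlib
import Pool.Agent.Lib.H19T.WD

open NumberField IsDedekindDomain

namespace H19T

open H55B H35T H55N

theorem w3_cube {L : Type} [Field L] {om x y : L} (hom : om ^ 2 + om + 1 = 0) (h : x ^ 3 = y ^ 3) :
    x = y ∨ x = om * y ∨ x = om ^ 2 * y := by
  have h1 : (x - y) * ((x - om * y) * (x - om ^ 2 * y)) = 0 := by
    have h3 : om ^ 3 = 1 := by linear_combination (om - 1) * hom
    linear_combination h + (-(x ^ 2 * y) + x * y ^ 2 * (om + 0) + x * y ^ 2 * (1 - om)) * hom +
      (x * y ^ 2 - y ^ 3) * h3
  rcases mul_eq_zero.1 h1 with h2 | h2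
  · exact Or.inl (sub_eq_zero.1 h2)
  · rcases mul_eq_zero.1 h2 with h3 | h3
    · exact Or.inr (Or.inl (sub_eq_zero.1 h3))
    · exact Or.inr (Or.inr (sub_eq_zero.1 h3))

/-- Chunk W3 (M), construction of K'. Adapt H55N/WR3.lean with X^3 - g beta in place of X^2 - g beta (F contains the cube roots of unity, so the
roots of X^3 - g beta are r g times 1, om, om^2; K' is generated by the r g over K). -/
theorem exists_Wr3 (K : Type) [Field K] [NumberField K] [Algebra F K] [IsGalois F K] (β : 𝓞 K)
    (hβ : β ≠ 0) :
    ∃ (K' : Type) (_ : Field K') (_ : NumberField K') (_ : Algebra F K') (_ : Algebra K K')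
      (_ : IsScalarTower F K K') (r : (K ≃ₐ[F] K) → K'), Wr3 K K' β r := by
  classical
  have htow : IsScalarTower ℚ F K := IsScalarTower.of_algebraMap_eq' (Subsingleton.elim _ _)
  have hfinFK : FiniteDimensional F K := Module.Finite.of_restrictScalars_finite ℚ F K
  have hfinG : Finite (K ≃ₐ[F] K) := inferInstance
  have hsq : ∀ g : K ≃ₐ[F] K, ∃ y : AlgebraicClosure K,
      y ^ 3 = algebraMap K (AlgebraicClosure K) (g (β : K)) := fun g =>
    IsAlgClosed.exists_pow_nat_eq _ three_pos
  choose r0 hr0 using hsq
  have hint : ∀ x ∈ Set.range r0, IsIntegral K x := by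
    rintro _ ⟨g, rfl⟩
    exact (Algebra.IsAlgebraic.isAlgebraic (r0 g)).isIntegral
  let E : IntermediateField K (AlgebraicClosure K) := IntermediateField.adjoin K (Set.range r0)
  have hEfin : FiniteDimensional K E := IntermediateField.finiteDimensional_adjoin hint
  have hmem : ∀ g, r0 g ∈ E := fun g => IntermediateField.subset_adjoin K _ ⟨g, rfl⟩
  have hnf : NumberField E := NumberField.of_module_finite K E
  have halg : Algebra.IsAlgebraic F (AlgebraicClosure K) :=
    Algebra.IsAlgebraic.trans F K (AlgebraicClosure K)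
  have hac : IsAlgClosure F (AlgebraicClosure K) := ⟨inferInstance, halg⟩
  have hnorm : Normal F (AlgebraicClosure K) := IsAlgClosure.normal F _
  set w : AlgebraicClosure K := algebraMap K (AlgebraicClosure K) (algebraMap F K (om : F)) with hw
  have hwE : w ∈ E := E.algebraMap_mem _
  have hw0 : w ^ 2 + w + 1 = 0 := by
    have h1 := om_prim K
    have h2 := congrArg (algebraMap K (AlgebraicClosure K)) h1
    simpa [hw] using h2
  have hE0 : ∀ (σ : AlgebraicClosure K →ₐ[F] AlgebraicClosure K) (x : AlgebraicClosure K),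
      x ∈ E → σ x ∈ E := by
    intro σ x hx
    refine IntermediateField.adjoin_induction K (p := fun x _ => σ x ∈ E) ?_ ?_ ?_ ?_ ?_ hx
    · rintro _ ⟨g, rfl⟩
      have h1 : σ (r0 g) ^ 3 = (r0 ((σ.restrictNormal' K) * g)) ^ 3 := by
        rw [← map_pow, hr0, hr0]
        exact (AlgHom.restrictNormal_commutes σ K (g (β : K))).symm
      rcases w3_cube hw0 h1 with h | h | h
      · rw [h]
        exact hmem _
      · rw [h]
        exact mul_mem hwE (hmem _)
      · rw [h]
        exact mul_mem (pow_mem hwE 2) (hmem _)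
    · intro x
      rw [← AlgHom.restrictNormal_commutes σ K x]
      exact E.algebraMap_mem _
    · intro x y _ _ h1 h2
      rw [map_add]
      exact add_mem h1 h2
    · intro x _ h1
      rw [map_inv₀]
      exact inv_mem h1
    · intro x y _ _ h1 h2
      rw [map_mul]
      exact mul_mem h1 h2
  have hE : Normal F (E.restrictScalars F) := by
    rw [IntermediateField.normal_iff_forall_map_le]
    intro σ
    rintro _ ⟨x, hx, rfl⟩
    exact hE0 σ x hx
  have hE' : Normal F E := hE
  refine ⟨E, inferInstance, hnf, inferInstance, inferInstance, inferInstance,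
    fun g => ⟨r0 g, hmem g⟩, ?_, ?_, ?_⟩
  · intro g
    apply Subtype.ext
    exact hr0 g
  · have h1 : (⊤ : Subalgebra K E) = Algebra.adjoin K
        (Set.range fun g => (⟨r0 g, hmem g⟩ : E)) := by
      apply Subalgebra.map_injective (f := E.val) E.val.injective
      rw [← Algebra.adjoin_image, ← Set.range_comp]
      have h2 : (E.val ∘ fun g => (⟨r0 g, hmem g⟩ : E)) = r0 := rfl
      rw [h2, ← IntermediateField.adjoin_toSubalgebra_of_isAlgebraic
        (fun x hx => (hint x hx).isAlgebraic)]
      ext x
      constructor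
      · rintro ⟨y, -, rfl⟩
        exact y.2
      · intro hx
        exact ⟨⟨x, hx⟩, Algebra.mem_top, rfl⟩
    exact h1.symm
  · exact { to_normal := hE' }

end H19T
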