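import Mathlib
import Pool.Agent.Lib.H19T.WD

open NumberField IsDedekindDomain

namespace H19T

open H55B H35T H55N

/-- The cube root of unity in K' attached to an element of C3. -/
noncomputable def zt (K' : Type) [Field K'] [Algebra F K'] (ε : C3) : K' :=
  (algebraMap F K' (om : F)) ^ (Multiplicative.toAdd ε).val

theorem w4_cube (K' : Type) [Field K'] [CharZero K'] [Algebra F K'] :
    (algebraMap F K' (om : F)) ^ 3 = 1 := by
  have h := om_prim K'
  linear_combination (algebraMap F K' (om : F) - 1) * h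

theorem w4_F : ((om : F)) ^ 3 = 1 := by
  have h := om_rel
  have h1 : ((om : F)) ^ 2 + (om : F) + 1 = 0 := by
    have := congrArg (algebraMap O F) h
    simpa using this
  linear_combination ((om : F) - 1) * h1

theorem zt_mul (K' : Type) [Field K'] [Algebra F K'] (a b : C3) :
    zt K' (a * b) = zt K' a * zt K' b := by
  have h3 : (algebraMap F K' (om : F)) ^ 3 = 1 := by
    rw [← map_pow, w4_F, map_one]
  have h : ∀ n : ℕ, (algebraMap F K' (om : F)) ^ (n % 3) = (algebraMap F K' (om : F)) ^ n := by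
    intro n
    conv_rhs => rw [← Nat.div_add_mod n 3, pow_add, pow_mul, h3, one_pow, one_mul]
  unfold zt
  rw [← pow_add, toAdd_mul, ZMod.val_add, h]

theorem w4_cases (a : C3) : a = 1 ∨ a = Multiplicative.ofAdd 1 ∨ a = Multiplicative.ofAdd 2 := by
  revert a; decide

theorem w4_one (K' : Type) [Field K'] [Algebra F K'] : zt K' 1 = 1 := by
  unfold zt
  have : (Multiplicative.toAdd (1 : C3)).val = 0 := by decide
  rw [this, pow_zero]

theorem w4_two (K' : Type) [Field K'] [Algebra F K'] :
    zt K' (Multiplicative.ofAdd 1) = algebraMap F K' (om : F) := by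
  unfold zt
  have : (Multiplicative.toAdd (Multiplicative.ofAdd 1 : C3)).val = 1 := by decide
  rw [this, pow_one]

theorem w4_three (K' : Type) [Field K'] [Algebra F K'] :
    zt K' (Multiplicative.ofAdd 2) = (algebraMap F K' (om : F)) ^ 2 := by
  unfold zt
  have : (Multiplicative.toAdd (Multiplicative.ofAdd 2 : C3)).val = 2 := by decide
  rw [this]

theorem w4_inj1 (K' : Type) [Field K'] [CharZero K'] [Algebra F K'] {a : C3}
    (h : zt K' a = 1) : a = 1 := by
  have h0 := om_prim K'
  rcases w4_cases a with rfl | rfl | rfl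
  · rfl
  · exfalso
    rw [w4_two] at h
    rw [h] at h0
    norm_num at h0
  · exfalso
    rw [w4_three] at h
    rw [h] at h0
    have h1 : algebraMap F K' (om : F) = -2 := by linear_combination h0
    rw [h1] at h
    norm_num at h

theorem zt_inj (K' : Type) [Field K'] [CharZero K'] [Algebra F K'] {a b : C3}
    (h : zt K' a = zt K' b) : a = b := by
  have h1 : zt K' (a * b⁻¹) = 1 := by
    have h2 : zt K' b * zt K' b⁻¹ = 1 := by rw [← zt_mul, mul_inv_cancel, w4_one]
    rw [zt_mul, h, h2]
  have h2 := w4_inj1 K' h1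
  exact mul_inv_eq_one.1 h2

theorem zt_of_cube (K' : Type) [Field K'] [CharZero K'] [Algebra F K'] {x y : K'}
    (hy : y ≠ 0) (h : x ^ 3 = y ^ 3) : ∃ ε : C3, x = zt K' ε * y := by
  have h0 := om_prim K'
  set w := algebraMap F K' (om : F) with hw
  have h1 : (x - y) * ((x - w * y) * (x - w ^ 2 * y)) = 0 := by
    have h3 := w4_cube K'
    rw [← hw] at h3
    have h4 : (x - y) * ((x - w * y) * (x - w ^ 2 * y)) =
        x ^ 3 - (w ^ 2 + w + 1) * x ^ 2 * y + (w ^ 3 + w ^ 2 + w) * x * y ^ 2 - w ^ 3 * y ^ 3 := by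
      ring
    rw [h4, h0, h3, h]
    have h5 : (1 : K') + w ^ 2 + w = 0 := by linear_combination h0
    rw [h5]
    ring
  rcases mul_eq_zero.1 h1 with h2 | h2
  · exact ⟨1, by rw [w4_one, one_mul]; exact sub_eq_zero.1 h2⟩
  · rcases mul_eq_zero.1 h2 with h3 | h3
    · exact ⟨Multiplicative.ofAdd 1, by rw [w4_two]; exact sub_eq_zero.1 h3⟩
    · exact ⟨Multiplicative.ofAdd 2, by rw [w4_three]; exact sub_eq_zero.1 h3⟩

theorem w4_map {K' : Type} [Field K'] [Algebra F K'] (s : K' ≃ₐ[F] K') (ε : C3) :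
    s (zt K' ε) = zt K' ε := by
  unfold zt
  rw [map_pow, AlgEquiv.commutes]

/-- Chunk W4 (M), the embedding in the wreath product. Adapt H55N/WR4.lean: s (r g)^3 = (s0 g) beta, so s (r g) = zt ε * r (s0 g) (zt_of_cube); zt is fixed by all
automorphisms over F. -/
theorem wr_embed3 (K K' : Type) [Field K] [NumberField K] [Algebra F K] [IsGalois F K] [Field K']
    [NumberField K'] [Algebra F K'] [Algebra K K'] [IsScalarTower F K K'] (β : 𝓞 K) (hβ : β ≠ 0)
    (r : (K ≃ₐ[F] K) → K') (h : Wr3 K K' β r) :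
    ∃ φ : (K' ≃ₐ[F] K') →* C3 ≀ᵣ (K ≃ₐ[F] K), Function.Injective φ := by
  classical
  let ρ : (K' ≃ₐ[F] K') →* (K ≃ₐ[F] K) := AlgEquiv.restrictNormalHom K
  have hρ : ∀ (s : K' ≃ₐ[F] K') (x : K), algebraMap K K' (ρ s x) = s (algebraMap K K' x) :=
    fun s x => AlgEquiv.restrictNormal_commutes s K x
  have hβ' : (β : K) ≠ 0 := by
    intro h0
    exact hβ (RingOfIntegers.ext (by simpa using h0))
  have hr0 : ∀ g, r g ≠ 0 := by
    intro g h0
    have h1 := h.cube g
    rw [h0, zero_pow three_ne_zero] at h1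
    have h2 : g (β : K) = 0 := (map_eq_zero_iff _ (algebraMap K K').injective).1 h1.symm
    exact hβ' ((map_eq_zero_iff _ g.injective).1 h2)
  have hex : ∀ (s : K' ≃ₐ[F] K') (x : K ≃ₐ[F] K), ∃ e : C3,
      s (r ((ρ s)⁻¹ * x)) = zt K' e * r x := by
    intro s x
    have h1 : (s (r ((ρ s)⁻¹ * x))) ^ 3 = (r x) ^ 3 := by
      rw [← map_pow, h.cube, ← hρ, h.cube]
      congr 1
      rw [← AlgEquiv.mul_apply, mul_inv_cancel_left]
    exact zt_of_cube K' (hr0 x) h1
  choose eps heps using hex
  let ψ : (K' ≃ₐ[F] K') →* C3 ≀ᵣ (K ≃ₐ[F] K) :=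
    { toFun := fun s => ⟨eps s, ρ s⟩
      map_one' := by
        have h1 : eps 1 = 1 := by
          funext x
          apply zt_inj K'
          have h2 := heps 1 x
          rw [map_one, inv_one, one_mul] at h2
          have h3 : (1 : K' ≃ₐ[F] K') (r x) = r x := rfl
          rw [h3] at h2
          have h4 : zt K' (eps 1 x) = 1 := by
            have h5 : 1 * r x = zt K' (eps 1 x) * r x := by rw [one_mul]; exact h2
            exact (mul_right_cancel₀ (hr0 x) h5).symm
          rw [h4, Pi.one_apply, w4_one]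
        refine RegularWreathProduct.ext ?_ ?_
        · exact h1
        · exact map_one ρ
      map_mul' := by
        intro s t
        refine RegularWreathProduct.ext ?_ ?_
        · funext x
          change eps (s * t) x = eps s x * eps t ((ρ s)⁻¹ * x)
          apply zt_inj K'
          have h1 := heps (s * t) x
          have h2 := heps s x
          have h3 := heps t ((ρ s)⁻¹ * x)
          have h4 : (ρ (s * t))⁻¹ * x = (ρ t)⁻¹ * ((ρ s)⁻¹ * x) := by
            rw [map_mul]; group
          rw [h4] at h1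
          have h5 : (s * t) (r ((ρ t)⁻¹ * ((ρ s)⁻¹ * x))) =
              s (t (r ((ρ t)⁻¹ * ((ρ s)⁻¹ * x)))) := rfl
          rw [h5, h3, map_mul, w4_map, h2] at h1
          have h6 : zt K' (eps s x) * zt K' (eps t ((ρ s)⁻¹ * x)) * r x =
              zt K' (eps (s * t) x) * r x := by rw [← h1]; ring
          rw [zt_mul]
          exact (mul_right_cancel₀ (hr0 x) h6).symm
        · exact map_mul ρ s t }
  refine ⟨ψ, ?_⟩
  rw [injective_iff_map_eq_one]
  intro s hs
  have h1 : ρ s = 1 := congrArg RegularWreathProduct.right hs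
  have h2 : ∀ x, eps s x = 1 := fun x => congrFun (congrArg RegularWreathProduct.left hs) x
  have h3 : ∀ x, s (r x) = r x := by
    intro x
    have h4 := heps s x
    rwa [h1, inv_one, one_mul, h2, w4_one, one_mul] at h4
  have h5 : ∀ k : K, s (algebraMap K K' k) = algebraMap K K' k := by
    intro k
    rw [← hρ, h1]; rfl
  let s' : K' →ₐ[K] K' := { (s : K' →+* K') with commutes' := h5 }
  have h6 : s' = AlgHom.id K K' := by
    apply AlgHom.ext_of_adjoin_eq_top h.gen
    rintro _ ⟨x, rfl⟩
    exact h3 x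
  ext x
  exact congrArg (fun f : K' →ₐ[K] K' => f x) h6

end H19T
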