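import Mathlib
import Pool.Agent.Lib.H19T.W4

open NumberField IsDedekindDomain

namespace H19T

open H55B H35T H55N

/-! Chunk W5 (M): the degree. Adapt H55N/WR5.lean. V = Gal(K'/K) embeds in A = (G -> ZMod 3) by s -> (the exponent of s (r g)/r g as a power of om). If the
image is not all of A there is a nonzero linear form x -> sum a_g x_g vanishing on it (duality for the ZMod 3 vector space A), so the product of
the (r g)^(a_g) is fixed by V, lies in K (K'/K is Galois), and its cube is the product of the (g beta)^(a_g). Contradiction. So [K':K] = |V| = 3^|G|.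
wr_iso3: cardinalities (RegularWreathProduct.card) and wr_embed3. -/

section

variable {K K' : Type} [Field K] [NumberField K] [Algebra F K] [Field K']
    [NumberField K'] [Algebra F K'] [Algebra K K'] [IsScalarTower F K K'] {β : 𝓞 K}
    {r : (K ≃ₐ[F] K) → K'}

theorem w5_zt_one (K' : Type) [Field K'] [Algebra F K'] : zt K' 1 = 1 := by
  unfold zt
  simp

/-- zt as a homomorphism. -/
noncomputable def w5_zh (K' : Type) [Field K'] [Algebra F K'] : C3 →* K' where
  toFun := zt K'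
  map_one' := w5_zt_one K'
  map_mul' := zt_mul K'

theorem w5_zt_fix (s : K' ≃ₐ[K] K') (ε : C3) : s (zt K' ε) = zt K' ε := by
  unfold zt
  rw [map_pow, IsScalarTower.algebraMap_apply F K K', AlgEquiv.commutes]

theorem w5_ne (hβ : β ≠ 0) (h : Wr3 K K' β r) (g : K ≃ₐ[F] K) : r g ≠ 0 := by
  intro h0
  have h1 := h.cube g
  rw [h0, zero_pow three_ne_zero] at h1
  have h2 : g (β : K) = 0 := by
    have h3 : algebraMap K K' (g (β : K)) = algebraMap K K' 0 := by rw [map_zero, h1]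
    exact (algebraMap K K').injective h3
  have h3 : (β : K) = 0 := by
    have h4 : g (β : K) = g 0 := by rw [h2, map_zero]
    exact g.injective h4
  apply hβ
  exact RingOfIntegers.ext h3

theorem w5_ex (hβ : β ≠ 0) (h : Wr3 K K' β r) (s : K' ≃ₐ[K] K') (g : K ≃ₐ[F] K) :
    ∃ ε : C3, s (r g) = zt K' ε * r g := by
  apply zt_of_cube K' (w5_ne hβ h g)
  rw [← map_pow, h.cube, AlgEquiv.commutes]

/-- The exponents. -/
noncomputable def w5_sg (hβ : β ≠ 0) (h : Wr3 K K' β r) (s : K' ≃ₐ[K] K') (g : K ≃ₐ[F] K) :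
    ZMod 3 := Multiplicative.toAdd (Classical.choose (w5_ex hβ h s g))

theorem w5_sg_spec (hβ : β ≠ 0) (h : Wr3 K K' β r) (s : K' ≃ₐ[K] K') (g : K ≃ₐ[F] K) :
    s (r g) = zt K' (Multiplicative.ofAdd (w5_sg hβ h s g)) * r g :=
  Classical.choose_spec (w5_ex hβ h s g)

theorem w5_sg_eq (hβ : β ≠ 0) (h : Wr3 K K' β r) (s : K' ≃ₐ[K] K') (g : K ≃ₐ[F] K) (a : ZMod 3)
    (ha : s (r g) = zt K' (Multiplicative.ofAdd a) * r g) : w5_sg hβ h s g = a := by
  rw [w5_sg_spec hβ h s g] at ha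
  have h1 := zt_inj K' (mul_right_cancel₀ (w5_ne hβ h g) ha)
  exact Multiplicative.ofAdd.injective h1

theorem w5_one (hβ : β ≠ 0) (h : Wr3 K K' β r) (g : K ≃ₐ[F] K) :
    w5_sg hβ h (1 : K' ≃ₐ[K] K') g = 0 := by
  apply w5_sg_eq
  rw [ofAdd_zero, w5_zt_one, one_mul]
  rfl

theorem w5_mul (hβ : β ≠ 0) (h : Wr3 K K' β r) (s t : K' ≃ₐ[K] K') (g : K ≃ₐ[F] K) :
    w5_sg hβ h (s * t) g = w5_sg hβ h s g + w5_sg hβ h t g := by
  apply w5_sg_eq
  have e1 : (s * t) (r g) = s (t (r g)) := rfl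
  rw [e1, w5_sg_spec hβ h t g, map_mul, w5_zt_fix, w5_sg_spec hβ h s g, ofAdd_add, zt_mul]
  ring

/-- The exponent vectors. -/
noncomputable def w5_W (hβ : β ≠ 0) (h : Wr3 K K' β r) :
    Submodule (ZMod 3) ((K ≃ₐ[F] K) → ZMod 3) where
  carrier := Set.range fun s : K' ≃ₐ[K] K' => w5_sg hβ h s
  zero_mem' := ⟨1, funext fun g => w5_one hβ h g⟩
  add_mem' := by
    rintro _ _ ⟨s, rfl⟩ ⟨t, rfl⟩
    exact ⟨s * t, funext fun g => w5_mul hβ h s t g⟩
  smul_mem' := by
    rintro c _ ⟨s, rfl⟩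
    have hc : c = 0 ∨ c = 1 ∨ c = 1 + 1 := by
      revert c
      decide
    rcases hc with rfl | rfl | rfl
    · refine ⟨1, funext fun g => ?_⟩
      simp [w5_one hβ h g]
    · exact ⟨s, by simp⟩
    · refine ⟨s * s, funext fun g => ?_⟩
      show w5_sg hβ h (s * s) g = (1 + 1 : ZMod 3) * w5_sg hβ h s g
      rw [w5_mul]
      ring

theorem w5_top [IsGalois F K] (hβ : β ≠ 0) (h : Wr3 K K' β r) [Fintype (K ≃ₐ[F] K)]
    (hn : ∀ a : (K ≃ₐ[F] K) → ZMod 3, a ≠ 0 →
      ¬ ∃ z : K, z ^ 3 = ∏ g : K ≃ₐ[F] K, g (β : K) ^ (a g).val) :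
    w5_W hβ h = ⊤ := by
  classical
  have htow : IsScalarTower ℚ F K := IsScalarTower.of_algebraMap_eq' (Subsingleton.elim _ _)
  have hfinFK : FiniteDimensional F K := Module.Finite.of_restrictScalars_finite ℚ F K
  have htow2 : IsScalarTower ℚ K K' := IsScalarTower.of_algebraMap_eq' (Subsingleton.elim _ _)
  have hfinK : FiniteDimensional K K' := Module.Finite.of_restrictScalars_finite ℚ K K'
  have hgal : IsGalois F K' := h.gal
  have hgal' : IsGalois K K' := IsGalois.tower_top_of_isGalois F K K'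
  by_contra hne
  obtain ⟨f, hf0, hf⟩ := (w5_W hβ h).exists_le_ker_of_lt_top (lt_top_iff_ne_top.2 hne)
  set a : (K ≃ₐ[F] K) → ZMod 3 := fun g => f (Pi.single g 1) with ha
  have hval : ∀ v : (K ≃ₐ[F] K) → ZMod 3, f v = ∑ g, a g * v g := by
    intro v
    have h1 : v = ∑ g, v g • (Pi.single g (1 : ZMod 3) : (K ≃ₐ[F] K) → ZMod 3) := by
      ext x
      simp [Finset.sum_apply, Pi.single_apply]
    conv_lhs => rw [h1]
    rw [map_sum]
    refine Finset.sum_congr rfl fun g _ => ?_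
    rw [map_smul, smul_eq_mul, mul_comm]
  have hane : a ≠ 0 := by
    intro h0
    apply hf0
    ext v
    have h1 : f (Pi.single v 1) = a v := rfl
    have h2 : a v = 0 := congrFun h0 v
    simp [h1, h2]
  have hfix : ∀ s : K' ≃ₐ[K] K', s (∏ g, r g ^ (a g).val) = ∏ g, r g ^ (a g).val := by
    intro s
    have h1 : f (w5_sg hβ h s) = 0 := hf ⟨s, rfl⟩
    rw [hval] at h1
    have h2 : ∏ g, zt K' (Multiplicative.ofAdd (w5_sg hβ h s g)) ^ (a g).val = 1 := by
      have h3 : ∏ g, zt K' (Multiplicative.ofAdd (w5_sg hβ h s g)) ^ (a g).val =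
          w5_zh K' (∏ g, Multiplicative.ofAdd (w5_sg hβ h s g) ^ (a g).val) := by
        rw [map_prod]
        refine Finset.prod_congr rfl fun g _ => ?_
        rw [map_pow]
        rfl
      have h4 : ∏ g, Multiplicative.ofAdd (w5_sg hβ h s g) ^ (a g).val =
          Multiplicative.ofAdd (∑ g, a g * w5_sg hβ h s g) := by
        rw [ofAdd_sum]
        refine Finset.prod_congr rfl fun g _ => ?_
        rw [← ofAdd_nsmul]
        congr 1
        rw [nsmul_eq_mul, ZMod.natCast_zmod_val]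
      rw [h3, h4, h1, ofAdd_zero, map_one]
    rw [map_prod]
    have h5 : ∀ g, s (r g ^ (a g).val) =
        zt K' (Multiplicative.ofAdd (w5_sg hβ h s g)) ^ (a g).val * r g ^ (a g).val := by
      intro g
      rw [map_pow, w5_sg_spec hβ h s g, mul_pow]
    rw [Finset.prod_congr rfl fun g _ => h5 g, Finset.prod_mul_distrib, h2, one_mul]
  obtain ⟨x, hx⟩ := (IsGalois.mem_bot_iff_fixed (F := K) (E := K') _).2 hfix
  apply hn a hane
  refine ⟨x, ?_⟩
  apply (algebraMap K K').injective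
  rw [map_prod, map_pow]
  have hx' : algebraMap K K' x = ∏ g, r g ^ (a g).val := hx
  rw [hx', ← Finset.prod_pow]
  refine Finset.prod_congr rfl fun g _ => ?_
  rw [map_pow, ← h.cube, ← pow_mul, ← pow_mul, mul_comm]

end

theorem wr_card3 (K K' : Type) [Field K] [NumberField K] [Algebra F K] [IsGalois F K]
    [Fintype (K ≃ₐ[F] K)] [Field K']
    [NumberField K'] [Algebra F K'] [Algebra K K'] [IsScalarTower F K K'] (β : 𝓞 K) (hβ : β ≠ 0)
    (r : (K ≃ₐ[F] K) → K') (h : Wr3 K K' β r)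
    (hn : ∀ a : (K ≃ₐ[F] K) → ZMod 3, a ≠ 0 →
      ¬ ∃ z : K, z ^ 3 = ∏ g : K ≃ₐ[F] K, g (β : K) ^ (a g).val) :
    Module.finrank K K' = 3 ^ Nat.card (K ≃ₐ[F] K) := by
  have htow : IsScalarTower ℚ F K := IsScalarTower.of_algebraMap_eq' (Subsingleton.elim _ _)
  have hfinFK : FiniteDimensional F K := Module.Finite.of_restrictScalars_finite ℚ F K
  have htow2 : IsScalarTower ℚ K K' := IsScalarTower.of_algebraMap_eq' (Subsingleton.elim _ _)
  have hfinK : FiniteDimensional K K' := Module.Finite.of_restrictScalars_finite ℚ K K'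
  have hgal : IsGalois F K' := h.gal
  have hgal' : IsGalois K K' := IsGalois.tower_top_of_isGalois F K K'
  have hbij : Function.Bijective fun s : K' ≃ₐ[K] K' => w5_sg hβ h s := by
    constructor
    · intro s t hst
      have h1 : ∀ g, s (r g) = t (r g) := by
        intro g
        have h2 : w5_sg hβ h s g = w5_sg hβ h t g := congrFun hst g
        rw [w5_sg_spec hβ h s g, w5_sg_spec hβ h t g, h2]
      have h3 : (s : K' →ₐ[K] K') = t := by
        refine AlgHom.ext_of_adjoin_eq_top h.gen ?_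
        rintro _ ⟨g, rfl⟩
        exact h1 g
      exact AlgEquiv.coe_toAlgHom_injective h3
    · intro v
      have h1 : v ∈ w5_W hβ h := by
        rw [w5_top hβ h hn]
        trivial
      exact h1
  rw [← IsGalois.card_aut_eq_finrank K K', Nat.card_congr (Equiv.ofBijective _ hbij), Nat.card_fun,
    Nat.card_zmod]

theorem wr_iso3 (K K' : Type) [Field K] [NumberField K] [Algebra F K] [IsGalois F K]
    [Fintype (K ≃ₐ[F] K)] [Field K']
    [NumberField K'] [Algebra F K'] [Algebra K K'] [IsScalarTower F K K'] (β : 𝓞 K) (hβ : β ≠ 0)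
    (r : (K ≃ₐ[F] K) → K') (h : Wr3 K K' β r)
    (hn : ∀ a : (K ≃ₐ[F] K) → ZMod 3, a ≠ 0 →
      ¬ ∃ z : K, z ^ 3 = ∏ g : K ≃ₐ[F] K, g (β : K) ^ (a g).val) :
    Nonempty ((K' ≃ₐ[F] K') ≃* C3 ≀ᵣ (K ≃ₐ[F] K)) := by
  have htow : IsScalarTower ℚ F K := IsScalarTower.of_algebraMap_eq' (Subsingleton.elim _ _)
  have hfinFK : FiniteDimensional F K := Module.Finite.of_restrictScalars_finite ℚ F K
  have htow2 : IsScalarTower ℚ K K' := IsScalarTower.of_algebraMap_eq' (Subsingleton.elim _ _)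
  have hfinK : FiniteDimensional K K' := Module.Finite.of_restrictScalars_finite ℚ K K'
  have hfinF : FiniteDimensional F K' := FiniteDimensional.trans F K K'
  have hgal : IsGalois F K' := h.gal
  obtain ⟨φ, hφ⟩ := wr_embed3 K K' β hβ r h
  have hfin : Finite (C3 ≀ᵣ (K ≃ₐ[F] K)) := inferInstance
  have hcard : Nat.card (C3 ≀ᵣ (K ≃ₐ[F] K)) ≤ Nat.card (K' ≃ₐ[F] K') := by
    rw [RegularWreathProduct.card, IsGalois.card_aut_eq_finrank F K',
      ← Module.finrank_mul_finrank F K K', wr_card3 K K' β hβ r h hn,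
      IsGalois.card_aut_eq_finrank F K]
    have h2 : Nat.card C3 = 3 := by
      rw [Nat.card_congr (Multiplicative.toAdd), Nat.card_zmod]
    rw [h2, mul_comm]
  exact ⟨MulEquiv.ofBijective φ (hφ.bijective_of_nat_card_le hcard)⟩

end H19T
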