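import Mathlib
import Pool.Agent.Lib.H19T.WD
import Pool.Agent.Lib.H55C.Y32

open NumberField IsDedekindDomain

namespace H19T

open H55B H35T H55N H55C

/-- Chunk W6 (M), ramification. Adapt H55N/WR6.lean. t in the inertia group of W over F fixes K (h1), and t (r g) = z r g with z^3 = 1, z = 1, om or om^2. Suppose z is not 1.
If 3 is not in W: order of g beta at w0 is 3k, choose c in K with the opposite order k; (c r g)^3 = c^3 g beta is a unit at w0, so c r g is a unit at W, and
c r g - t (c r g) = (1 - z) c r g is a unit at W (1 - z divides 3), but an element of the inertia group moves W-integral elements only by non-units. If 3 is in W: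
g beta = 1 mod 9 (apply g), lam = om - 1, lam^3 divides 9; u = (r g - 1)/lam is an algebraic integer: with r = 1 + lam u: lam^3 u^3 + 3 lam^2 u^2 + 3 lam u = g beta - 1, divide by lam^3:
u^3 - om^2 lam u^2 - om^2 u = (g beta - 1)/lam^3 (3 = -om^2 lam^2). u - t u = (1 - z) r g/lam is a unit at W (1 - z = unit * lam; (r g)^3 = g beta = 1 mod 3 and 3 in W, so
r g is a unit at W); contradiction. So t = 1 on the generators and the inertia group is trivial. -/
theorem wr_unr_at3 (K K' : Type) [Field K] [NumberField K] [Algebra F K] [IsGalois F K] [Field K']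
    [NumberField K'] [Algebra F K'] [Algebra K K'] [IsScalarTower F K K'] (β : 𝓞 K) (hβ : β ≠ 0)
    (hnine : (9 : 𝓞 K) ∣ β - 1) (r : (K ≃ₐ[F] K) → K') (h : Wr3 K K' β r)
    (W : HeightOneSpectrum (𝓞 K')) (w₀ : HeightOneSpectrum (𝓞 K))
    (hw : w₀.asIdeal = W.asIdeal.under (𝓞 K)) (h1 : w₀.asIdeal.ramificationIdx O = 1)
    (he : ∀ g : K ≃ₐ[F] K, ∃ k : ℤ, w₀.valuation K (g (β : K)) = WithZero.exp (3 * k)) :
    W.asIdeal.ramificationIdx O = 1 := by
  have hgal : IsGalois F K' := h.gal
  rw [inertia_iff W]
  intro t ht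
  have hres : AlgEquiv.restrictNormalHom K t = 1 := by
    apply (inertia_iff w₀).1 h1
    intro y
    have h2 := H55C.restrict_frob (K := K') (K₁ := K) W w₀ hw t 1
      (fun y => by rw [pow_one]; exact ht y) y
    rwa [pow_one] at h2
  have hfix : ∀ x : K, t (algebraMap K K' x) = algebraMap K K' x := by
    intro x
    have h2 := AlgEquiv.restrictNormal_commutes t K x
    have h3 : AlgEquiv.restrictNormal t K = 1 := hres
    rw [← h2, h3]
    rfl
  have hmemW : ∀ y : 𝓞 K, algebraMap (𝓞 K) (𝓞 K') y ∈ W.asIdeal → y ∈ w₀.asIdeal := by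
    intro y hy
    rw [hw]
    exact hy
  have hW1 : (1 : 𝓞 K') ∉ W.asIdeal := fun h1 => W.isPrime.ne_top ((Ideal.eq_top_iff_one _).2 h1)
  have hrfix : ∀ g, t (r g) = r g := by
    intro g
    have hr0 : r g ≠ 0 := by
      intro h0
      have h2 := h.cube g
      rw [h0] at h2
      have h3 : algebraMap K K' (g (β : K)) = 0 := by
        rw [← h2]
        ring
      rw [map_eq_zero, map_eq_zero] at h3
      exact hβ (RingOfIntegers.ext h3)
    have h2 : t (r g) ^ 3 = r g ^ 3 := by rw [← map_pow, h.cube, hfix]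
    by_contra h3
    obtain ⟨z, hz⟩ : ∃ z : K', t (r g) = z * r g := ⟨t (r g) / r g, by
      rw [div_mul_cancel₀ _ hr0]⟩
    have hz3 : z ^ 3 = 1 := by
      rw [hz, mul_pow] at h2
      have h4 : (z ^ 3 - 1) * r g ^ 3 = 0 := by linear_combination h2
      rcases mul_eq_zero.1 h4 with h5 | h5
      · linear_combination h5
      · exact absurd (pow_eq_zero_iff (by norm_num) |>.1 h5) hr0
    have hz1 : z ≠ 1 := by
      intro h4
      apply h3
      rw [hz, h4, one_mul]
    have hz2 : z ^ 2 + z + 1 = 0 := by
      have h4 : (z - 1) * (z ^ 2 + z + 1) = 0 := by linear_combination hz3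
      rcases mul_eq_zero.1 h4 with h5 | h5
      · exact absurd (sub_eq_zero.1 h5) hz1
      · exact h5
    have hzint : IsIntegral ℤ z := by
      apply IsIntegral.of_pow (n := 3) (by norm_num)
      rw [hz3]
      exact isIntegral_one
    obtain ⟨Z, hZ⟩ : ∃ Z : 𝓞 K', (Z : K') = z := ⟨⟨z, hzint⟩, rfl⟩
    have hZ3 : (1 - Z) * (1 - Z ^ 2) = 3 := by
      apply RingOfIntegers.ext
      show algebraMap (𝓞 K') K' ((1 - Z) * (1 - Z ^ 2)) = algebraMap (𝓞 K') K' 3
      simp only [map_mul, map_sub, map_one, map_pow, map_ofNat]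
      have h4 : algebraMap (𝓞 K') K' Z = z := hZ
      rw [h4]
      linear_combination (z - 2) * hz2
    by_cases h2W : (3 : 𝓞 K') ∈ W.asIdeal
    · -- the case of residue characteristic 3
      obtain ⟨z0, hz0⟩ := hnine
      set y : K' := algebraMap K K' (g (z0 : K)) with hy
      have hyint : IsIntegral ℤ y := by
        have h4 : IsIntegral ℤ (g (z0 : K)) :=
          map_isIntegral_int (g : K →+* K) (RingOfIntegers.isIntegral_coe z0)
        exact map_isIntegral_int (algebraMap K K') h4
      have hgb : algebraMap K K' (g (β : K)) = 1 + 9 * y := by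
        have h4 : (β : K) = 1 + 9 * (z0 : K) := by
          have := congrArg (algebraMap (𝓞 K) K) hz0
          simp only [map_sub, map_mul, map_one, map_ofNat] at this
          linear_combination this
        rw [h4, map_add, map_mul, map_one, map_ofNat, map_add, map_mul, map_one, map_ofNat]
      have hr2 : r g ^ 3 = 1 + 9 * y := by rw [h.cube, hgb]
      obtain ⟨w, hw1, hwt⟩ : ∃ w : K', w ^ 2 + w + 1 = 0 ∧ t w = w := by
        refine ⟨algebraMap F K' (om : F), om_prim K', ?_⟩
        exact t.commutes _
      have hw3 : w ^ 3 = 1 := by linear_combination (w - 1) * hw1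
      have hwint : IsIntegral ℤ w := by
        apply IsIntegral.of_pow (n := 3) (by norm_num)
        rw [hw3]
        exact isIntegral_one
      have hl0 : w - 1 ≠ 0 := by
        intro h4
        have h5 : w = 1 := by linear_combination h4
        rw [h5] at hw1
        norm_num at hw1
      have hl2 : (w - 1) ^ 2 = -3 * w := by linear_combination hw1
      obtain ⟨w', hw'⟩ : ∃ w' : 𝓞 K', algebraMap (𝓞 K') K' w' = w := ⟨⟨w, hwint⟩, rfl⟩
      obtain ⟨y', hy'⟩ : ∃ y' : 𝓞 K', algebraMap (𝓞 K') K' y' = y := ⟨⟨y, hyint⟩, rfl⟩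
      obtain ⟨U, hU⟩ : ∃ U : K', r g = 1 + (w - 1) * U := ⟨(r g - 1) / (w - 1), by
        rw [mul_div_cancel₀ _ hl0]; ring⟩
      have hU3 : U ^ 3 - w ^ 2 * (w - 1) * U ^ 2 - w ^ 2 * U - w * (w - 1) * y = 0 := by
        have h4 : (w - 1) ^ 3 ≠ 0 := pow_ne_zero 3 hl0
        apply mul_left_cancel₀ h4
        rw [hU] at hr2
        linear_combination hr2 + (-U ^ 2 * (w - 1) ^ 2 * (w ^ 2 - 3 * (w - 1)) -
          U * (w - 1) * (w ^ 2 - 3 * (w - 1)) -
          y * ((w ^ 2 + w + 1) * w - 6 * w ^ 2 + 9 * (w - 1))) * hw1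
      have huint : IsIntegral ℤ U := by
        have h5 : IsIntegral (𝓞 K') U := by
          refine ⟨Polynomial.X ^ 3 - (Polynomial.C (w' ^ 2 * (w' - 1)) * Polynomial.X ^ 2 +
            Polynomial.C (w' ^ 2) * Polynomial.X + Polynomial.C (w' * (w' - 1) * y')), ?_, ?_⟩
          · apply Polynomial.monic_X_pow_sub
            compute_degree!
          · simp only [Polynomial.eval₂_sub, Polynomial.eval₂_add, Polynomial.eval₂_mul,
              Polynomial.eval₂_pow, Polynomial.eval₂_X, Polynomial.eval₂_C, Polynomial.eval₂_one, map_mul, map_pow,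
              map_sub, map_one, hw', hy']
            linear_combination hU3
        exact isIntegral_trans _ h5
      let u : 𝓞 K' := ⟨U, huint⟩
      have hmem := ht u
      have hu : (t • u - u) ^ 6 = (1 + 9 * y') ^ 2 := by
        apply RingOfIntegers.ext
        show (t U - U) ^ 6 = algebraMap (𝓞 K') K' ((1 + 9 * y') ^ 2)
        rw [map_pow, map_add, map_mul, map_one, map_ofNat, hy', ← hr2]
        have h5 : t (r g) = 1 + (w - 1) * t U := by
          rw [hU, map_add, map_mul, map_sub, map_one, hwt]
        have h6 : (w - 1) * (t U - U) = (z - 1) * r g := by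
          linear_combination hz - h5 + hU
        have h7 : (w - 1) ^ 6 = -27 := by
          have h8 : (w - 1) ^ 6 = ((w - 1) ^ 2) ^ 3 := by ring
          rw [h8, hl2]
          linear_combination (-27) * hw3
        have h9 : (z - 1) ^ 6 = -27 := by
          have h8 : (z - 1) ^ 6 = ((z - 1) ^ 2) ^ 3 := by ring
          have h10 : (z - 1) ^ 2 = -3 * z := by linear_combination hz2
          rw [h8, h10]
          linear_combination (-27) * hz3
        have h10 : (w - 1) ^ 6 * (t U - U) ^ 6 = (z - 1) ^ 6 * r g ^ 6 := by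
          rw [← mul_pow, h6, mul_pow]
        rw [h7, h9] at h10
        have h11 : (t U - U) ^ 6 = r g ^ 6 := by linear_combination (-1 / 27) * h10
        rw [h11]
        ring
      have h6 : (1 + 9 * y') ^ 2 ∈ W.asIdeal := by
        rw [← hu]
        exact Ideal.pow_mem_of_mem _ hmem 6 (by norm_num)
      have h7 : 1 + 9 * y' ∈ W.asIdeal := W.isPrime.mem_of_pow_mem 2 h6
      apply hW1
      have h8 : (1 : 𝓞 K') = (1 + 9 * y') - 3 * (3 * y') := by ring
      rw [h8]
      exact W.asIdeal.sub_mem h7 (Ideal.mul_mem_right _ _ h2W)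
    · -- the other case
      obtain ⟨k, hk⟩ := he g
      obtain ⟨c, hc⟩ := w₀.valuation_surjective K (WithZero.exp (-k))
      have hd : w₀.valuation K (c ^ 3 * g (β : K)) = 1 := by
        rw [map_mul, map_pow, hc, hk, ← WithZero.exp_nsmul, ← WithZero.exp_add]
        simp
      obtain ⟨n, ⟨b, hb⟩, hnb⟩ := w₀.exists_primeCompl_mul_eq_of_integer (c ^ 3 * g (β : K)) hd.le
      have hb' : b ∉ w₀.asIdeal := hb
      have hnb' : c ^ 3 * g (β : K) * (b : K) = (n : K) := hnb
      have hn : n ∉ w₀.asIdeal := by
        intro hmem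
        have h4 := (w₀.valuation_lt_one_iff_mem (K := K) n).2 hmem
        have h5 : w₀.valuation K (b : K) = 1 := by
          have h6 := w₀.valuation_le_one (K := K) b
          have h7 : ¬ w₀.valuation K (b : K) < 1 := fun h8 =>
            hb' ((w₀.valuation_lt_one_iff_mem (K := K) b).1 h8)
          exact le_antisymm h6 (not_lt.1 h7)
        have h6 : w₀.valuation K (n : K) = 1 := by
          rw [← hnb', map_mul, hd, h5, one_mul]
        have h7 : w₀.valuation K (n : K) < 1 := h4
        rw [h6] at h7
        exact lt_irrefl _ h7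
      set Y : K' := algebraMap K K' (b * c) * r g with hY
      have hY2 : Y ^ 3 = algebraMap K K' ((b ^ 2 * n : 𝓞 K) : K) := by
        rw [hY, mul_pow, h.cube, ← map_pow, ← map_mul]
        congr 1
        have h8 : ((b ^ 2 * n : 𝓞 K) : K) = (b : K) ^ 2 * (n : K) := by
          rw [← map_pow]
          exact map_mul _ _ _
        rw [h8, ← hnb']
        ring
      have hYint : IsIntegral ℤ Y := by
        apply IsIntegral.of_pow (n := 3) (by norm_num)
        rw [hY2]
        exact map_isIntegral_int (algebraMap K K') (RingOfIntegers.isIntegral_coe (b ^ 2 * n))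
      let y : 𝓞 K' := ⟨Y, hYint⟩
      have hy2 : y ^ 3 = algebraMap (𝓞 K) (𝓞 K') (b ^ 2 * n) := by
        apply RingOfIntegers.ext
        exact hY2
      have hty : t • y - y = -((1 - Z) * y) := by
        apply RingOfIntegers.ext
        show t Y - Y = -((1 - (Z : K')) * Y)
        rw [hY, map_mul, hfix, hz, hZ]
        ring
      have hmem := ht y
      rw [hty, Ideal.neg_mem_iff] at hmem
      rcases W.isPrime.mem_or_mem hmem with h4 | h4
      · apply h2W
        rw [← hZ3]
        exact Ideal.mul_mem_right _ _ h4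
      · have h5 : y ^ 3 ∈ W.asIdeal := Ideal.pow_mem_of_mem _ h4 3 (by norm_num)
        rw [hy2] at h5
        rcases w₀.isPrime.mem_or_mem (hmemW _ h5) with h6 | h6
        · exact hb' (w₀.isPrime.mem_of_pow_mem 2 h6)
        · exact hn h6
  -- t fixes K and the generators
  have h4 : ∀ x : K', t x = x := by
    intro x
    have hx : x ∈ Algebra.adjoin K (Set.range r) := by
      rw [h.gen]
      trivial
    induction hx using Algebra.adjoin_induction with
    | mem x hx =>
      obtain ⟨g, rfl⟩ := hx
      exact hrfix g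
    | algebraMap x => exact hfix x
    | add x y _ _ hx hy => rw [map_add, hx, hy]
    | mul x y _ _ hx hy => rw [map_mul, hx, hy]
  exact AlgEquiv.ext h4

end H19T
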