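import Mathlib
import Pool.Agent.Lib.H19T.W1
import Pool.Agent.Lib.H19T.W2
import Pool.Agent.Lib.H19T.W3
import Pool.Agent.Lib.H19T.W5
import Pool.Agent.Lib.H19T.W6
import Pool.Agent.Lib.H55N.WR7

open NumberField IsDedekindDomain

namespace H19T

open H55B H35T H55N

/-- Chunk W7 (S/M), one wreath step. Adapt H55N/WR7.lean (WR7_cj, WR7_pos, WR7_le, WR7_eq are reusable). -/
theorem wreath_step3 (K : Type) [Field K] [NumberField K] [Algebra F K] (hT : ThreeExt K)
    (hU : H35T.UnrOut K) (B : ℕ)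
    (hB : ∀ w : HeightOneSpectrum (𝓞 K), w.asIdeal.ramificationIdx O ≠ 1 →
      B < Ideal.absNorm w.asIdeal) :
    ∃ (K' : Type) (_ : Field K') (_ : NumberField K') (_ : Algebra F K') (_ : Algebra K K')
      (_ : IsScalarTower F K K'), ThreeExt K' ∧ H35T.UnrOut K' ∧
      Nonempty ((K' ≃ₐ[F] K') ≃* C3 ≀ᵣ (K ≃ₐ[F] K)) ∧
      ∀ W : HeightOneSpectrum (𝓞 K'), W.asIdeal.ramificationIdx O ≠ 1 →
        B < Ideal.absNorm W.asIdeal := by
  have hG : IsGalois F K := hT.1
  obtain ⟨β, w, w', hβ, hBw, hBw'⟩ := exists_beta3 K hT B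
  have hβ0 : β ≠ 0 := by
    rintro rfl
    obtain ⟨k, hk⟩ := hβ.odd
    have h0 : ((0 : 𝓞 K) : K) = 0 := map_zero (algebraMap (𝓞 K) K)
    rw [h0, map_zero] at hk
    exact WithZero.exp_ne_zero hk.symm
  obtain ⟨K', _, _, _, _, _, r, hr⟩ := exists_Wr3 K β hβ0
  have hn := not_cube K β w w' hβ
  have hcard := wr_card3 K K' β hβ0 r hr hn
  have key : ∀ W : HeightOneSpectrum (𝓞 K'),
      (HeightOneSpectrum.under (𝓞 K) W).asIdeal.ramificationIdx O = 1 →
      W.asIdeal.under O ≠ w.asIdeal.under O → W.asIdeal.under O ≠ w'.asIdeal.under O →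
      W.asIdeal.ramificationIdx O = 1 := by
    intro W h1 h2 h3
    refine wr_unr_at3 K K' β hβ0 hβ.nine r hr W (HeightOneSpectrum.under (𝓞 K) W) rfl h1 fun g => ?_
    obtain ⟨P', hP1, hP2⟩ := WR7_cj K g (HeightOneSpectrum.under (𝓞 K) W)
    rw [hP2]
    have h4 : (HeightOneSpectrum.under (𝓞 K) W).asIdeal.under O = W.asIdeal.under O :=
      Ideal.under_under _
    rw [h4] at hP1
    refine hβ.even P' ?_ ?_
    · rintro rfl
      exact h2 hP1.symm
    · rintro rfl
      exact h3 hP1.symm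
  refine ⟨K', inferInstance, inferInstance, inferInstance, inferInstance, inferInstance,
    ⟨hr.gal, ?_⟩, ?_, wr_iso3 K K' β hβ0 r hr hn, ?_⟩
  · obtain ⟨k, hk⟩ := hT.2
    refine ⟨k + Nat.card (K ≃ₐ[F] K), ?_⟩
    rw [← Module.finrank_mul_finrank F K K', hcard, hk, pow_add]
  · intro W v hv hg
    have h4 : (HeightOneSpectrum.under (𝓞 K) W).asIdeal.under O = W.asIdeal.under O :=
      Ideal.under_under _
    apply key W (hU _ v (hv.trans h4.symm) hg)
    · intro h
      exact hg (hβ.good v (hv.trans h))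
    · intro h
      exact hg (hβ.good' v (hv.trans h))
  · intro W hW
    have hle := WR7_le K K' (HeightOneSpectrum.under (𝓞 K) W) W rfl
    have h4 : (HeightOneSpectrum.under (𝓞 K) W).asIdeal.under O = W.asIdeal.under O :=
      Ideal.under_under _
    by_cases h1 : (HeightOneSpectrum.under (𝓞 K) W).asIdeal.ramificationIdx O = 1
    · by_cases h2 : W.asIdeal.under O = w.asIdeal.under O
      · rw [WR7_eq K _ w (h4.trans h2)] at hle
        omega
      · by_cases h3 : W.asIdeal.under O = w'.asIdeal.under O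
        · rw [WR7_eq K _ w' (h4.trans h3)] at hle
          omega
        · exact absurd (key W h1 h2 h3) hW
    · exact lt_of_lt_of_le (hB _ h1) hle

end H19T
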