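import Mathlib
import Pool.Agent.Lib.H19T.W7
import Pool.Agent.Lib.H19T.W8
import Pool.Agent.Lib.H55N.WR9

open NumberField IsDedekindDomain

namespace H19T

open H55B H35T H55N

/-! Chunk W9 (S/M): every finite 3-group embeds. Adapt H55N/WR9.lean (unr_base is reusable). -/

theorem threeExt_base : ThreeExt F :=
  ⟨inferInstance, 0, by rw [Module.finrank_self, pow_zero]⟩

/-- A central subgroup of order three. -/
theorem w9_centre (H : Type) [Group H] [Finite H] (k : ℕ) (hH : Nat.card H = 3 ^ (k + 1)) :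
    ∃ Z : Subgroup H, Z.Normal ∧ Nat.card Z = 3 ∧ Nat.card (H ⧸ Z) = 3 ^ k := by
  haveI : Fact (Nat.Prime 3) := ⟨Nat.prime_three⟩
  have hp : IsPGroup 3 H := IsPGroup.of_card hH
  haveI : Nontrivial H := by
    apply Finite.one_lt_card_iff_nontrivial.1
    rw [hH]
    exact Nat.one_lt_pow (Nat.succ_ne_zero k) (by norm_num)
  haveI := hp.center_nontrivial
  have hc : IsPGroup 3 (Subgroup.center H) := hp.to_subgroup _
  obtain ⟨j, hj⟩ := IsPGroup.iff_card.1 hc
  have hj0 : j ≠ 0 := by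
    rintro rfl
    have h1 : 1 < Nat.card (Subgroup.center H) := Finite.one_lt_card_iff_nontrivial.2 inferInstance
    rw [hj, pow_zero] at h1
    exact lt_irrefl _ h1
  obtain ⟨z, hz⟩ := exists_prime_orderOf_dvd_card' (G := Subgroup.center H) 3
    (by rw [hj]; exact dvd_pow_self 3 hj0)
  have hz2 : orderOf (z : H) = 3 := by rw [Subgroup.orderOf_coe, hz]
  have hle : Subgroup.zpowers (z : H) ≤ Subgroup.center H := by
    rw [Subgroup.zpowers_le]
    exact z.2
  have hcard : Nat.card (Subgroup.zpowers (z : H)) = 3 := by rw [Nat.card_zpowers, hz2]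
  refine ⟨Subgroup.zpowers (z : H), ⟨fun n hn g => ?_⟩, hcard, ?_⟩
  · have h1 := Subgroup.mem_center_iff.1 (hle hn) g
    rw [h1, mul_inv_cancel_right]
    exact hn
  · have h1 := Subgroup.card_eq_card_quotient_mul_card_subgroup (Subgroup.zpowers (z : H))
    rw [hH, hcard, pow_succ] at h1
    exact (Nat.eq_of_mul_eq_mul_right (by norm_num) h1).symm

theorem exists_embed3 (k : ℕ) : ∀ (H : Type) [Group H] [Finite H], Nat.card H = 3 ^ k → ∀ B : ℕ,
    ∃ (K : Type) (_ : Field K) (_ : NumberField K) (_ : Algebra F K), ThreeExt K ∧ H35T.UnrOut K ∧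
      (∃ φ : H →* (K ≃ₐ[F] K), Function.Injective φ) ∧
      ∀ w : HeightOneSpectrum (𝓞 K), w.asIdeal.ramificationIdx O ≠ 1 →
        B < Ideal.absNorm w.asIdeal := by
  induction k with
  | zero =>
    intro H _ _ hH B
    rw [pow_zero] at hH
    haveI : Subsingleton H := (Nat.card_eq_one_iff_unique.1 hH).1
    exact ⟨F, inferInstance, inferInstance, Algebra.id F, threeExt_base,
      fun w v _ _ => unr_base w, ⟨1, Function.injective_of_subsingleton _⟩,
      fun w hw => absurd (unr_base w) hw⟩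
  | succ k ih =>
    intro H _ _ hH B
    obtain ⟨Z, hZ, hZ2, hQ⟩ := w9_centre H k hH
    obtain ⟨K, _, _, _, hT, hU, ⟨φ, hφ⟩, hB⟩ := ih (H ⧸ Z) hQ B
    obtain ⟨K', _, _, _, _, _, hT', hU', ⟨e⟩, hB'⟩ := wreath_step3 K hT hU B hB
    haveI : Finite (K ≃ₐ[F] K) := inferInstance
    have hker : (φ.comp (QuotientGroup.mk' Z)).ker = Z := by
      ext x
      rw [MonoidHom.mem_ker, MonoidHom.comp_apply, ← map_one φ, hφ.eq_iff]
      exact QuotientGroup.eq_one_iff x
    obtain ⟨ψ, hψ⟩ := kk3 H (K ≃ₐ[F] K) (φ.comp (QuotientGroup.mk' Z)) (by rw [hker]; exact hZ2)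
    exact ⟨K', inferInstance, inferInstance, inferInstance, hT', hU',
      ⟨e.symm.toMonoidHom.comp ψ, e.symm.injective.comp hψ⟩, hB'⟩

end H19T
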