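import Mathlib
import Pool.Agent.Lib.H19C.D2
import Pool.Agent.Lib.H13X.XP0

/-! # H19T: devissage of the local index: from the points killed by β to the points killed by β^t -/

open NumberField IsDedekindDomain WeierstrassCurve

namespace H19T

open H55P (IQ Pt ac Dec Inert decS)
open H35P (WAB Ker tt)
open H55K (Tor CMA Dta GV ak cj xc yc)
open H19B (Cc CS mem_CS)
open H19C (CL mem_CL)

/-- An index is bounded by the number of elements of a finite set which separates the classes. -/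
theorem idx_le {G X : Type} [AddCommGroup G] {H K : AddSubgroup G} [Finite X] (f : K → X)
    (hf : ∀ a b : K, f a = f b → (a : G) - b ∈ H) : H.relIndex K ≠ 0 ∧ H.relIndex K ≤ Nat.card X := by
  let g : K ⧸ H.addSubgroupOf K → X := fun q => f (Quotient.out q)
  have hg : Function.Injective g := by
    intro q q' h
    have h1 := hf _ _ h
    have h2 : ((Quotient.out q : K) : K ⧸ H.addSubgroupOf K) = ((Quotient.out q' : K) : K ⧸ H.addSubgroupOf K) := by
      rw [QuotientAddGroup.eq_iff_sub_mem, AddSubgroup.mem_addSubgroupOf]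
      exact h1
    rw [QuotientAddGroup.out_eq', QuotientAddGroup.out_eq'] at h2
    exact h2
  have hfin : Finite (K ⧸ H.addSubgroupOf K) := Finite.of_injective g hg
  constructor
  · change Nat.card (K ⧸ H.addSubgroupOf K) ≠ 0
    exact Nat.card_pos.ne'
  · exact Nat.card_le_card_of_injective g hg

section

variable {F : Type} [Field F] [NumberField F] [IQ F] {A B : F} {Om : ℂ} {Ω : Type} [Field Ω] [DecidableEq Ω]
  [Algebra F Ω] [IsAlgClosure F Ω] {j : Ω →+* ℂ} {act : 𝓞 F →+* AddMonoid.End (Pt (WAB A B) Ω)}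

/-- Multiplication by β of a cocycle. -/
theorem dv_mul (hA : CMA F A B Om j act) {β ρ : 𝓞 F} {D : Subgroup (Ω ≃ₐ[F] Ω)} {c : (Ω ≃ₐ[F] Ω) → Pt (WAB A B) Ω}
    (hc : Cc D act (ρ * β) c) : Cc D act ρ (fun s => act β (c s)) := by
  refine ⟨fun s hs t ht => ?_, fun s hs => ?_, ?_⟩
  · change act β (c (s * t)) = act β (c s) + ac (WAB A B) s (act β (c t))
    rw [hc.mul s hs t ht, map_add, H55K.S.ac_act hA]
  · change act ρ (act β (c s)) = 0
    rw [← H55K.S.act_mul]
    exact hc.tor s hs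
  · obtain ⟨L, hL, h⟩ := hc.cont
    refine ⟨L, hL, fun s hs hsL => ?_⟩
    change act β (c s) = 0
    rw [h s hs hsL, map_zero]

/-- A cocycle minus the coboundary of a point. -/
theorem dv_sub {β ρ : 𝓞 F} {D : Subgroup (Ω ≃ₐ[F] Ω)} {c : (Ω ≃ₐ[F] Ω) → Pt (WAB A B) Ω}
    (hc : Cc D act ρ c) (P : Pt (WAB A B) Ω) (hP : ∀ s ∈ D, act β (c s - (ac (WAB A B) s P - P)) = 0) :
    Cc D act β (fun s => c s - (ac (WAB A B) s P - P)) := by
  refine ⟨fun s hs t ht => ?_, hP, ?_⟩
  · change c (s * t) - (ac (WAB A B) (s * t) P - P) = c s - (ac (WAB A B) s P - P) + ac (WAB A B) s (c t - (ac (WAB A B) t P - P))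
    rw [hc.mul s hs t ht, H55K.S.ac_mul, map_sub, map_sub]
    abel
  · obtain ⟨L, hL, h⟩ := hc.cont
    have hf := H13X.lp_fin (A := A) (B := B) P
    refine ⟨L ⊔ IntermediateField.adjoin F {xc P, yc P}, IntermediateField.finiteDimensional_sup _ _, fun s hs hsL => ?_⟩
    rw [IntermediateField.fixingSubgroup_sup, Subgroup.mem_inf] at hsL
    change c s - (ac (WAB A B) s P - P) = 0
    rw [h s hs hsL.1, H13X.lp_adj s P hsL.2, sub_self, sub_zero]

/-- DEVISSAGE OF THE LOCAL INDEX. -/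
theorem dev_index (hA : CMA F A B Om j act) {β : 𝓞 F} (hβ : β ≠ 0) (D : Subgroup (Ω ≃ₐ[F] Ω))
    (h1 : (CL D D act β).relIndex (CS D act β) ≠ 0) (t : ℕ) :
    (CL D D act (β ^ t)).relIndex (CS D act (β ^ t)) ≠ 0 ∧
      (CL D D act (β ^ t)).relIndex (CS D act (β ^ t)) ≤ ((CL D D act β).relIndex (CS D act β)) ^ t := by
  classical
  induction t with
  | zero =>
    have h2 : (CL D D act (β ^ 0)).relIndex (CS D act (β ^ 0)) = 1 := by
      rw [AddSubgroup.relIndex_eq_one]
      intro c hc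
      refine ⟨hc, 0, fun s hs => ?_⟩
      have h3 := hc.tor s hs
      rw [pow_zero, H55K.S.act_one] at h3
      rw [h3, map_zero, sub_zero]
    rw [h2, pow_zero]
    exact ⟨one_ne_zero, le_rfl⟩
  | succ t ih =>
    obtain ⟨ih0, ih1⟩ := ih
    -- the middle group
    let S : AddSubgroup ((Ω ≃ₐ[F] Ω) → Pt (WAB A B) Ω) :=
      { carrier := {c | Cc D act (β ^ (t + 1)) c ∧ ∃ P : Pt (WAB A B) Ω, ∀ s ∈ D, act β (c s) = ac (WAB A B) s P - P}
        zero_mem' := ⟨(CS D act (β ^ (t + 1))).zero_mem, 0, fun s _ => by rw [Pi.zero_apply, map_zero, map_zero, sub_zero]⟩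
        add_mem' := by
          rintro a b ⟨a1, P, a2⟩ ⟨b1, P', b2⟩
          refine ⟨(CS D act (β ^ (t + 1))).add_mem a1 b1, P + P', fun s hs => ?_⟩
          rw [Pi.add_apply, map_add, a2 s hs, b2 s hs, map_add]
          abel
        neg_mem' := by
          rintro a ⟨a1, P, a2⟩
          refine ⟨(CS D act (β ^ (t + 1))).neg_mem a1, -P, fun s hs => ?_⟩
          rw [Pi.neg_apply, map_neg, a2 s hs, map_neg]
          abel }
    have hSK : S ≤ CS D act (β ^ (t + 1)) := fun c hc => hc.1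
    have hLS : CL D D act (β ^ (t + 1)) ≤ S := by
      rintro c ⟨hc, P, hP⟩
      refine ⟨hc, act β P, fun s hs => ?_⟩
      rw [hP s hs, map_sub, H55K.S.ac_act hA]
    have hf1 : Finite (CS D act (β ^ t) ⧸ (CL D D act (β ^ t)).addSubgroupOf (CS D act (β ^ t))) :=
      Nat.finite_of_card_ne_zero ih0
    have hf2 : Finite (CS D act β ⧸ (CL D D act β).addSubgroupOf (CS D act β)) :=
      Nat.finite_of_card_ne_zero h1
    -- upper part
    have hup : S.relIndex (CS D act (β ^ (t + 1))) ≠ 0 ∧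
        S.relIndex (CS D act (β ^ (t + 1))) ≤ (CL D D act (β ^ t)).relIndex (CS D act (β ^ t)) := by
      have hmul : ∀ c : CS D act (β ^ (t + 1)), Cc D act (β ^ t) (fun s => act β (c.1 s)) := fun c =>
        dv_mul hA (by rw [← pow_succ]; exact c.2)
      refine idx_le (X := CS D act (β ^ t) ⧸ (CL D D act (β ^ t)).addSubgroupOf (CS D act (β ^ t)))
        (fun c => QuotientAddGroup.mk (⟨fun s => act β (c.1 s), hmul c⟩ : CS D act (β ^ t))) fun a b hab => ?_
      rw [QuotientAddGroup.eq_iff_sub_mem, AddSubgroup.mem_addSubgroupOf] at hab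
      obtain ⟨-, P, hP⟩ := hab
      refine ⟨(CS D act (β ^ (t + 1))).sub_mem a.2 b.2, P, fun s hs => ?_⟩
      rw [Pi.sub_apply, map_sub]
      exact hP s hs
    -- lower part
    have hlow : (CL D D act (β ^ (t + 1))).relIndex S ≠ 0 ∧
        (CL D D act (β ^ (t + 1))).relIndex S ≤ (CL D D act β).relIndex (CS D act β) := by
      have hex : ∀ c : S, ∃ P' : Pt (WAB A B) Ω, ∀ s ∈ D, act β (c.1 s - (ac (WAB A B) s P' - P')) = 0 := by
        intro c
        obtain ⟨-, P, hP⟩ := c.2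
        obtain ⟨P', hP'⟩ := hA.surj β hβ P
        refine ⟨P', fun s hs => ?_⟩
        rw [map_sub, hP s hs, map_sub, ← H55K.S.ac_act hA, hP', sub_self]
      choose P' hP' using hex
      refine idx_le (X := CS D act β ⧸ (CL D D act β).addSubgroupOf (CS D act β))
        (fun c => QuotientAddGroup.mk (⟨fun s => c.1 s - (ac (WAB A B) s (P' c) - P' c), dv_sub c.2.1 (P' c) (hP' c)⟩ : CS D act β))
        fun a b hab => ?_
      rw [QuotientAddGroup.eq_iff_sub_mem, AddSubgroup.mem_addSubgroupOf] at hab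
      obtain ⟨-, P, hP⟩ := hab
      refine ⟨(CS D act (β ^ (t + 1))).sub_mem a.2.1 b.2.1, P + P' a - P' b, fun s hs => ?_⟩
      have h3 : (a.1 s - (ac (WAB A B) s (P' a) - P' a)) - (b.1 s - (ac (WAB A B) s (P' b) - P' b)) = ac (WAB A B) s P - P := hP s hs
      rw [Pi.sub_apply, map_sub, map_add]
      have h4 : a.1 s - b.1 s = ((a.1 s - (ac (WAB A B) s (P' a) - P' a)) - (b.1 s - (ac (WAB A B) s (P' b) - P' b))) +
          ((ac (WAB A B) s (P' a) - P' a) - (ac (WAB A B) s (P' b) - P' b)) := by abel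
      rw [h4, h3]
      abel
    have hmul := AddSubgroup.relIndex_mul_relIndex _ _ _ hLS hSK
    rw [← hmul]
    refine ⟨mul_ne_zero hlow.1 hup.1, ?_⟩
    refine (Nat.mul_le_mul hlow.2 (hup.2.trans ih1)).trans (le_of_eq ?_)
    rw [mul_comm, ← pow_succ]

end

end H19T
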