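import Pool.Agent.Lib.H19T.A3
import Pool.Agent.Lib.H19T.A4
import Pool.Agent.Lib.H19T.A5b
import Pool.Agent.Lib.H19T.A6
import Pool.Agent.Lib.H19T.A6b
import Pool.Agent.Lib.H19T.A7
import Pool.Agent.Lib.H19T.A8c
import Pool.Agent.Lib.H19T.A9a
import Pool.Agent.Lib.H19T.A9b
import Pool.Agent.Lib.H19T.A10
import Pool.Agent.Lib.H19T.A11
import Pool.Agent.Lib.H19T.A12
import Pool.Agent.Lib.H19T.W9
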