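import Mathlib

/-! # H19T: corestriction of a cocycle from a normal subgroup of index prime to n -/

namespace H19T

/-- Corestriction. c₀ is a cocycle on N, k times c₀ is the restriction of a cocycle c on G. -/
theorem cores {G M : Type} [Group G] [AddCommGroup M] (a : G → M →+ M)
    (ha : ∀ s t m, a (s * t) m = a s (a t m)) (B : AddSubgroup M)
    (haB : ∀ g, ∀ m ∈ B, a g m ∈ B) (n : ℕ) (hl : ∀ m ∈ B, n • m = 0) (N : Subgroup G) [N.Normal]
    (hN : N.index ≠ 0) (hlN : n.Coprime N.index) (c₀ : G → M) (hB : ∀ s ∈ N, c₀ s ∈ B)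
    (hc₀ : ∀ s ∈ N, ∀ t ∈ N, c₀ (s * t) = c₀ s + a s (c₀ t)) (k : ℕ) (c : G → M) (hcB : ∀ s, c s ∈ B)
    (hc : ∀ s t, c (s * t) = c s + a s (c t)) (hk : ∀ s ∈ N, k • c₀ s = c s) :
    ∃ (c' : G → M) (u : ℤ) (r : G ⧸ N → G) (Y : M), (∀ q, ((r q : G) : G ⧸ N) = q) ∧ (∀ s, c' s ∈ B) ∧
      (∀ s t, c' (s * t) = c' s + a s (c' t)) ∧ Y ∈ B ∧
      (∀ s ∈ N, c' s = u • ∑ᶠ q : G ⧸ N, a (r q) (c₀ ((r q)⁻¹ * s * r q))) ∧
      (∀ s, k • c' s = c s + a s Y - Y) ∧ (n : ℤ) ∣ u * N.index - 1 ∧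
      ∀ U : Subgroup G, U.Normal → U ≤ N → (∀ s ∈ U, c₀ s = 0) → ∀ s ∈ U, c' s = 0 := by
  classical
  have : Fintype (G ⧸ N) := Subgroup.fintypeOfIndexNeZero hN
  have hcard : Fintype.card (G ⧸ N) = N.index := by
    rw [Subgroup.index, Nat.card_eq_fintype_card]
  obtain ⟨r, hr⟩ : ∃ r : G ⧸ N → G, ∀ q, ((r q : G) : G ⧸ N) = q :=
    ⟨Quotient.out, fun q => Quotient.out_eq' q⟩
  obtain ⟨m, hm⟩ : ∃ m : G → G ⧸ N → G, ∀ s q, m s q = (r ((s : G ⧸ N) * q))⁻¹ * s * r q :=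
    ⟨fun s q => (r ((s : G ⧸ N) * q))⁻¹ * s * r q, fun _ _ => rfl⟩
  have hmN : ∀ s q, m s q ∈ N := by
    intro s q
    rw [hm, ← QuotientGroup.eq_one_iff]
    simp [hr]
  have hmr : ∀ (s : G) (q : G ⧸ N), r ((s : G ⧸ N) * q) * m s q = s * r q := by
    intro s q
    rw [hm]; group
  have hmm : ∀ (s t : G) (q : G ⧸ N), m (s * t) q = m s ((t : G ⧸ N) * q) * m t q := by
    intro s t q
    rw [hm, hm, hm]
    have : (((s * t : G) : G ⧸ N)) * q = (s : G ⧸ N) * ((t : G ⧸ N) * q) := by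
      rw [QuotientGroup.mk_mul, mul_assoc]
    rw [this]; group
  let cor : G → M := fun s => ∑ q : G ⧸ N, a (r ((s : G ⧸ N) * q)) (c₀ (m s q))
  have hcorB : ∀ s, cor s ∈ B := fun s => AddSubgroup.sum_mem _ fun q _ =>
    haB _ _ (hB _ (hmN s q))
  have hcor : ∀ s t, cor (s * t) = cor s + a s (cor t) := by
    intro s t
    have h1 : cor s = ∑ q : G ⧸ N, a (r ((s : G ⧸ N) * ((t : G ⧸ N) * q)))
        (c₀ (m s ((t : G ⧸ N) * q))) := by
      exact (Equiv.sum_comp (Equiv.mulLeft (t : G ⧸ N))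
        (fun q => a (r ((s : G ⧸ N) * q)) (c₀ (m s q)))).symm
    have h2 : a s (cor t) = ∑ q : G ⧸ N, a s (a (r ((t : G ⧸ N) * q)) (c₀ (m t q))) :=
      map_sum _ _ _
    rw [h1, h2, ← Finset.sum_add_distrib]
    refine Finset.sum_congr rfl fun q _ => ?_
    rw [hmm, hc₀ _ (hmN _ _) _ (hmN _ _), map_add]
    have h3 : (((s * t : G) : G ⧸ N)) * q = (s : G ⧸ N) * ((t : G ⧸ N) * q) := by
      rw [QuotientGroup.mk_mul, mul_assoc]
    rw [h3]
    congr 1
    rw [← ha, hmr, ha]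
  have hs1 : ∀ s ∈ N, ∀ q : G ⧸ N, (s : G ⧸ N) * q = q := by
    intro s hs q
    rw [(QuotientGroup.eq_one_iff s).2 hs, one_mul]
  obtain ⟨u, v, huv⟩ := Nat.isCoprime_iff_coprime.2 hlN
  have hu : ∀ m ∈ B, v • ((N.index : ℤ) • m) = m := by
    intro m hm
    have h1 : u • ((n : ℤ) • m) = 0 := by rw [natCast_zsmul, hl m hm, smul_zero]
    calc v • ((N.index : ℤ) • m) = u • ((n : ℤ) • m) + v • ((N.index : ℤ) • m) := by
          rw [h1, zero_add]
      _ = (u * n + v * N.index) • m := by rw [add_smul, mul_smul, mul_smul]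
      _ = m := by rw [huv, one_smul]
  -- k times the corestriction
  let Y₀ : M := ∑ q : G ⧸ N, c (r q)
  have hY₀ : Y₀ ∈ B := AddSubgroup.sum_mem _ fun q _ => hcB _
  have hkc : ∀ s, k • cor s = (N.index : ℤ) • c s + a s Y₀ - Y₀ := by
    intro s
    have h1 : ∀ q : G ⧸ N, k • a (r ((s : G ⧸ N) * q)) (c₀ (m s q)) = c s + a s (c (r q)) - c (r ((s : G ⧸ N) * q)) := by
      intro q
      rw [← map_nsmul, hk _ (hmN s q)]
      have h2 := hc (r ((s : G ⧸ N) * q)) (m s q)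
      rw [hmr, hc] at h2
      rw [h2]
      abel
    have h3 : k • cor s = ∑ q : G ⧸ N, (c s + a s (c (r q)) - c (r ((s : G ⧸ N) * q))) := by
      change k • (∑ q : G ⧸ N, a (r ((s : G ⧸ N) * q)) (c₀ (m s q))) = _
      rw [Finset.smul_sum]
      exact Finset.sum_congr rfl fun q _ => h1 q
    have h4 : ∑ q : G ⧸ N, c (r ((s : G ⧸ N) * q)) = Y₀ :=
      Equiv.sum_comp (Equiv.mulLeft (s : G ⧸ N)) (fun q => c (r q))
    rw [h3, Finset.sum_sub_distrib, Finset.sum_add_distrib, Finset.sum_const, h4, Finset.card_univ, hcard, natCast_zsmul]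
    congr 2
    exact (map_sum (a s) _ _).symm
  refine ⟨fun s => v • cor s, v, r, v • Y₀, hr, fun s => AddSubgroup.zsmul_mem _ (hcorB s) _, fun s t => ?_,
    AddSubgroup.zsmul_mem _ hY₀ _, fun s hs => ?_, fun s => ?_, ?_, fun U hU hUN hc0 s hs => ?_⟩
  · show v • cor (s * t) = v • cor s + a s (v • cor t)
    rw [hcor, smul_add, map_zsmul]
  · show v • cor s = _
    rw [finsum_eq_sum_of_fintype]
    congr 1
    refine Finset.sum_congr rfl fun q _ => ?_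
    rw [hm, hs1 s hs q]
  · show k • (v • cor s) = _
    rw [smul_comm, hkc, smul_sub, smul_add, hu _ (hcB s), map_zsmul]
  · exact ⟨-u, by linarith⟩
  · show v • cor s = 0
    have h1 : cor s = 0 := by
      refine Finset.sum_eq_zero fun q _ => ?_
      have h2 : m s q ∈ U := by
        rw [hm, hs1 s (hUN hs) q]
        have h3 := hU.conj_mem s hs (r q)⁻¹
        rw [inv_inv] at h3
        exact h3
      rw [hc0 _ h2, map_zero]
    rw [h1, smul_zero]

end H19T
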