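import Mathlib
import Pool.Agent.Lib.H13T.TA

/-! # H19T: the order of a free Z/p^t-module (ta_card, ta_div in the inequality form are in H13T.TA) -/

namespace H19T

/-- B is killed by p^t and every element killed by p^(t-1) is divisible by p: the order is the t-th power of the order of B[p]. -/
theorem ta_free {B : Type*} [AddCommGroup B] [Finite B] (p : ℕ) [Fact p.Prime] (t : ℕ) (hB : ∀ b : B, p ^ t • b = 0)
    (hd : ∀ b : B, p ^ (t - 1) • b = 0 → ∃ b' : B, b = p • b') :
    Nat.card B = Nat.card {b : B // p • b = 0} ^ t := by
  classical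
  -- division inside the torsion
  have hdiv : ∀ s : ℕ, s + 1 ≤ t → ∀ x : B, p • x = 0 → ∃ y : B, x = p ^ s • y := by
    intro s
    induction s with
    | zero => exact fun _ x _ => ⟨x, by rw [pow_zero, one_smul]⟩
    | succ s ih =>
      intro hs x hx
      obtain ⟨y, hy⟩ := ih (by omega) x hx
      have h1 : p ^ (t - 1) • y = 0 := by
        have h2 : p ^ (s + 1) • y = 0 := by
          rw [pow_succ, mul_comm, mul_smul, ← hy, hx]
        obtain ⟨k, hk⟩ : ∃ k, t - 1 = k + (s + 1) := ⟨t - 1 - (s + 1), by omega⟩
        rw [hk, pow_add, mul_smul, h2, smul_zero]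
      obtain ⟨z, hz⟩ := hd y h1
      exact ⟨z, by rw [hy, hz, smul_smul, pow_succ]⟩
  -- the torsion of level s
  let K : ℕ → AddSubgroup B := fun s =>
    { carrier := {b | p ^ s • b = 0}
      zero_mem' := smul_zero _
      add_mem' := fun {x y} hx hy => by
        change p ^ s • (x + y) = 0
        rw [smul_add]
        change p ^ s • x = 0 at hx
        change p ^ s • y = 0 at hy
        rw [hx, hy, add_zero]
      neg_mem' := fun {x} hx => by
        change p ^ s • (-x) = 0
        change p ^ s • x = 0 at hx
        rw [smul_neg, hx, neg_zero] }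
  have hK : ∀ s (b : B), b ∈ K s ↔ p ^ s • b = 0 := fun _ _ => Iff.rfl
  have hcard : ∀ s ≤ t, Nat.card (K s) = Nat.card {b : B // p • b = 0} ^ s := by
    intro s
    induction s with
    | zero =>
      intro _
      rw [pow_zero]
      have h1 : K 0 = ⊥ := by
        rw [AddSubgroup.eq_bot_iff_forall]
        intro b hb
        rw [hK, pow_zero, one_smul] at hb
        exact hb
      rw [h1, AddSubgroup.card_bot]
    | succ s ih =>
      intro hs
      let f : K (s + 1) →+ B := (nsmulAddMonoidHom (p ^ s)).comp (K (s + 1)).subtype
      have hf : ∀ x, f x = p ^ s • (x : B) := fun _ => rfl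
      have h1 : Nat.card (K (s + 1)) = Nat.card f.ker * Nat.card f.range := by
        rw [← Nat.card_congr (QuotientAddGroup.quotientKerEquivRange f).toEquiv, mul_comm]
        exact AddSubgroup.card_eq_card_quotient_mul_card_addSubgroup f.ker
      have h2 : Nat.card f.ker = Nat.card (K s) := by
        refine Nat.card_congr
          { toFun := fun x => ⟨x.1.1, x.2⟩
            invFun := fun x => ⟨⟨x.1, ?_⟩, x.2⟩
            left_inv := fun x => rfl
            right_inv := fun x => rfl }
        rw [hK, pow_succ, mul_comm, mul_smul, (hK s _).1 x.2, smul_zero]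
      have h3 : Nat.card f.range = Nat.card {b : B // p • b = 0} := by
        refine Nat.card_congr (Equiv.subtypeEquivRight fun b => ?_)
        constructor
        · rintro ⟨x, rfl⟩
          have h4 := (hK (s + 1) _).1 x.2
          rw [hf, smul_smul, mul_comm, ← pow_succ]
          exact h4
        · intro hb
          obtain ⟨y, hy⟩ := hdiv s hs b hb
          refine ⟨⟨y, ?_⟩, ?_⟩
          · rw [hK, pow_succ, mul_comm, mul_smul, ← hy, hb]
          · exact hy.symm
      rw [h1, h2, h3, ih (by omega), pow_succ]
  have h1 := hcard t le_rfl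
  rw [← h1]
  refine Nat.card_congr
    { toFun := fun b => ⟨b, hB b⟩
      invFun := fun b => b.1
      left_inv := fun x => rfl
      right_inv := fun x => rfl }

end H19T
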